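import Mathlib

set_option autoImplicit false

namespace Pool.Agent.X149.PP

open Finset MeasureTheory ProbabilityTheory Filter
open scoped ENNReal

/-- The measure of a coin with probability `p` of heads. -/
noncomputable def coin (p : ℝ) : Measure Bool :=
  ENNReal.ofReal p • Measure.dirac true + ENNReal.ofReal (1 - p) • Measure.dirac false

lemma coin_prob {p : ℝ} (h0 : 0 ≤ p) (h1 : p ≤ 1) : IsProbabilityMeasure (coin p) := by
  constructor
  unfold coin
  rw [Measure.add_apply, Measure.smul_apply, Measure.smul_apply, measure_univ, measure_univ,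
    smul_eq_mul, smul_eq_mul, mul_one, mul_one, ← ENNReal.ofReal_add h0 (by linarith)]
  simp

lemma coin_true (p : ℝ) : coin p {true} = ENNReal.ofReal p := by
  unfold coin
  rw [Measure.add_apply, Measure.smul_apply, Measure.smul_apply]
  simp

/-- The probabilities. -/
noncomputable def pm (θ : ℝ) (m : ℕ) : ℝ := if m = 0 then 0 else (m : ℝ) ^ (-θ) / 2

lemma pm_bound {θ : ℝ} (hθ0 : 0 ≤ θ) (m : ℕ) : 0 ≤ pm θ m ∧ pm θ m ≤ 1 / 2 := by
  unfold pm
  split_ifs with h
  · norm_num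
  · have h1 : (1 : ℝ) ≤ m := by exact_mod_cast Nat.one_le_iff_ne_zero.2 h
    have h2 : (m : ℝ) ^ (-θ) ≤ 1 := Real.rpow_le_one_of_one_le_of_nonpos h1 (by linarith)
    have h3 : 0 ≤ (m : ℝ) ^ (-θ) := by positivity
    constructor <;> linarith

/-- Random sets of the required kind exist, and they are sparse. -/
theorem exists_sparse {Q : Set ℕ → Prop} {θ : ℝ} (hθ0 : 0 ≤ θ) (hθ1 : θ < 1)
    (hQ : ∀ (Ω : Type) (_ : MeasurableSpace Ω) (P : Measure Ω) (_ : IsProbabilityMeasure P)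
      (D : Ω → Set ℕ), (∀ m, MeasurableSet {ω | m ∈ D ω}) →
      iIndepSet (fun m => {ω | m ∈ D ω}) P →
      (∀ m : ℕ, 1 ≤ m → (m : ℝ) ^ (-θ) / 2 ≤ P.real {ω | m ∈ D ω} ∧
        P.real {ω | m ∈ D ω} ≤ 1 / 2) → ∀ᵐ ω ∂P, Q (D ω)) {s : ℝ} (hs : 1 - θ < s) :
    ∃ D : Set ℕ, Q D ∧ ∃ C : ℝ, ∀ N : ℕ,
      (Nat.card {m : ℕ // m ∈ D ∧ 1 ≤ m ∧ m ≤ N} : ℝ) ≤ C * (N : ℝ) ^ s := by
  classical
  have : ∀ m, IsProbabilityMeasure (coin (pm θ m)) := fun m =>
    coin_prob (pm_bound hθ0 m).1 (by linarith [(pm_bound hθ0 m).2])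
  set P : Measure (ℕ → Bool) := Measure.infinitePi fun m => coin (pm θ m) with hP
  set D : (ℕ → Bool) → Set ℕ := fun ω => {m | ω m = true} with hD
  have hpre : ∀ m, {ω | m ∈ D ω} = (fun ω : ℕ → Bool => ω m) ⁻¹' {true} := fun m => by
    ext ω; simp [hD]
  have hm : ∀ m, MeasurableSet {ω | m ∈ D ω} := fun m => by
    rw [hpre m]
    exact (measurable_pi_apply m) (measurableSet_singleton true)
  have hbox : ∀ S : Finset ℕ, P (⋂ m ∈ S, {ω | m ∈ D ω}) = ∏ m ∈ S, ENNReal.ofReal (pm θ m) := by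
    intro S
    have h1 : (⋂ m ∈ S, {ω | m ∈ D ω}) = Set.pi (S : Set ℕ) fun _ => ({true} : Set Bool) := by
      ext ω; simp [hD, Set.mem_pi]
    rw [h1, hP, Measure.infinitePi_pi]
    · exact prod_congr rfl fun m _ => coin_true _
    · exact fun m _ => measurableSet_singleton true
  have hone : ∀ m, P {ω | m ∈ D ω} = ENNReal.ofReal (pm θ m) := fun m => by
    have := hbox {m}
    simpa using this
  have hi : iIndepSet (fun m => {ω | m ∈ D ω}) P := by
    rw [iIndepSet_iff_meas_biInter hm]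
    intro S
    rw [hbox S]
    exact prod_congr rfl fun m _ => (hone m).symm
  have hreal : ∀ m, P.real {ω | m ∈ D ω} = pm θ m := fun m => by
    rw [Measure.real, hone m, ENNReal.toReal_ofReal (pm_bound hθ0 m).1]
  have hae := hQ (ℕ → Bool) _ P inferInstance D hm hi fun m hm1 => by
    rw [hreal m]
    refine ⟨le_of_eq ?_, (pm_bound hθ0 m).2⟩
    unfold pm
    rw [if_neg (by omega)]
  -- sparsity
  set g : (ℕ → Bool) → ℝ≥0∞ := fun ω =>
    ∑' m : ℕ, Set.indicator {ω | m ∈ D ω} (fun _ => ENNReal.ofReal (((m : ℝ) + 0) ^ (-s))) ω with hg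
  have hgint : ∫⁻ ω, g ω ∂P < ∞ := by
    rw [hg, lintegral_tsum]
    · have h1 : ∀ m : ℕ, ∫⁻ ω, Set.indicator {ω | m ∈ D ω}
          (fun _ => ENNReal.ofReal (((m : ℝ) + 0) ^ (-s))) ω ∂P ≤
          ENNReal.ofReal ((m : ℝ) ^ (-(s + θ))) := by
        intro m
        rw [lintegral_indicator_const (hm m), hone m,
          ← ENNReal.ofReal_mul (by positivity)]
        refine ENNReal.ofReal_le_ofReal ?_
        unfold pm
        rw [add_zero]
        split_ifs with h
        · rw [mul_zero]; positivity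
        · have h1 : (0 : ℝ) < m := by exact_mod_cast Nat.pos_of_ne_zero h
          have h2 : (m : ℝ) ^ (-(s + θ)) = (m : ℝ) ^ (-s) * (m : ℝ) ^ (-θ) := by
            rw [← Real.rpow_add h1]; congr 1; ring
          rw [h2]
          have h3 : 0 ≤ (m : ℝ) ^ (-s) * (m : ℝ) ^ (-θ) := by positivity
          linarith
      refine lt_of_le_of_lt (ENNReal.tsum_le_tsum h1) ?_
      have h2 : Summable fun m : ℕ => (m : ℝ) ^ (-(s + θ)) :=
        Real.summable_nat_rpow.2 (by linarith)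
      exact lt_top_iff_ne_top.2 h2.tsum_ofReal_ne_top
    · intro m
      exact (measurable_const.indicator (hm m)).aemeasurable
  have hgm : Measurable g := Measurable.ennreal_tsum fun m => measurable_const.indicator (hm m)
  have hfin : ∀ᵐ ω ∂P, g ω < ∞ := ae_lt_top hgm hgint.ne
  obtain ⟨ω, hω1, hω2⟩ := (hae.and hfin).exists
  refine ⟨D ω, hω1, (g ω).toReal, fun N => ?_⟩
  rcases Nat.eq_zero_or_pos N with rfl | hN
  · have : IsEmpty {m : ℕ // m ∈ D ω ∧ 1 ≤ m ∧ m ≤ 0} := ⟨fun x => by have := x.2.2; omega⟩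
    rw [Nat.card_of_isEmpty, Nat.cast_zero]
    positivity
  · have hN0 : (0 : ℝ) < N := by exact_mod_cast hN
    set F : Finset ℕ := (Icc 1 N).filter (· ∈ D ω) with hF
    have hcard : Nat.card {m : ℕ // m ∈ D ω ∧ 1 ≤ m ∧ m ≤ N} = F.card := by
      refine Nat.subtype_card F fun m => ?_
      rw [hF, mem_filter, mem_Icc]
      exact ⟨fun h => ⟨h.2, h.1⟩, fun h => ⟨h.2, h.1⟩⟩
    have h1 : ∑ m ∈ F, ENNReal.ofReal ((N : ℝ) ^ (-s)) ≤ g ω := by
      refine le_trans (sum_le_sum fun m hm' => ?_) (ENNReal.sum_le_tsum F)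
      rw [hF, mem_filter, mem_Icc] at hm'
      rw [Set.indicator_of_mem (show ω ∈ {ω | m ∈ D ω} from hm'.2), add_zero]
      refine ENNReal.ofReal_le_ofReal ?_
      exact Real.rpow_le_rpow_of_nonpos (by exact_mod_cast hm'.1.1) (by exact_mod_cast hm'.1.2)
        (by linarith)
    rw [sum_const, nsmul_eq_mul] at h1
    have h2 := ENNReal.toReal_mono hω2.ne h1
    rw [ENNReal.toReal_mul, ENNReal.toReal_natCast, ENNReal.toReal_ofReal (by positivity)] at h2
    rw [hcard]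
    have h3 : (N : ℝ) ^ (-s) * (N : ℝ) ^ s = 1 := by
      rw [← Real.rpow_add hN0]; simp
    calc (F.card : ℝ) = (F.card * (N : ℝ) ^ (-s)) * (N : ℝ) ^ s := by rw [mul_assoc, h3, mul_one]
      _ ≤ _ := mul_le_mul_of_nonneg_right h2 (by positivity)

end Pool.Agent.X149.PP
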