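import Mathlib

set_option autoImplicit false

namespace Pool.Agent.X149.PP

open Finset

/-- Parity sequences depending on a set of deleted parts. -/
structure Good (b : Set ℕ → ℕ → ZMod 2) : Prop where
  zero : ∀ D, b D 0 = 1
  ins : ∀ (D : Set ℕ) (m n : ℕ), 0 < m → m ∉ D → n < 2 * m →
    b (insert m D) n = b D n + if m ≤ n then b D (n - m) else 0

/-- Sums of shifts. -/
def shift (b : Set ℕ → ℕ → ZMod 2) (T : Finset ℕ) (D : Set ℕ) (n : ℕ) : ZMod 2 :=
  ∑ s ∈ T, if s ≤ n then b D (n - s) else 0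

lemma Good.shift {b : Set ℕ → ℕ → ZMod 2} (hb : Good b) {T : Finset ℕ} (hT : 0 ∈ T) :
    Good (shift b T) := by
  constructor
  · intro D
    unfold PP.shift
    rw [sum_eq_single_of_mem 0 hT]
    · simp [hb.zero]
    · intro s _ hs
      rw [if_neg (by omega)]
  · intro D m n hm hmD hn
    unfold PP.shift
    have h1 : (if m ≤ n then ∑ s ∈ T, (if s ≤ n - m then b D (n - m - s) else 0) else 0) =
        ∑ s ∈ T, (if m ≤ n then (if s ≤ n - m then b D (n - m - s) else 0) else 0) := by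
      split_ifs with h
      · rfl
      · simp
    rw [h1, ← sum_add_distrib]
    refine sum_congr rfl fun s _ => ?_
    by_cases h : s ≤ n
    · rw [if_pos h, if_pos h, hb.ins D m (n - s) hm hmD (by omega)]
      congr 1
      by_cases h2 : m ≤ n - s
      · rw [if_pos h2, if_pos (by omega), if_pos (by omega)]
        congr 1
        omega
      · rw [if_neg h2]
        by_cases h3 : m ≤ n
        · rw [if_pos h3, if_neg (by omega)]
        · rw [if_neg h3]
    · rw [if_neg h, if_neg h, zero_add]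
      by_cases h3 : m ≤ n
      · rw [if_pos h3, if_neg (by omega)]
      · rw [if_neg h3]

lemma Good.ins_gt {b : Set ℕ → ℕ → ZMod 2} (hb : Good b) {D : Set ℕ} {m n : ℕ} (h : n < m) :
    b (insert m D) n = b D n := by
  by_cases hm : m ∈ D
  · rw [Set.insert_eq_of_mem hm]
  · rw [hb.ins D m n (by omega) hm (by omega), if_neg (by omega), add_zero]

/-- The sign of a parity. -/
def sg (x : ZMod 2) : ℝ := if x = 0 then 1 else -1

lemma sg_add (x y : ZMod 2) : sg (x + y) = sg x * sg y := by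
  have h1 : (1 : ZMod 2) ≠ 0 := by decide
  have h2 : (1 : ZMod 2) + 1 = 0 := by decide
  have hx : x = 0 ∨ x = 1 := by revert x; decide
  have hy : y = 0 ∨ y = 1 := by revert y; decide
  unfold sg
  rcases hx with rfl | rfl <;> rcases hy with rfl | rfl <;> simp [h1, h2]

lemma sg_abs (x : ZMod 2) : |sg x| = 1 := by
  unfold sg; split_ifs <;> simp

/-- Weighted sums over subsets. -/
noncomputable def E (δ : ℕ → ℝ) (A : Finset ℕ) (φ : Finset ℕ → ℝ) : ℝ :=
  ∑ S ∈ A.powerset, (∏ m ∈ S, δ m) * (∏ m ∈ A \ S, (1 - δ m)) * φ S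

lemma E_insert (δ : ℕ → ℝ) {A : Finset ℕ} {a : ℕ} (ha : a ∉ A) (φ : Finset ℕ → ℝ) :
    E δ (insert a A) φ = (1 - δ a) * E δ A φ + δ a * E δ A (fun S => φ (insert a S)) := by
  unfold E
  rw [sum_powerset_insert ha, mul_sum, mul_sum]
  congr 1
  · refine sum_congr rfl fun S hS => ?_
    have haS : a ∉ S := fun h => ha (mem_powerset.1 hS h)
    rw [insert_sdiff_of_notMem _ haS, prod_insert (by
      rw [mem_sdiff]; exact fun h => ha h.1)]
    ring
  · refine sum_congr rfl fun S hS => ?_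
    have haS : a ∉ S := fun h => ha (mem_powerset.1 hS h)
    have h1 : insert a A \ insert a S = A \ S := by
      ext x
      simp only [mem_sdiff, mem_insert, not_or]
      constructor
      · rintro ⟨h1 | h1, h2, h3⟩
        · exact absurd h1 h2
        · exact ⟨h1, h3⟩
      · rintro ⟨h1, h2⟩
        refine ⟨Or.inr h1, fun h => ha (h ▸ h1), h2⟩
    rw [h1, prod_insert haS]
    ring

lemma E_congr (δ : ℕ → ℝ) {A : Finset ℕ} {φ ψ : Finset ℕ → ℝ} (h : ∀ S ⊆ A, φ S = ψ S) :
    E δ A φ = E δ A ψ := by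
  unfold E
  exact sum_congr rfl fun S hS => by rw [h S (mem_powerset.1 hS)]

lemma E_mono {δ : ℕ → ℝ} {A : Finset ℕ} (hδ : ∀ m ∈ A, 0 ≤ δ m ∧ δ m ≤ 1)
    {φ ψ : Finset ℕ → ℝ} (h : ∀ S ⊆ A, φ S ≤ ψ S) : E δ A φ ≤ E δ A ψ := by
  unfold E
  refine sum_le_sum fun S hS => ?_
  have hS' := mem_powerset.1 hS
  refine mul_le_mul_of_nonneg_left (h S hS') ?_
  refine mul_nonneg (prod_nonneg fun m hm => (hδ m (hS' hm)).1) (prod_nonneg fun m hm => ?_)
  have := (hδ m (mem_sdiff.1 hm).1).2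
  linarith

lemma E_abs {δ : ℕ → ℝ} {A : Finset ℕ} (hδ : ∀ m ∈ A, 0 ≤ δ m ∧ δ m ≤ 1)
    {φ ψ : Finset ℕ → ℝ} (h : ∀ S ⊆ A, |φ S| ≤ ψ S) : |E δ A φ| ≤ E δ A ψ := by
  rw [abs_le]
  constructor
  · have h1 := E_mono hδ (φ := fun S => - ψ S) (ψ := φ) fun S hS => by
      have := (abs_le.1 (h S hS)).1; linarith
    have h2 : E δ A (fun S => - ψ S) = - E δ A ψ := by
      unfold E
      rw [← sum_neg_distrib]
      exact sum_congr rfl fun S _ => by ring
    linarith
  · exact E_mono hδ fun S hS => (abs_le.1 (h S hS)).2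

lemma E_const_mul (δ : ℕ → ℝ) (A : Finset ℕ) (c : ℝ) (φ : Finset ℕ → ℝ) :
    E δ A (fun S => c * φ S) = c * E δ A φ := by
  unfold E
  rw [mul_sum]
  exact sum_congr rfl fun S _ => by ring

/-- A weighted sum does not see the elements on which the function does not depend. -/
lemma E_union_inv (δ : ℕ → ℝ) {A V : Finset ℕ} (hAV : Disjoint A V) {φ : Finset ℕ → ℝ}
    (h : ∀ m ∈ V, ∀ S, φ (insert m S) = φ S) : E δ (A ∪ V) φ = E δ A φ := by
  induction V using Finset.induction_on with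
  | empty => simp
  | insert a V ha ih =>
    rw [disjoint_insert_right] at hAV
    have h1 : a ∉ A ∪ V := by
      rw [mem_union, not_or]; exact ⟨hAV.1, ha⟩
    rw [union_insert, E_insert δ h1]
    have h2 : E δ (A ∪ V) (fun S => φ (insert a S)) = E δ (A ∪ V) φ :=
      E_congr δ fun S _ => h a (mem_insert_self _ _) S
    rw [h2, ih hAV.2 fun m hm => h m (mem_insert_of_mem hm)]
    ring

/-- The indicator that the parity is odd, as a real number. -/
def od (x : ZMod 2) : ℝ := if x = 0 then 0 else 1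

lemma sg_eq (x : ZMod 2) (d : ℝ) : 1 - d + d * sg x = 1 - 2 * d * od x := by
  unfold sg od; split_ifs <;> ring

lemma bias_aux {b : Set ℕ → ℕ → ZMod 2} (hb : Good b) (δ : ℕ → ℝ) {k n : ℕ} (hn : n < 2 * (k + 1))
    (V : Finset ℕ) (hV : ∀ m ∈ V, k < m ∧ m ≤ n) :
    ∀ ψ : Finset ℕ → ℝ, (∀ m, k < m → ∀ S, ψ (insert m S) = ψ S) →
    E δ (Icc 1 k ∪ V) (fun S => sg (b (S : Set ℕ) n) * ψ S) =
      E δ (Icc 1 k) (fun S => sg (b (S : Set ℕ) n) * (ψ S *
        ∏ m ∈ V, (1 - 2 * δ m * od (b (S : Set ℕ) (n - m))))) := by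
  induction V using Finset.induction_on with
  | empty =>
    intro ψ _
    simp
  | insert a V ha ih =>
    intro ψ hψ
    have haV := hV a (mem_insert_self _ _)
    have h1 : a ∉ Icc 1 k ∪ V := by
      rw [mem_union, not_or, mem_Icc]
      exact ⟨fun h => by omega, ha⟩
    rw [union_insert, E_insert δ h1]
    have h2 : E δ (Icc 1 k ∪ V) (fun S => sg (b ((insert a S : Finset ℕ) : Set ℕ) n) *
        ψ (insert a S)) = E δ (Icc 1 k ∪ V) (fun S => sg (b (S : Set ℕ) n) *
          (ψ S * sg (b (S : Set ℕ) (n - a)))) := by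
      refine E_congr δ fun S hS => ?_
      have haS : a ∉ (S : Set ℕ) := fun h => h1 (hS h)
      rw [coe_insert, hb.ins (S : Set ℕ) a n (by omega) haS (by omega), if_pos haV.2, sg_add,
        hψ a haV.1]
      ring
    rw [h2, ← E_const_mul, ← E_const_mul]
    have h3 : (E δ (Icc 1 k ∪ V) fun S => (1 - δ a) * (sg (b (S : Set ℕ) n) * ψ S)) +
        (E δ (Icc 1 k ∪ V) fun S => δ a * (sg (b (S : Set ℕ) n) *
          (ψ S * sg (b (S : Set ℕ) (n - a))))) =
        E δ (Icc 1 k ∪ V) fun S => sg (b (S : Set ℕ) n) *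
          (ψ S * (1 - 2 * δ a * od (b (S : Set ℕ) (n - a)))) := by
      unfold E
      rw [← sum_add_distrib]
      refine sum_congr rfl fun S _ => ?_
      beta_reduce
      rw [← sg_eq]
      ring
    rw [h3, ih (fun m hm => hV m (mem_insert_of_mem hm))]
    · refine E_congr δ fun S _ => ?_
      rw [prod_insert ha]
      ring
    · intro m hm S
      rw [hψ m hm, coe_insert, hb.ins_gt (by omega)]

/-- The number of odd terms among the first `l + 1`. -/
def cnt (b : Set ℕ → ℕ → ZMod 2) (l : ℕ) (S : Finset ℕ) : ℕ :=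
  ((range (l + 1)).filter fun j => b (S : Set ℕ) j ≠ 0).card

lemma growth {b : Set ℕ → ℕ → ZMod 2} (hb : Good b) {δ : ℕ → ℝ} {d r : ℝ} (hr0 : 0 ≤ r)
    (hr1 : r ≤ 1) (hd : 0 ≤ d) (l : ℕ) (hδ : ∀ m ∈ Icc 1 l, d ≤ δ m ∧ δ m ≤ 1 / 2) :
    E δ (Icc 1 l) (fun S => r ^ cnt b l S) ≤ (1 - d * (1 - r)) ^ l := by
  induction l with
  | zero =>
    simp only [pow_zero]
    have : Icc 1 0 = (∅ : Finset ℕ) := by simp
    rw [this]
    unfold E
    simp only [powerset_empty, sum_singleton, prod_empty, one_mul]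
    rw [show (∅ : Finset ℕ) \ ∅ = ∅ by simp, prod_empty, one_mul]
    exact pow_le_one₀ hr0 hr1
  | succ l ih =>
    have hi : Icc 1 (l + 1) = insert (l + 1) (Icc 1 l) := by
      ext x; simp only [mem_Icc, mem_insert]; omega
    have hnot : l + 1 ∉ Icc 1 l := by rw [mem_Icc]; omega
    have hδ' : ∀ m ∈ Icc 1 l, d ≤ δ m ∧ δ m ≤ 1 / 2 := fun m hm => hδ m (by
      rw [mem_Icc] at hm ⊢; omega)
    have hδl := hδ (l + 1) (by rw [mem_Icc]; omega)
    rw [hi, E_insert δ hnot, ← E_const_mul, ← E_const_mul]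
    have hcnt : ∀ S : Finset ℕ, cnt b (l + 1) S = cnt b l S + if b (S : Set ℕ) (l + 1) ≠ 0 then 1 else 0 := by
      intro S
      unfold cnt
      rw [range_add_one (n := l + 1), filter_insert]
      split_ifs with h
      · rw [card_insert_of_notMem (by simp)]
      · simp
    have hcnt2 : ∀ S ⊆ Icc 1 l, cnt b (l + 1) (insert (l + 1) S) =
        cnt b l S + if b (S : Set ℕ) (l + 1) ≠ 0 then 0 else 1 := by
      intro S hS
      rw [hcnt]
      have h1 : cnt b l (insert (l + 1) S) = cnt b l S := by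
        unfold cnt
        congr 1
        refine filter_congr fun j hj => ?_
        rw [mem_range] at hj
        rw [coe_insert, hb.ins_gt (by omega)]
      have h2 : b ((insert (l + 1) S : Finset ℕ) : Set ℕ) (l + 1) = b (S : Set ℕ) (l + 1) + 1 := by
        rw [coe_insert, hb.ins (S : Set ℕ) (l + 1) (l + 1) (by omega)
          (fun h => hnot (hS h)) (by omega), if_pos le_rfl, Nat.sub_self, hb.zero]
      rw [h1, h2]
      congr 1
      generalize b (S : Set ℕ) (l + 1) = x
      revert x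
      decide
    have hle : (E δ (Icc 1 l) fun S => (1 - δ (l + 1)) * r ^ cnt b (l + 1) S) +
        (E δ (Icc 1 l) fun S => δ (l + 1) * r ^ cnt b (l + 1) (insert (l + 1) S)) ≤
        E δ (Icc 1 l) fun S => (1 - d * (1 - r)) * r ^ cnt b l S := by
      have e1 : (E δ (Icc 1 l) fun S => (1 - δ (l + 1)) * r ^ cnt b (l + 1) S) +
        (E δ (Icc 1 l) fun S => δ (l + 1) * r ^ cnt b (l + 1) (insert (l + 1) S)) =
        E δ (Icc 1 l) fun S => (1 - δ (l + 1)) * r ^ cnt b (l + 1) S +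
          δ (l + 1) * r ^ cnt b (l + 1) (insert (l + 1) S) := by
        unfold E
        rw [← sum_add_distrib]
        exact sum_congr rfl fun S _ => by ring
      rw [e1]
      refine E_mono (fun m hm => ⟨by linarith [(hδ' m hm).1], by linarith [(hδ' m hm).2]⟩)
        fun S hS => ?_
      rw [hcnt2 S hS, hcnt S]
      have hp : 0 ≤ r ^ cnt b l S := pow_nonneg hr0 _
      by_cases h : b (S : Set ℕ) (l + 1) ≠ 0
      · rw [if_pos h, if_pos h, add_zero, pow_succ]
        have h3 : (1 - δ (l + 1)) * r + δ (l + 1) ≤ 1 - d * (1 - r) := by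
          nlinarith [hδl.1, hδl.2]
        calc (1 - δ (l + 1)) * (r ^ cnt b l S * r) + δ (l + 1) * r ^ cnt b l S
            = ((1 - δ (l + 1)) * r + δ (l + 1)) * r ^ cnt b l S := by ring
          _ ≤ _ := mul_le_mul_of_nonneg_right h3 hp
      · rw [if_neg h, if_neg h, add_zero, pow_succ]
        have h3 : (1 - δ (l + 1)) + δ (l + 1) * r ≤ 1 - d * (1 - r) := by
          nlinarith [hδl.1, hδl.2]
        calc (1 - δ (l + 1)) * r ^ cnt b l S + δ (l + 1) * (r ^ cnt b l S * r)
            = ((1 - δ (l + 1)) + δ (l + 1) * r) * r ^ cnt b l S := by ring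
          _ ≤ _ := mul_le_mul_of_nonneg_right h3 hp
    refine hle.trans ?_
    rw [E_const_mul, pow_succ, mul_comm]
    refine mul_le_mul_of_nonneg_right (ih hδ') ?_
    nlinarith [hδl.1, hδl.2]

/-- The bias of one term. -/
theorem bias {b : Set ℕ → ℕ → ZMod 2} (hb : Good b) {δ : ℕ → ℝ} {d : ℝ} (hd : 0 ≤ d) (n : ℕ)
    (hn : 1 ≤ n) (hδ : ∀ m ∈ Icc 1 n, d ≤ δ m ∧ δ m ≤ 1 / 2) :
    |E δ (Icc 1 n) (fun S => sg (b (S : Set ℕ) n))| ≤ (1 - 2 * d ^ 2) ^ (n - n / 2 - 1) := by
  set k := n / 2 with hk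
  set l := n - k - 1 with hl
  have hd2 : d ≤ 1 / 2 := by
    have := hδ 1 (by rw [mem_Icc]; omega)
    linarith
  have hdis : Disjoint (Icc 1 k) (Ioc k n) := by
    rw [disjoint_left]; intro x; simp only [mem_Icc, mem_Ioc]; omega
  have hun : Icc 1 n = Icc 1 k ∪ Ioc k n := by
    ext x; simp only [mem_Icc, mem_union, mem_Ioc]; omega
  have hδk : ∀ m ∈ Icc 1 k, 0 ≤ δ m ∧ δ m ≤ 1 := fun m hm => by
    have := hδ m (by rw [mem_Icc] at hm ⊢; omega)
    exact ⟨by linarith, by linarith⟩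
  have h1 := bias_aux hb δ (k := k) (n := n) (by omega) (Ioc k n) (fun m hm => mem_Ioc.1 hm)
    (fun _ => 1) (fun _ _ _ => rfl)
  simp only [mul_one, one_mul] at h1
  rw [hun, h1]
  have hr0 : (0 : ℝ) ≤ 1 - 2 * d := by linarith
  have hr1 : 1 - 2 * d ≤ 1 := by linarith
  have h2 : ∀ S ⊆ Icc 1 k, |sg (b (S : Set ℕ) n) *
      ∏ m ∈ Ioc k n, (1 - 2 * δ m * od (b (S : Set ℕ) (n - m)))| ≤ (1 - 2 * d) ^ cnt b l S := by
    intro S _
    rw [abs_mul, sg_abs, one_mul, abs_prod]
    have h3 : ∏ m ∈ Ioc k n, |1 - 2 * δ m * od (b (S : Set ℕ) (n - m))| ≤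
        ∏ m ∈ Ioc k n, (if b (S : Set ℕ) (n - m) ≠ 0 then 1 - 2 * d else 1) := by
      refine prod_le_prod (fun m _ => abs_nonneg _) fun m hm => ?_
      have hm' := hδ m (by rw [mem_Ioc] at hm; rw [mem_Icc]; omega)
      unfold od
      by_cases h : b (S : Set ℕ) (n - m) = 0
      · simp [h]
      · rw [if_neg h, if_pos h, mul_one, abs_of_nonneg (by linarith)]
        linarith
    refine h3.trans ?_
    rw [prod_ite, prod_const, prod_const_one, mul_one]
    refine le_of_eq ?_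
    congr 1
    unfold cnt
    refine card_nbij' (fun m => n - m) (fun j => n - j) ?_ ?_ ?_ ?_
    · intro m hm
      simp only [coe_filter, mem_Ioc, Set.mem_ofPred_eq, mem_range] at hm ⊢
      exact ⟨by omega, hm.2⟩
    · intro j hj
      simp only [coe_filter, mem_Ioc, Set.mem_ofPred_eq, mem_range] at hj ⊢
      refine ⟨by omega, ?_⟩
      rw [show n - (n - j) = j by omega]
      exact hj.2
    · intro m hm
      simp only [coe_filter, mem_Ioc, Set.mem_ofPred_eq] at hm
      beta_reduce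
      omega
    · intro j hj
      simp only [coe_filter, mem_range, Set.mem_ofPred_eq] at hj
      beta_reduce
      omega
  refine (E_abs hδk h2).trans ?_
  have hun2 : Icc 1 k = Icc 1 l ∪ Ioc l k := by
    ext x; simp only [mem_Icc, mem_union, mem_Ioc]; omega
  have hdis2 : Disjoint (Icc 1 l) (Ioc l k) := by
    rw [disjoint_left]; intro x; simp only [mem_Icc, mem_Ioc]; omega
  rw [hun2, E_union_inv δ hdis2]
  · have h4 := growth hb (δ := δ) hr0 hr1 hd l fun m hm => hδ m (by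
      rw [mem_Icc] at hm ⊢; omega)
    refine h4.trans (le_of_eq ?_)
    congr 1
    ring
  · intro m hm S
    congr 1
    unfold cnt
    congr 1
    refine filter_congr fun j hj => ?_
    rw [mem_range] at hj
    rw [mem_Ioc] at hm
    rw [coe_insert, hb.ins_gt (by omega)]

end Pool.Agent.X149.PP
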