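import Mathlib
import Pool.Agent.X149.PP.Alg

set_option autoImplicit false

namespace Pool.Agent.X149.PP

open Finset MeasureTheory ProbabilityTheory Filter
open scoped ENNReal

/-- The `n`-th term depends only on the deleted parts up to `n`. -/
def Dep (b : Set ℕ → ℕ → ZMod 2) : Prop :=
  ∀ (D D' : Set ℕ) (n : ℕ), (∀ m, 1 ≤ m → m ≤ n → (m ∈ D ↔ m ∈ D')) → b D n = b D' n

lemma Dep.shift {b : Set ℕ → ℕ → ZMod 2} (hb : Dep b) (T : Finset ℕ) : Dep (shift b T) := by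
  intro D D' n h
  unfold PP.shift
  refine sum_congr rfl fun s _ => ?_
  split_ifs with hs
  · exact hb D D' (n - s) fun m h1 h2 => h m h1 (by omega)
  · rfl

variable {Ω : Type*} [MeasurableSpace Ω] {P : Measure Ω} [IsProbabilityMeasure P]

open Classical in
/-- The deleted parts up to `N`. -/
noncomputable def tr (D : Ω → Set ℕ) (N : ℕ) (ω : Ω) : Finset ℕ := (Icc 1 N).filter (· ∈ D ω)

omit [MeasurableSpace Ω] in
lemma mem_tr {D : Ω → Set ℕ} {N : ℕ} {ω : Ω} {m : ℕ} :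
    m ∈ tr D N ω ↔ m ∈ Icc 1 N ∧ m ∈ D ω := by
  classical
  unfold tr
  rw [mem_filter]

omit [MeasurableSpace Ω] in
lemma tr_sub (D : Ω → Set ℕ) (N : ℕ) (ω : Ω) : tr D N ω ⊆ Icc 1 N := fun _ h => (mem_tr.1 h).1

section cyl

variable {D : Ω → Set ℕ} (hDm : ∀ m, MeasurableSet {ω | m ∈ D ω})
  (hDi : iIndepSet (fun m => {ω | m ∈ D ω}) P)

include hDm

lemma tr_set (N : ℕ) {S : Finset ℕ} (hS : S ⊆ Icc 1 N) :
    {ω | tr D N ω = S} = ⋂ m ∈ Icc 1 N, (if m ∈ S then {ω | m ∈ D ω} else {ω | m ∈ D ω}ᶜ) := by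
  ext ω
  simp only [Set.mem_ofPred_eq, Set.mem_iInter]
  constructor
  · intro h m hm
    split_ifs with hmS
    · rw [← h, mem_tr] at hmS
      exact hmS.2
    · intro hmD
      apply hmS
      rw [← h, mem_tr]
      exact ⟨hm, hmD⟩
  · intro h
    ext m
    rw [mem_tr]
    constructor
    · rintro ⟨h1, h2⟩
      by_contra hmS
      have := h m h1
      rw [if_neg hmS] at this
      exact this h2
    · intro hmS
      refine ⟨hS hmS, ?_⟩
      have := h m (hS hmS)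
      rw [if_pos hmS] at this
      exact this

lemma tr_meas (N : ℕ) {S : Finset ℕ} (hS : S ⊆ Icc 1 N) : MeasurableSet {ω | tr D N ω = S} := by
  rw [tr_set hDm N hS]
  refine Finset.measurableSet_biInter _ fun m _ => ?_
  split_ifs
  · exact hDm m
  · exact (hDm m).compl

include hDi

lemma tr_prob (N : ℕ) {S : Finset ℕ} (hS : S ⊆ Icc 1 N) :
    P.real {ω | tr D N ω = S} =
      (∏ m ∈ S, P.real {ω | m ∈ D ω}) * ∏ m ∈ Icc 1 N \ S, (1 - P.real {ω | m ∈ D ω}) := by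
  have hf := (hDi.iIndepFun_indicator (β := ℝ) (m := Real.measurableSpace))
  have h1 := hf.measure_inter_preimage_eq_mul (Icc 1 N)
    (sets := fun m => if m ∈ S then {(1 : ℝ)} else {0}) (fun m _ => by
      split_ifs <;> exact measurableSet_singleton _)
  have hpre : ∀ m, (({ω | m ∈ D ω} : Set Ω).indicator fun _ => (1 : ℝ)) ⁻¹'
      (if m ∈ S then {(1 : ℝ)} else {0}) =
      (if m ∈ S then {ω | m ∈ D ω} else {ω | m ∈ D ω}ᶜ) := by
    intro m
    split_ifs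
    · ext ω
      simp only [Set.mem_preimage, Set.mem_singleton_iff, Set.indicator]
      by_cases h : m ∈ D ω <;> simp [h]
    · ext ω
      simp only [Set.mem_preimage, Set.mem_singleton_iff, Set.indicator]
      by_cases h : m ∈ D ω <;> simp [h]
  simp only [hpre] at h1
  rw [tr_set hDm N hS, Measure.real, h1, ENNReal.toReal_prod]
  have h2 : ∀ m, (P (if m ∈ S then {ω | m ∈ D ω} else {ω | m ∈ D ω}ᶜ)).toReal =
      if m ∈ S then P.real {ω | m ∈ D ω} else 1 - P.real {ω | m ∈ D ω} := by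
    intro m
    split_ifs
    · rfl
    · exact probReal_compl_eq_one_sub (hDm m)
  rw [prod_congr rfl fun m _ => h2 m, prod_ite]
  have h3 : (Icc 1 N).filter (fun m => m ∈ S) = S := by
    ext m; rw [mem_filter]; exact ⟨fun h => h.2, fun h => ⟨hS h, h⟩⟩
  have h4 : (Icc 1 N).filter (fun m => m ∉ S) = Icc 1 N \ S := by
    ext m; rw [mem_filter, Finset.mem_sdiff]
  rw [h3, h4]

lemma integral_tr (N : ℕ) (φ : Finset ℕ → ℝ) :
    ∫ ω, φ (tr D N ω) ∂P = E (fun m => P.real {ω | m ∈ D ω}) (Icc 1 N) φ := by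
  have h1 : (fun ω => φ (tr D N ω)) = fun ω => ∑ S ∈ (Icc 1 N).powerset,
      Set.indicator {ω | tr D N ω = S} (fun _ => φ S) ω := by
    funext ω
    have hmem : tr D N ω ∈ (Icc 1 N).powerset := by
      rw [mem_powerset]; exact tr_sub _ _ _
    rw [sum_eq_single_of_mem _ hmem]
    · rw [Set.indicator_of_mem (by simp)]
    · intro S _ hne
      rw [Set.indicator_of_notMem]
      simp only [Set.mem_ofPred_eq]
      exact fun h => hne h.symm
  rw [h1, integral_finsetSum]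
  · unfold E
    refine sum_congr rfl fun S hS => ?_
    rw [integral_indicator_const _ (tr_meas hDm N (mem_powerset.1 hS)),
      tr_prob hDm hDi N (mem_powerset.1 hS), smul_eq_mul]
  · intro S hS
    exact (integrable_const _).indicator (tr_meas hDm N (mem_powerset.1 hS))

lemma integral_sg {b : Set ℕ → ℕ → ZMod 2} (hdep : Dep b) (n : ℕ) :
    ∫ ω, sg (b (D ω) n) ∂P =
      E (fun m => P.real {ω | m ∈ D ω}) (Icc 1 n) (fun S => sg (b (S : Set ℕ) n)) := by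
  rw [← integral_tr hDm hDi n (fun S => sg (b (S : Set ℕ) n))]
  refine integral_congr_ae (Eventually.of_forall fun ω => ?_)
  beta_reduce
  congr 1
  refine hdep _ _ n fun m h1 h2 => ?_
  rw [Finset.mem_coe, mem_tr, mem_Icc]
  exact ⟨fun h => ⟨⟨h1, h2⟩, h⟩, fun h => h.2⟩

end cyl

section meas

variable {D : Ω → Set ℕ} (hDm : ∀ m, MeasurableSet {ω | m ∈ D ω})

include hDm

lemma sg_meas {b : Set ℕ → ℕ → ZMod 2} (hdep : Dep b) (n : ℕ) :
    Measurable fun ω => sg (b (D ω) n) := by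
  have h1 : (fun ω => sg (b (D ω) n)) = fun ω => ∑ S ∈ (Icc 1 n).powerset,
      Set.indicator {ω | tr D n ω = S} (fun _ => sg (b (S : Set ℕ) n)) ω := by
    funext ω
    have hmem : tr D n ω ∈ (Icc 1 n).powerset := by
      rw [mem_powerset]; exact tr_sub _ _ _
    rw [sum_eq_single_of_mem _ hmem]
    · rw [Set.indicator_of_mem (by simp)]
      congr 1
      refine hdep _ _ n fun m h1 h2 => ?_
      rw [Finset.mem_coe, mem_tr, mem_Icc]
      exact ⟨fun h => ⟨⟨h1, h2⟩, h⟩, fun h => h.2⟩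
    · intro S _ hne
      rw [Set.indicator_of_notMem]
      simp only [Set.mem_ofPred_eq]
      exact fun h => hne h.symm
  rw [h1]
  refine Finset.measurable_fun_sum _ fun S hS => ?_
  exact measurable_const.indicator (tr_meas hDm n (mem_powerset.1 hS))

end meas

/-- The decay of the bias. -/
lemma decay {θ : ℝ} (hθ0 : 0 ≤ θ) (hθ : θ < 1 / 2) : ∃ C : ℝ, 0 < C ∧ ∀ n : ℕ, 1 ≤ n →
    (n : ℝ) * (1 - 2 * ((n : ℝ) ^ (-θ) / 2) ^ 2) ^ (n - n / 2 - 1) ≤ C := by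
  set c : ℝ := 1 - 2 * θ with hc
  have hc0 : 0 < c := by rw [hc]; linarith
  set j : ℕ := ⌈1 / c⌉₊ with hj
  have hjc : 1 ≤ c * j := by
    have := Nat.le_ceil (1 / c)
    rw [← hj, div_le_iff₀ hc0] at this
    linarith
  refine ⟨Real.exp 1 * (j.factorial * 4 ^ j), by positivity, fun n hn => ?_⟩
  have hn' : (1 : ℝ) ≤ n := by exact_mod_cast hn
  have hn0 : (0 : ℝ) < n := by linarith
  set a : ℝ := (n : ℝ) ^ (-θ) with ha
  have ha0 : 0 < a := by positivity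
  have ha1 : a ≤ 1 := Real.rpow_le_one_of_one_le_of_nonpos hn' (by linarith)
  have hbase : 0 ≤ 1 - 2 * (a / 2) ^ 2 := by nlinarith
  have h1 : (1 - 2 * (a / 2) ^ 2) ^ (n - n / 2 - 1) ≤
      Real.exp (-(2 * (a / 2) ^ 2) * ((n - n / 2 - 1 : ℕ) : ℝ)) := by
    have h2 : 1 - 2 * (a / 2) ^ 2 ≤ Real.exp (-(2 * (a / 2) ^ 2)) := by
      have := Real.add_one_le_exp (-(2 * (a / 2) ^ 2))
      linarith
    calc (1 - 2 * (a / 2) ^ 2) ^ (n - n / 2 - 1) ≤
        (Real.exp (-(2 * (a / 2) ^ 2))) ^ (n - n / 2 - 1) := pow_le_pow_left₀ hbase h2 _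
      _ = _ := by rw [← Real.exp_nat_mul]; congr 1; ring
  have h3 : ((n : ℝ) - 2) / 2 ≤ ((n - n / 2 - 1 : ℕ) : ℝ) := by
    have h4 : n ≤ 2 * (n - n / 2 - 1) + 2 := by omega
    have h5 : (n : ℝ) ≤ 2 * ((n - n / 2 - 1 : ℕ) : ℝ) + 2 := by exact_mod_cast h4
    linarith
  have ha2 : a ^ 2 * n = (n : ℝ) ^ c := by
    rw [ha, ← Real.rpow_natCast, ← Real.rpow_mul hn0.le, hc]
    nth_rw 2 [← Real.rpow_one (n : ℝ)]
    rw [← Real.rpow_add hn0]
    congr 1
    push_cast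
    ring
  have h6 : (n : ℝ) ^ c / 4 - 1 ≤ 2 * (a / 2) ^ 2 * ((n - n / 2 - 1 : ℕ) : ℝ) := by
    have h7 : 2 * (a / 2) ^ 2 * (((n : ℝ) - 2) / 2) ≤
        2 * (a / 2) ^ 2 * ((n - n / 2 - 1 : ℕ) : ℝ) := mul_le_mul_of_nonneg_left h3 (by positivity)
    have h8 : 2 * (a / 2) ^ 2 * (((n : ℝ) - 2) / 2) = (a ^ 2 * n) / 4 - a ^ 2 / 2 := by ring
    rw [h8, ha2] at h7
    have h9 : a ^ 2 ≤ 1 := pow_le_one₀ ha0.le ha1
    linarith
  have h10 : (1 - 2 * (a / 2) ^ 2) ^ (n - n / 2 - 1) ≤ Real.exp 1 * Real.exp (-((n : ℝ) ^ c / 4)) := by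
    refine h1.trans ?_
    rw [← Real.exp_add]
    refine Real.exp_le_exp.2 ?_
    linarith
  have hx0 : 0 < (n : ℝ) ^ c / 4 := by positivity
  have h11 := Real.pow_div_factorial_le_exp ((n : ℝ) ^ c / 4) hx0.le j
  have h12 : (n : ℝ) ≤ ((n : ℝ) ^ c) ^ j := by
    rw [← Real.rpow_natCast, ← Real.rpow_mul hn0.le]
    calc (n : ℝ) = (n : ℝ) ^ (1 : ℝ) := (Real.rpow_one _).symm
      _ ≤ _ := Real.rpow_le_rpow_of_exponent_le hn' hjc
  have h13 : (n : ℝ) * Real.exp (-((n : ℝ) ^ c / 4)) ≤ j.factorial * 4 ^ j := by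
    rw [Real.exp_neg, ← div_eq_mul_inv, div_le_iff₀ (Real.exp_pos _)]
    have h14 : ((n : ℝ) ^ c / 4) ^ j ≤ Real.exp ((n : ℝ) ^ c / 4) * j.factorial := by
      rwa [div_le_iff₀ (by positivity)] at h11
    rw [div_pow, div_le_iff₀ (by positivity)] at h14
    nlinarith
  calc (n : ℝ) * (1 - 2 * (a / 2) ^ 2) ^ (n - n / 2 - 1)
      ≤ (n : ℝ) * (Real.exp 1 * Real.exp (-((n : ℝ) ^ c / 4))) :=
        mul_le_mul_of_nonneg_left h10 hn0.le
    _ = Real.exp 1 * ((n : ℝ) * Real.exp (-((n : ℝ) ^ c / 4))) := by ring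
    _ ≤ _ := mul_le_mul_of_nonneg_left h13 (Real.exp_pos _).le

section main

variable {D : Ω → Set ℕ} (hDm : ∀ m, MeasurableSet {ω | m ∈ D ω})
  (hDi : iIndepSet (fun m => {ω | m ∈ D ω}) P) {θ : ℝ} (hθ0 : 0 ≤ θ) (hθ : θ < 1 / 2)
  (hδ : ∀ m : ℕ, 1 ≤ m → (m : ℝ) ^ (-θ) / 2 ≤ P.real {ω | m ∈ D ω} ∧
    P.real {ω | m ∈ D ω} ≤ 1 / 2)

include hDm hDi hθ0 hδ in
lemma one_bias {b : Set ℕ → ℕ → ZMod 2} (hb : Good b) (hdep : Dep b) (n : ℕ) (hn : 1 ≤ n) :
    |∫ ω, sg (b (D ω) n) ∂P| ≤ (1 - 2 * ((n : ℝ) ^ (-θ) / 2) ^ 2) ^ (n - n / 2 - 1) := by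
  rw [integral_sg hDm hDi hdep n]
  refine bias hb (by positivity) n hn fun m hm => ?_
  rw [mem_Icc] at hm
  have h1 := hδ m hm.1
  refine ⟨le_trans ?_ h1.1, h1.2⟩
  have h2 : (n : ℝ) ^ (-θ) ≤ (m : ℝ) ^ (-θ) :=
    Real.rpow_le_rpow_of_nonpos (by exact_mod_cast hm.1) (by exact_mod_cast hm.2) (by linarith)
  linarith

/-- The sum of the signs. -/
noncomputable def SS (b : Set ℕ → ℕ → ZMod 2) (D : Ω → Set ℕ) (ν : ℕ → ℕ) (K : ℕ) (ω : Ω) : ℝ :=
  ∑ k ∈ range K, sg (b (D ω) (ν k))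

lemma SS_succ (b : Set ℕ → ℕ → ZMod 2) (D : Ω → Set ℕ) (ν : ℕ → ℕ) (K : ℕ) (ω : Ω) :
    SS b D ν (K + 1) ω = SS b D ν K ω + sg (b (D ω) (ν K)) := by
  unfold SS; rw [sum_range_succ]

lemma SS_abs (b : Set ℕ → ℕ → ZMod 2) (D : Ω → Set ℕ) (ν : ℕ → ℕ) (K : ℕ) (ω : Ω) :
    |SS b D ν K ω| ≤ K := by
  unfold SS
  refine (abs_sum_le_sum_abs _ _).trans ?_
  simp [sg_abs]

lemma SS_diff (b : Set ℕ → ℕ → ZMod 2) (D : Ω → Set ℕ) (ν : ℕ → ℕ) (K L : ℕ) (ω : Ω) :
    |SS b D ν (K + L) ω| ≤ |SS b D ν K ω| + L := by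
  induction L with
  | zero => simp
  | succ L ih =>
    rw [← add_assoc, SS_succ]
    push_cast
    have := sg_abs (b (D ω) (ν (K + L)))
    have h2 := abs_add_le (SS b D ν (K + L) ω) (sg (b (D ω) (ν (K + L))))
    linarith

include hDm hDi hθ0 hθ hδ in
lemma meansq {b : Set ℕ → ℕ → ZMod 2} (hb : Good b) (hdep : Dep b) {ν : ℕ → ℕ}
    (hν : StrictMono ν) : ∃ C : ℝ, 0 < C ∧ ∀ K : ℕ, ∫ ω, SS b D ν K ω ^ 2 ∂P ≤ C * K := by
  obtain ⟨C, hC, hdec⟩ := decay hθ0 hθ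
  refine ⟨1 + 2 * C, by positivity, fun K => ?_⟩
  have hsm : ∀ n, Measurable fun ω => sg (b (D ω) n) := fun n => sg_meas hDm hdep n
  have hSm : ∀ K, Measurable fun ω => SS b D ν K ω := fun K => by
    unfold SS; exact Finset.measurable_fun_sum _ fun k _ => hsm _
  induction K with
  | zero =>
    simp [SS]
  | succ K ih =>
    have h1 : ∀ ω, SS b D ν (K + 1) ω ^ 2 = SS b D ν K ω ^ 2 +
        2 * (∑ k ∈ range K, sg (b (D ω) (ν k)) * sg (b (D ω) (ν K))) + 1 := by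
      intro ω
      rw [SS_succ]
      have h2 : sg (b (D ω) (ν K)) ^ 2 = 1 := by
        rw [← sq_abs, sg_abs]; norm_num
      rw [← sum_mul]
      change (SS b D ν K ω + _) ^ 2 = _ + 2 * (SS b D ν K ω * _) + 1
      nlinarith
    have hi1 : Integrable (fun ω => SS b D ν K ω ^ 2) P := by
      refine Integrable.of_bound ((hSm K).pow_const 2).aestronglyMeasurable ((K : ℝ) ^ 2)
        (Eventually.of_forall fun ω => ?_)
      rw [Real.norm_eq_abs, abs_pow]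
      exact pow_le_pow_left₀ (abs_nonneg _) (SS_abs _ _ _ _ _) 2
    have hi2 : ∀ k, Integrable (fun ω => sg (b (D ω) (ν k)) * sg (b (D ω) (ν K))) P := by
      intro k
      refine Integrable.of_bound ((hsm _).mul (hsm _)).aestronglyMeasurable 1
        (Eventually.of_forall fun ω => ?_)
      rw [Real.norm_eq_abs, abs_mul, sg_abs, sg_abs, one_mul]
    have hpair : ∀ k ∈ range K, ∫ ω, sg (b (D ω) (ν k)) * sg (b (D ω) (ν K)) ∂P ≤
        (1 - 2 * ((ν K : ℝ) ^ (-θ) / 2) ^ 2) ^ (ν K - ν K / 2 - 1) := by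
      intro k hk
      rw [mem_range] at hk
      have hlt := hν hk
      have hg := hb.shift (T := {0, ν K - ν k}) (by simp)
      have hd := hdep.shift {0, ν K - ν k}
      have h3 : ∀ ω, sg (b (D ω) (ν k)) * sg (b (D ω) (ν K)) =
          sg (shift b {0, ν K - ν k} (D ω) (ν K)) := by
        intro ω
        unfold shift
        rw [sum_pair (by omega), if_pos (by omega), if_pos (by omega), sg_add, Nat.sub_zero,
          show ν K - (ν K - ν k) = ν k by omega, mul_comm]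
      simp only [h3]
      exact (le_abs_self _).trans (one_bias hDm hDi hθ0 hδ hg hd (ν K) (by omega))
    simp only [h1]
    rw [integral_add _ (integrable_const _), integral_add hi1 _, integral_const_mul,
      integral_finsetSum _ fun k _ => hi2 k]
    · have h4 : ∑ k ∈ range K, ∫ ω, sg (b (D ω) (ν k)) * sg (b (D ω) (ν K)) ∂P ≤ C := by
        refine (sum_le_sum hpair).trans ?_
        rw [sum_const, card_range, nsmul_eq_mul]
        rcases Nat.eq_zero_or_pos K with h | h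
        · subst h
          simp only [Nat.cast_zero, zero_mul]
          exact hC.le
        · have hK : K ≤ ν K := hν.id_le K
          have h5 := hdec (ν K) (by omega)
          have h6 : (K : ℝ) ≤ (ν K : ℝ) := by exact_mod_cast hK
          have h7 : 0 ≤ (1 - 2 * ((ν K : ℝ) ^ (-θ) / 2) ^ 2) ^ (ν K - ν K / 2 - 1) := by
            have hn1 : (1 : ℝ) ≤ ν K := by
              have : 1 ≤ ν K := by omega
              exact_mod_cast this
            have ha1 : (ν K : ℝ) ^ (-θ) ≤ 1 :=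
              Real.rpow_le_one_of_one_le_of_nonpos hn1 (by linarith)
            have ha0 : 0 ≤ (ν K : ℝ) ^ (-θ) := by positivity
            refine pow_nonneg ?_ _
            nlinarith
          exact (mul_le_mul_of_nonneg_right h6 h7).trans h5
      simp only [integral_const, probReal_univ, smul_eq_mul, one_mul]
      push_cast
      nlinarith
    · exact (integrable_finsetSum _ fun k _ => hi2 k).const_mul 2
    · exact hi1.add ((integrable_finsetSum _ fun k _ => hi2 k).const_mul 2)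

include hDm hDi hθ0 hθ hδ in
theorem almost_sure {b : Set ℕ → ℕ → ZMod 2} (hb : Good b) (hdep : Dep b) {ν : ℕ → ℕ}
    (hν : StrictMono ν) : ∀ᵐ ω ∂P, ∃ C : ℝ, ∀ K : ℕ,
      |SS b D ν K ω| ≤ C * ((K : ℝ) + 1) ^ (4 / 5 : ℝ) := by
  obtain ⟨C, hC, hms⟩ := meansq hDm hDi hθ0 hθ hδ hb hdep hν
  have hsm : ∀ n, Measurable fun ω => sg (b (D ω) n) := fun n => sg_meas hDm hdep n
  have hSm : ∀ K, Measurable fun ω => SS b D ν K ω := fun K => by
    unfold SS; exact Finset.measurable_fun_sum _ fun k _ => hsm _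
  have hi1 : ∀ K, Integrable (fun ω => SS b D ν K ω ^ 2) P := by
    intro K
    refine Integrable.of_bound ((hSm K).pow_const 2).aestronglyMeasurable ((K : ℝ) ^ 2)
      (Eventually.of_forall fun ω => ?_)
    rw [Real.norm_eq_abs, abs_pow]
    exact pow_le_pow_left₀ (abs_nonneg _) (SS_abs _ _ _ _ _) 2
  set s : ℕ → Set Ω := fun k => {ω | ((k : ℝ) + 1) ^ (16 / 5 : ℝ) ≤ SS b D ν (k ^ 2) ω ^ 2} with hs
  have hprob : ∀ k, P (s k) ≤ ENNReal.ofReal (C * ((k : ℝ) + 1) ^ (-(6 / 5) : ℝ)) := by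
    intro k
    have hk0 : (0 : ℝ) < (k : ℝ) + 1 := by positivity
    have h1 := mul_meas_ge_le_integral_of_nonneg (μ := P)
      (f := fun ω => SS b D ν (k ^ 2) ω ^ 2) (Eventually.of_forall fun ω => sq_nonneg _)
      (hi1 (k ^ 2)) (((k : ℝ) + 1) ^ (16 / 5 : ℝ))
    have h2 := hms (k ^ 2)
    have h3 : ((k : ℝ) + 1) ^ (16 / 5 : ℝ) * P.real (s k) ≤ C * ((k ^ 2 : ℕ) : ℝ) := h1.trans h2
    have h4 : C * ((k ^ 2 : ℕ) : ℝ) ≤ C * ((k : ℝ) + 1) ^ (2 : ℝ) := by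
      refine mul_le_mul_of_nonneg_left ?_ hC.le
      push_cast
      rw [← Real.rpow_natCast]
      exact Real.rpow_le_rpow (by positivity) (by linarith) (by norm_num)
    have h5 : P.real (s k) ≤ C * ((k : ℝ) + 1) ^ (-(6 / 5) : ℝ) := by
      have h6 : ((k : ℝ) + 1) ^ (2 : ℝ) =
          ((k : ℝ) + 1) ^ (16 / 5 : ℝ) * ((k : ℝ) + 1) ^ (-(6 / 5) : ℝ) := by
        rw [← Real.rpow_add hk0]; norm_num
      rw [h6] at h4
      have h7 : 0 < ((k : ℝ) + 1) ^ (16 / 5 : ℝ) := by positivity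
      have h8 := h3.trans h4
      by_contra hcon
      push Not at hcon
      have h9 := mul_lt_mul_of_pos_left hcon h7
      nlinarith
    rw [← ENNReal.ofReal_toReal (measure_ne_top P (s k))]
    exact ENNReal.ofReal_le_ofReal h5
  have hsum : ∑' k, P (s k) ≠ ∞ := by
    have h1 : Summable fun k : ℕ => C * ((k : ℝ) + 1) ^ (-(6 / 5) : ℝ) := by
      refine Summable.mul_left C ?_
      have h2 : Summable fun k : ℕ => ((k : ℝ)) ^ (-(6 / 5) : ℝ) :=
        Real.summable_nat_rpow.2 (by norm_num)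
      have h3 := (summable_nat_add_iff 1).2 h2
      refine h3.congr fun k => ?_
      push_cast
      rfl
    have h2 : ∑' k, P (s k) ≤ ∑' k : ℕ, ENNReal.ofReal (C * ((k : ℝ) + 1) ^ (-(6 / 5) : ℝ)) :=
      ENNReal.tsum_le_tsum hprob
    refine ne_top_of_le_ne_top ?_ h2
    exact h1.tsum_ofReal_ne_top
  filter_upwards [ae_eventually_notMem hsum] with ω hω
  obtain ⟨k₀, hk₀⟩ := eventually_atTop.1 hω
  refine ⟨12 + (k₀ : ℝ) ^ 2, fun K => ?_⟩
  have hK1 : (1 : ℝ) ≤ ((K : ℝ) + 1) ^ (4 / 5 : ℝ) :=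
    Real.one_le_rpow (by linarith [(Nat.cast_nonneg K : (0 : ℝ) ≤ K)]) (by norm_num)
  rcases Nat.lt_or_ge K (k₀ ^ 2) with hK | hK
  · have h1 := SS_abs b D ν K ω
    have h2 : (K : ℝ) ≤ (k₀ : ℝ) ^ 2 := by exact_mod_cast hK.le
    nlinarith
  · set k := Nat.sqrt K with hk
    have hkk : k₀ ≤ k := Nat.le_sqrt'.2 hK
    have h1 : k ^ 2 ≤ K := Nat.sqrt_le' K
    have h2 : K < (k + 1) ^ 2 := Nat.lt_succ_sqrt' K
    obtain ⟨L, hL⟩ := Nat.exists_eq_add_of_le h1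
    have hLk : L ≤ 2 * k := by nlinarith
    have h3 := SS_diff b D ν (k ^ 2) L ω
    rw [← hL] at h3
    have h4 : SS b D ν (k ^ 2) ω ^ 2 < ((k : ℝ) + 1) ^ (16 / 5 : ℝ) := by
      have := hk₀ k hkk
      simp only [hs, Set.mem_ofPred_eq, not_le] at this
      exact this
    have hk0 : (0 : ℝ) < (k : ℝ) + 1 := by positivity
    have h5 : |SS b D ν (k ^ 2) ω| ≤ ((k : ℝ) + 1) ^ (8 / 5 : ℝ) := by
      refine abs_le_of_sq_le_sq ?_ (by positivity)
      refine h4.le.trans (le_of_eq ?_)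
      rw [← Real.rpow_natCast, ← Real.rpow_mul hk0.le]
      norm_num
    have h6 : (L : ℝ) ≤ 2 * ((k : ℝ) + 1) ^ (8 / 5 : ℝ) := by
      have h7 : (L : ℝ) ≤ 2 * (k : ℝ) := by exact_mod_cast hLk
      have h8 : (k : ℝ) + 1 ≤ ((k : ℝ) + 1) ^ (8 / 5 : ℝ) := by
        calc (k : ℝ) + 1 = ((k : ℝ) + 1) ^ (1 : ℝ) := (Real.rpow_one _).symm
          _ ≤ _ := Real.rpow_le_rpow_of_exponent_le
            (by linarith [(Nat.cast_nonneg k : (0 : ℝ) ≤ k)]) (by norm_num)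
      linarith
    have h9 : ((k : ℝ) + 1) ^ (8 / 5 : ℝ) ≤ 4 * ((K : ℝ) + 1) ^ (4 / 5 : ℝ) := by
      have h10 : ((k : ℝ) + 1) ^ (8 / 5 : ℝ) = (((k : ℝ) + 1) ^ 2) ^ (4 / 5 : ℝ) := by
        rw [← Real.rpow_natCast, ← Real.rpow_mul hk0.le]
        norm_num
      have h11 : ((k : ℝ) + 1) ^ 2 ≤ 4 * ((K : ℝ) + 1) := by
        have h12 : (k : ℝ) ^ 2 ≤ K := by exact_mod_cast h1
        nlinarith [sq_nonneg ((k : ℝ) - 1)]
      rw [h10]
      calc (((k : ℝ) + 1) ^ 2) ^ (4 / 5 : ℝ) ≤ (4 * ((K : ℝ) + 1)) ^ (4 / 5 : ℝ) :=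
            Real.rpow_le_rpow (by positivity) h11 (by norm_num)
        _ = 4 ^ (4 / 5 : ℝ) * ((K : ℝ) + 1) ^ (4 / 5 : ℝ) :=
            Real.mul_rpow (by norm_num) (by positivity)
        _ ≤ 4 * ((K : ℝ) + 1) ^ (4 / 5 : ℝ) := by
            refine mul_le_mul_of_nonneg_right ?_ (by positivity)
            calc (4 : ℝ) ^ (4 / 5 : ℝ) ≤ 4 ^ (1 : ℝ) :=
                  Real.rpow_le_rpow_of_exponent_le (by norm_num) (by norm_num)
              _ = 4 := Real.rpow_one _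
    have h12 : 0 ≤ (k₀ : ℝ) ^ 2 * ((K : ℝ) + 1) ^ (4 / 5 : ℝ) := by positivity
    nlinarith

end main

end Pool.Agent.X149.PP
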