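import Mathlib
import Pool.Agent.X149.PP.Prob

set_option autoImplicit false

namespace Pool.Agent.X149.PP

open Finset MeasureTheory ProbabilityTheory Filter
open scoped ENNReal

/-- The number of partitions of `n` with no part in `D`. -/
noncomputable def pD (D : Set ℕ) (n : ℕ) : ℕ := Nat.card {π : n.Partition // ∀ i ∈ π.parts, i ∉ D}

section part

open Classical

lemma pD_eq (D : Set ℕ) (n : ℕ) :
    pD D n = (univ.filter fun π : n.Partition => ∀ i ∈ π.parts, i ∉ D).card := by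
  unfold pD
  rw [Nat.card_eq_fintype_card, Fintype.card_subtype]

lemma pD_zero (D : Set ℕ) : pD D 0 = 1 := by
  rw [pD_eq]
  have : (univ.filter fun π : (0 : ℕ).Partition => ∀ i ∈ π.parts, i ∉ D) = univ := by
    ext π
    simp only [mem_filter, mem_univ, true_and, iff_true]
    intro i hi
    have h1 := π.parts_pos hi
    have h2 := Multiset.single_le_sum (fun x _ => Nat.zero_le x) i hi
    have h3 := π.parts_sum
    omega
  rw [this]
  simp

lemma part_le {n : ℕ} (π : n.Partition) {i : ℕ} (hi : i ∈ π.parts) : 1 ≤ i ∧ i ≤ n := by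
  have h1 := π.parts_pos hi
  have h2 := Multiset.single_le_sum (fun x _ => Nat.zero_le x) i hi
  have h3 := π.parts_sum
  omega

lemma pD_dep (D D' : Set ℕ) (n : ℕ) (h : ∀ m, 1 ≤ m → m ≤ n → (m ∈ D ↔ m ∈ D')) :
    pD D n = pD D' n := by
  rw [pD_eq, pD_eq]
  congr 1
  refine filter_congr fun π _ => ?_
  refine forall₂_congr fun i hi => ?_
  have := part_le π hi
  rw [h i this.1 this.2]

lemma pD_insert (D : Set ℕ) {m n : ℕ} (hm : 0 < m) (hmD : m ∉ D) (hmn : m ≤ n) :
    pD D n = pD (insert m D) n + pD D (n - m) := by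
  have h1 : pD D n = (univ.filter fun π : n.Partition => (∀ i ∈ π.parts, i ∉ D) ∧ m ∉ π.parts).card +
      (univ.filter fun π : n.Partition => (∀ i ∈ π.parts, i ∉ D) ∧ m ∈ π.parts).card := by
    rw [pD_eq, ← card_filter_add_card_filter_not (fun π : n.Partition => m ∉ π.parts),
      filter_filter, filter_filter]
    simp only [not_not]
  rw [h1]
  congr 1
  · rw [pD_eq]
    refine congrArg card ?_
    ext π
    simp only [mem_filter, mem_univ, true_and]
    constructor
    · rintro ⟨h2, h3⟩ i hi hiD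
      rcases hiD with rfl | hiD
      · exact h3 hi
      · exact h2 i hi hiD
    · intro h2
      exact ⟨fun i hi hiD => h2 i hi (Or.inr hiD), fun hm' => h2 m hm' (Or.inl rfl)⟩
  · rw [pD_eq]
    symm
    refine card_bij (fun (π : (n - m).Partition) _ => (⟨m ::ₘ π.parts, by
        intro i hi
        rcases Multiset.mem_cons.1 hi with rfl | hi
        · exact hm
        · exact π.parts_pos hi, by
        rw [Multiset.sum_cons, π.parts_sum]; omega⟩ : n.Partition)) ?_ ?_ ?_
    · intro π hπ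
      rw [mem_filter] at hπ ⊢
      refine ⟨mem_univ _, fun i hi => ?_, Multiset.mem_cons_self _ _⟩
      rcases Multiset.mem_cons.1 hi with rfl | hi
      · exact hmD
      · exact hπ.2 i hi
    · intro π _ π' _ h
      have h2 := congrArg Nat.Partition.parts h
      simp only at h2
      exact Nat.Partition.ext ((Multiset.cons_inj_right m).1 h2)
    · intro π hπ
      rw [mem_filter] at hπ
      refine ⟨⟨π.parts.erase m, fun hi => π.parts_pos (Multiset.mem_of_mem_erase hi), ?_⟩, ?_, ?_⟩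
      · have h2 := Multiset.sum_erase hπ.2.2
        have h3 := π.parts_sum
        omega
      · rw [mem_filter]
        exact ⟨mem_univ _, fun i hi => hπ.2.1 i (Multiset.mem_of_mem_erase hi)⟩
      · refine Nat.Partition.ext ?_
        exact Multiset.cons_erase hπ.2.2

end part

/-- The generating series. -/
noncomputable def G (R : Type) [CommSemiring R] (D : Set ℕ) : PowerSeries R :=
  PowerSeries.mk fun n => (pD D n : R)

lemma G_insert (D : Set ℕ) {m : ℕ} (hm : 0 < m) (hmD : m ∉ D) :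
    G (ZMod 2) (insert m D) = (1 + PowerSeries.X ^ m) * G (ZMod 2) D := by
  ext n
  rw [add_mul, one_mul, map_add, PowerSeries.coeff_X_pow_mul']
  unfold G
  simp only [PowerSeries.coeff_mk]
  split_ifs with h
  · have h1 := pD_insert D hm hmD h
    rw [h1]
    push_cast
    have h2 : (pD D (n - m) : ZMod 2) + (pD D (n - m) : ZMod 2) = 0 := CharTwo.add_self_eq_zero _
    rw [add_assoc, h2, add_zero]
  · rw [add_zero, pD_dep (insert m D) D n fun i _ hi => ?_]
    constructor
    · rintro (rfl | h3)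
      · omega
      · exact h3
    · exact fun h3 => Or.inr h3

/-- The parity of the number of `t`-tuples. -/
noncomputable def bt (t : ℕ) (D : Set ℕ) (n : ℕ) : ZMod 2 := PowerSeries.coeff n (G (ZMod 2) D ^ t)

lemma one_add_pow (t : ℕ) (y : PowerSeries (ZMod 2)) : ∃ R : PowerSeries (ZMod 2),
    (1 + y) ^ t = 1 + (t : PowerSeries (ZMod 2)) * y + y ^ 2 * R := by
  induction t with
  | zero => exact ⟨0, by simp⟩
  | succ t ih =>
    obtain ⟨R, hR⟩ := ih
    refine ⟨(t : PowerSeries (ZMod 2)) + R + R * y, ?_⟩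
    rw [pow_succ, hR]
    push_cast
    ring

lemma bt_good {t : ℕ} (ht : Odd t) : Good (bt t) := by
  constructor
  · intro D
    unfold bt
    rw [PowerSeries.coeff_zero_eq_constantCoeff, map_pow]
    have : PowerSeries.constantCoeff (G (ZMod 2) D) = 1 := by
      rw [← PowerSeries.coeff_zero_eq_constantCoeff_apply]
      unfold G
      rw [PowerSeries.coeff_mk, pD_zero]
      simp
    rw [this, one_pow]
  · intro D m n hm hmD hn
    unfold bt
    rw [G_insert D hm hmD, mul_pow]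
    obtain ⟨R, hR⟩ := one_add_pow t (PowerSeries.X ^ m : PowerSeries (ZMod 2))
    have ht1 : (t : PowerSeries (ZMod 2)) = 1 := by
      obtain ⟨s, rfl⟩ := ht
      push_cast
      have h2 : (2 : PowerSeries (ZMod 2)) = 0 := by
        rw [← map_ofNat (PowerSeries.C (R := ZMod 2)) 2, show (OfNat.ofNat 2 : ZMod 2) = 0 from rfl,
          map_zero]
      rw [h2]; ring
    rw [hR, ht1, one_mul, add_mul, add_mul, one_mul, map_add, map_add,
      PowerSeries.coeff_X_pow_mul', ← pow_mul, mul_assoc, PowerSeries.coeff_X_pow_mul',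
      if_neg (show ¬ m * 2 ≤ n by omega), add_zero]

lemma pow_dep (t : ℕ) {A B : PowerSeries (ZMod 2)} {n : ℕ}
    (h : ∀ k ≤ n, PowerSeries.coeff k A = PowerSeries.coeff k B) :
    ∀ k ≤ n, PowerSeries.coeff k (A ^ t) = PowerSeries.coeff k (B ^ t) := by
  induction t with
  | zero => intro k _; simp
  | succ t ih =>
    intro k hk
    rw [pow_succ, pow_succ, PowerSeries.coeff_mul, PowerSeries.coeff_mul]
    refine sum_congr rfl fun x hx => ?_
    rw [Finset.HasAntidiagonal.mem_antidiagonal] at hx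
    rw [ih x.1 (by omega), h x.2 (by omega)]

lemma bt_dep (t : ℕ) : Dep (bt t) := by
  intro D D' n h
  unfold bt
  refine pow_dep t (n := n) (fun k hk => ?_) n le_rfl
  unfold G
  rw [PowerSeries.coeff_mk, PowerSeries.coeff_mk, pD_dep D D' k fun m h1 h2 => h m h1 (by omega)]

/-- The number of `t`-tuples of partitions with no part in `D` and total size `n`. -/
noncomputable def pt (t : ℕ) (D : Set ℕ) (n : ℕ) : ℕ := PowerSeries.coeff n (G ℕ D ^ t)

lemma pt_cast (t : ℕ) (D : Set ℕ) (n : ℕ) : (pt t D n : ZMod 2) = bt t D n := by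
  unfold pt bt
  have h1 : G (ZMod 2) D = PowerSeries.map (Nat.castRingHom (ZMod 2)) (G ℕ D) := by
    ext k
    unfold G
    simp
  rw [h1, ← map_pow, PowerSeries.coeff_map]
  rfl

lemma pt_one (D : Set ℕ) (n : ℕ) : pt 1 D n = pD D n := by
  unfold pt G
  simp

/-- The sign of a natural number. -/
lemma sg_cast (a : ℕ) : sg (a : ZMod 2) = if Odd a then -1 else 1 := by
  unfold sg
  by_cases h : Odd a
  · rw [if_pos h, if_neg]
    rw [ZMod.natCast_eq_zero_iff_even]
    exact Nat.not_even_iff_odd.2 h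
  · rw [if_neg h, if_pos]
    rw [ZMod.natCast_eq_zero_iff_even]
    exact Nat.not_odd_iff_even.1 h

lemma sg_sum {ι : Type} (s : Finset ι) (f : ι → ZMod 2) : sg (∑ i ∈ s, f i) = ∏ i ∈ s, sg (f i) := by
  classical
  induction s using Finset.induction_on with
  | empty => simp [sg]
  | insert a s ha ih => rw [sum_insert ha, prod_insert ha, sg_add, ih]

/-- Products of signs at shifted positions. -/
lemma shift_eq (b : Set ℕ → ℕ → ZMod 2) {H : Finset ℕ} (hH : H.Nonempty) (D : Set ℕ) (n : ℕ) :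
    sg (shift b (H.image fun h => H.max' hH - h) D (n + H.max' hH)) =
      ∏ h ∈ H, sg (b D (n + h)) := by
  unfold shift
  rw [sum_image]
  · rw [sg_sum]
    refine prod_congr rfl fun h hh => ?_
    have h1 := H.le_max' h hh
    rw [if_pos (by omega)]
    congr 2
    omega
  · intro x hx y hy hxy
    have h1 := H.le_max' x hx
    have h2 := H.le_max' y hy
    simp only at hxy
    omega

section main

variable {Ω : Type*} [MeasurableSpace Ω] {P : Measure Ω} [IsProbabilityMeasure P]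
  {D : Ω → Set ℕ} (hDm : ∀ m, MeasurableSet {ω | m ∈ D ω})
  (hDi : iIndepSet (fun m => {ω | m ∈ D ω}) P) {θ : ℝ} (hθ0 : 0 ≤ θ) (hθ : θ < 1 / 2)
  (hδ : ∀ m : ℕ, 1 ≤ m → (m : ℝ) ^ (-θ) / 2 ≤ P.real {ω | m ∈ D ω} ∧
    P.real {ω | m ∈ D ω} ≤ 1 / 2)

include hDm hDi hθ0 hθ hδ in
/-- All products of signs at shifted positions cancel. -/
theorem products {b : Set ℕ → ℕ → ZMod 2} (hb : Good b) (hdep : Dep b) {ν : ℕ → ℕ}
    (hν : StrictMono ν) : ∀ᵐ ω ∂P, ∀ H : Finset ℕ, H.Nonempty → ∃ C : ℝ, ∀ K : ℕ,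
      |∑ k ∈ range K, ∏ h ∈ H, sg (b (D ω) (ν k + h))| ≤ C * ((K : ℝ) + 1) ^ (4 / 5 : ℝ) := by
  rw [ae_all_iff]
  intro H
  by_cases hH : H.Nonempty
  · have hg := hb.shift (T := H.image fun h => H.max' hH - h) (by
      rw [mem_image]
      exact ⟨H.max' hH, H.max'_mem hH, by omega⟩)
    have hd := hdep.shift (H.image fun h => H.max' hH - h)
    have hν' : StrictMono fun k => ν k + H.max' hH := fun i j hij => by
      have := hν hij
      simp only
      omega
    filter_upwards [almost_sure hDm hDi hθ0 hθ hδ hg hd hν'] with ω hω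
    intro _
    obtain ⟨C, hC⟩ := hω
    refine ⟨C, fun K => ?_⟩
    have h1 := hC K
    unfold SS at h1
    simp only [shift_eq b hH] at h1
    exact h1
  · exact Eventually.of_forall fun ω h => absurd h hH

/-- From products of signs to patterns. -/
lemma pattern {a : ℕ → ℕ} {ν : ℕ → ℕ} (h : ∀ H : Finset ℕ, H.Nonempty → ∃ C : ℝ, ∀ K : ℕ,
      |∑ k ∈ range K, ∏ h ∈ H, sg ((a (ν k + h) : ℕ) : ZMod 2)| ≤ C * ((K : ℝ) + 1) ^ (4 / 5 : ℝ))
    (H O : Finset ℕ) : ∃ C : ℝ, ∀ K : ℕ,
      |(((range K).filter fun k => ∀ h ∈ H, (Odd (a (ν k + h)) ↔ h ∈ O)).card : ℝ) -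
        K / 2 ^ H.card| ≤ C * ((K : ℝ) + 1) ^ (4 / 5 : ℝ) := by
  classical
  choose! C hC using h
  set s : ℕ → ℝ := fun h => if h ∈ O then -1 else 1 with hs
  have hcount : ∀ K : ℕ, (((range K).filter fun k => ∀ h ∈ H, (Odd (a (ν k + h)) ↔ h ∈ O)).card : ℝ) =
      (1 / 2 ^ H.card) * ∑ T ∈ H.powerset, (∏ h ∈ T, s h) *
        ∑ k ∈ range K, ∏ h ∈ T, sg ((a (ν k + h) : ℕ) : ZMod 2) := by
    intro K
    rw [card_filter, Nat.cast_sum]
    have h1 : ∀ k, (((if ∀ h ∈ H, (Odd (a (ν k + h)) ↔ h ∈ O) then 1 else 0 : ℕ)) : ℝ) =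
        ∏ h ∈ H, ((1 + s h * sg ((a (ν k + h) : ℕ) : ZMod 2)) / 2) := by
      intro k
      have h2 : ∀ h, (1 + s h * sg ((a (ν k + h) : ℕ) : ZMod 2)) / 2 =
          if (Odd (a (ν k + h)) ↔ h ∈ O) then 1 else 0 := by
        intro h
        rw [sg_cast]
        simp only [hs]
        by_cases h3 : h ∈ O <;> by_cases h4 : Odd (a (ν k + h)) <;> simp [h3, h4]
      simp only [h2]
      by_cases h3 : ∀ h ∈ H, (Odd (a (ν k + h)) ↔ h ∈ O)
      · rw [if_pos h3, prod_congr rfl fun h hh => if_pos (h3 h hh)]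
        simp
      · rw [if_neg h3]
        push Not at h3
        obtain ⟨h, hh, hne⟩ := h3
        symm
        rw [Nat.cast_zero]
        refine prod_eq_zero hh (if_neg ?_)
        intro hiff
        rcases hne with ⟨h5, h6⟩ | ⟨h5, h6⟩
        · exact h6 (hiff.1 h5)
        · exact h5 (hiff.2 h6)
    simp only [h1]
    have h2 : ∀ k, ∏ h ∈ H, ((1 + s h * sg ((a (ν k + h) : ℕ) : ZMod 2)) / 2) =
        (1 / 2 ^ H.card) * ∑ T ∈ H.powerset, (∏ h ∈ T, s h) *
          ∏ h ∈ T, sg ((a (ν k + h) : ℕ) : ZMod 2) := by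
      intro k
      rw [prod_div_distrib, prod_const, prod_one_add]
      simp only [prod_mul_distrib]
      ring
    simp only [h2]
    rw [← mul_sum, sum_comm]
    congr 1
    refine sum_congr rfl fun T _ => ?_
    rw [mul_sum]
  refine ⟨∑ T ∈ H.powerset, |C T|, fun K => ?_⟩
  rw [hcount K, ← sum_erase_add _ _ (empty_mem_powerset H)]
  simp only [prod_empty, sum_const, card_range, nsmul_eq_mul, mul_one, one_mul]
  have h1 : 1 / 2 ^ H.card * (∑ T ∈ H.powerset.erase ∅, (∏ h ∈ T, s h) *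
      ∑ k ∈ range K, ∏ h ∈ T, sg ((a (ν k + h) : ℕ) : ZMod 2) + K) - K / 2 ^ H.card =
      1 / 2 ^ H.card * ∑ T ∈ H.powerset.erase ∅, (∏ h ∈ T, s h) *
      ∑ k ∈ range K, ∏ h ∈ T, sg ((a (ν k + h) : ℕ) : ZMod 2) := by ring
  rw [h1, abs_mul]
  have h2 : |(1 : ℝ) / 2 ^ H.card| ≤ 1 := by
    rw [abs_of_nonneg (by positivity), div_le_one (by positivity)]
    exact one_le_pow₀ (by norm_num)
  have h3 : |∑ T ∈ H.powerset.erase ∅, (∏ h ∈ T, s h) *
      ∑ k ∈ range K, ∏ h ∈ T, sg ((a (ν k + h) : ℕ) : ZMod 2)| ≤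
      (∑ T ∈ H.powerset, |C T|) * ((K : ℝ) + 1) ^ (4 / 5 : ℝ) := by
    refine (abs_sum_le_sum_abs _ _).trans ?_
    rw [sum_mul]
    refine (sum_le_sum fun T hT => ?_).trans
      (sum_le_sum_of_subset_of_nonneg (erase_subset _ _) fun T _ _ => by positivity)
    rw [mem_erase] at hT
    rw [abs_mul, abs_prod]
    have h4 : ∏ h ∈ T, |s h| = 1 := prod_eq_one fun h _ => by
      simp only [hs]; split_ifs <;> simp
    rw [h4, one_mul]
    refine (hC T (nonempty_iff_ne_empty.2 hT.1) K).trans ?_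
    exact mul_le_mul_of_nonneg_right (le_abs_self _) (by positivity)
  calc |(1 : ℝ) / 2 ^ H.card| * |∑ T ∈ H.powerset.erase ∅, (∏ h ∈ T, s h) *
      ∑ k ∈ range K, ∏ h ∈ T, sg ((a (ν k + h) : ℕ) : ZMod 2)|
      ≤ 1 * ((∑ T ∈ H.powerset, |C T|) * ((K : ℝ) + 1) ^ (4 / 5 : ℝ)) :=
        mul_le_mul h2 h3 (abs_nonneg _) (by norm_num)
    _ = _ := one_mul _

include hDm hDi hθ0 hθ hδ in
theorem main_t {ν : ℕ → ℕ} (hν : StrictMono ν) : ∀ᵐ ω ∂P, ∀ t : ℕ, Odd t →
    ∀ H O : Finset ℕ, ∃ C : ℝ, ∀ K : ℕ,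
      |(((range K).filter fun k => ∀ h ∈ H, (Odd (pt t (D ω) (ν k + h)) ↔ h ∈ O)).card : ℝ) -
        K / 2 ^ H.card| ≤ C * ((K : ℝ) + 1) ^ (4 / 5 : ℝ) := by
  rw [ae_all_iff]
  intro t
  by_cases ht : Odd t
  · filter_upwards [products hDm hDi hθ0 hθ hδ (bt_good ht) (bt_dep t) hν] with ω hω
    intro _ H O
    refine pattern (a := fun n => pt t (D ω) n) (fun H hH => ?_) H O
    obtain ⟨C, hC⟩ := hω H hH
    refine ⟨C, fun K => ?_⟩
    simp only [pt_cast]
    exact hC K
  · exact Eventually.of_forall fun ω h => absurd h ht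

end main

end Pool.Agent.X149.PP
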