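import Mathlib
import Pool.Agent.X149.PP.Part

set_option autoImplicit false

namespace Pool.Agent.X149.PP

open Finset MeasureTheory ProbabilityTheory Filter
open scoped ENNReal

open Classical in
/-- The product of `1 - q^m` over the elements `m ≤ N` of `D`. -/
noncomputable def pr (R : Type) [CommRing R] (D : Set ℕ) (N : ℕ) : PowerSeries R :=
  ∏ m ∈ (Icc 1 N).filter (· ∈ D), (1 - PowerSeries.X ^ m)

/-- The coefficient of `q^n` in `f` times the product of `1 - q^m` over the elements of `D`. -/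
noncomputable def cf (R : Type) [CommRing R] (f : PowerSeries R) (D : Set ℕ) (n : ℕ) : R :=
  PowerSeries.coeff n (f * pr R D n)

lemma prod_tail {R : Type} [CommRing R] {n : ℕ} (V : Finset ℕ) (hV : ∀ m ∈ V, n < m) :
    ∃ S : PowerSeries R, ∏ m ∈ V, (1 - PowerSeries.X ^ m) = 1 + PowerSeries.X ^ (n + 1) * S := by
  classical
  induction V using Finset.induction_on with
  | empty => exact ⟨0, by simp⟩
  | insert a V ha ih =>
    obtain ⟨S, hS⟩ := ih fun m hm => hV m (mem_insert_of_mem hm)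
    have h1 := hV a (mem_insert_self _ _)
    obtain ⟨c, rfl⟩ := Nat.exists_eq_add_of_le (show n + 1 ≤ a by omega)
    refine ⟨S - PowerSeries.X ^ c * (1 + PowerSeries.X ^ (n + 1) * S), ?_⟩
    rw [prod_insert ha, hS, pow_add]
    ring

lemma cf_stable {R : Type} [CommRing R] (f : PowerSeries R) (D : Set ℕ) {n N : ℕ} (h : n ≤ N) :
    PowerSeries.coeff n (f * pr R D N) = cf R f D n := by
  classical
  unfold cf pr
  have h1 : (Icc 1 N).filter (· ∈ D) = (Icc 1 n).filter (· ∈ D) ∪ (Ioc n N).filter (· ∈ D) := by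
    rw [← filter_union]
    congr 1
    ext x; simp only [mem_Icc, mem_union, mem_Ioc]; omega
  have h2 : Disjoint ((Icc 1 n).filter (· ∈ D)) ((Ioc n N).filter (· ∈ D)) := by
    rw [disjoint_left]
    intro x
    simp only [mem_filter, mem_Icc, mem_Ioc]
    omega
  obtain ⟨S, hS⟩ := prod_tail (R := R) (n := n) ((Ioc n N).filter (· ∈ D)) fun m hm =>
    (mem_Ioc.1 (mem_filter.1 hm).1).1
  rw [h1, prod_union h2, hS]
  have h3 : ∀ A : PowerSeries R, f * (A * (1 + PowerSeries.X ^ (n + 1) * S)) =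
      f * A + PowerSeries.X ^ (n + 1) * (f * A * S) := fun A => by ring
  rw [h3, map_add, PowerSeries.coeff_X_pow_mul', if_neg (by omega), add_zero]

lemma cf_good {f : PowerSeries (ZMod 2)} (hf : PowerSeries.coeff 0 f = 1) :
    Good (cf (ZMod 2) f) := by
  classical
  constructor
  · intro D
    unfold cf pr
    have : (Icc 1 0 : Finset ℕ) = ∅ := by simp
    rw [this, filter_empty, prod_empty, mul_one, hf]
  · intro D m n hm hmD _
    by_cases hmn : m ≤ n
    · rw [if_pos hmn]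
      have h1 : (Icc 1 n).filter (· ∈ insert m D) = insert m ((Icc 1 n).filter (· ∈ D)) := by
        ext x
        simp only [mem_filter, mem_insert, Set.mem_insert_iff, mem_Icc]
        constructor
        · rintro ⟨h1, rfl | h2⟩
          · exact Or.inl rfl
          · exact Or.inr ⟨h1, h2⟩
        · rintro (rfl | ⟨h1, h2⟩)
          · exact ⟨⟨hm, hmn⟩, Or.inl rfl⟩
          · exact ⟨h1, Or.inr h2⟩
      have h2 : m ∉ (Icc 1 n).filter (· ∈ D) := by
        rw [mem_filter]; exact fun h => hmD h.2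
      have h3 : pr (ZMod 2) (insert m D) n = (1 - PowerSeries.X ^ m) * pr (ZMod 2) D n := by
        have h5 := prod_insert (f := fun i => (1 - PowerSeries.X ^ i : PowerSeries (ZMod 2))) h2
        rw [← h1] at h5
        unfold pr
        convert h5
      unfold cf
      rw [h3]
      have h4 : f * ((1 - PowerSeries.X ^ m) * pr (ZMod 2) D n) =
          f * pr (ZMod 2) D n - PowerSeries.X ^ m * (f * pr (ZMod 2) D n) := by ring
      rw [h4, map_sub, PowerSeries.coeff_X_pow_mul', if_pos hmn, cf_stable f D (Nat.sub_le n m),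
        CharTwo.sub_eq_add]
      rfl
    · rw [if_neg hmn, add_zero]
      unfold cf pr
      congr 2
      refine prod_congr ?_ fun _ _ => rfl
      ext x
      simp only [mem_filter, Set.mem_insert_iff, mem_Icc]
      constructor
      · rintro ⟨h1, rfl | h2⟩
        · omega
        · exact ⟨h1, h2⟩
      · rintro ⟨h1, h2⟩
        exact ⟨h1, Or.inr h2⟩

lemma cf_dep (f : PowerSeries (ZMod 2)) : Dep (cf (ZMod 2) f) := by
  classical
  intro D D' n h
  unfold cf pr
  congr 2
  refine prod_congr ?_ fun _ _ => rfl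
  refine filter_congr fun m hm => ?_
  rw [mem_Icc] at hm
  exact h m hm.1 hm.2

lemma cf_cast (f : PowerSeries ℤ) (D : Set ℕ) (n : ℕ) :
    ((cf ℤ f D n : ℤ) : ZMod 2) = cf (ZMod 2) (PowerSeries.map (Int.castRingHom (ZMod 2)) f) D n := by
  unfold cf
  have h1 : pr (ZMod 2) D n = PowerSeries.map (Int.castRingHom (ZMod 2)) (pr ℤ D n) := by
    unfold pr
    rw [map_prod]
    refine prod_congr rfl fun m _ => ?_
    rw [map_sub, map_one, map_pow, PowerSeries.map_X]
  rw [h1, ← map_mul, PowerSeries.coeff_map]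
  rfl

section main

variable {Ω : Type*} [MeasurableSpace Ω] {P : Measure Ω} [IsProbabilityMeasure P]
  {D : Ω → Set ℕ} (hDm : ∀ m, MeasurableSet {ω | m ∈ D ω})
  (hDi : iIndepSet (fun m => {ω | m ∈ D ω}) P) {θ : ℝ} (hθ0 : 0 ≤ θ) (hθ : θ < 1 / 2)
  (hδ : ∀ m : ℕ, 1 ≤ m → (m : ℝ) ^ (-θ) / 2 ≤ P.real {ω | m ∈ D ω} ∧
    P.real {ω | m ∈ D ω} ≤ 1 / 2)

include hDm hDi hθ0 hθ hδ in
theorem main_f {f : PowerSeries ℤ} (hf : Odd (PowerSeries.coeff 0 f)) {ν : ℕ → ℕ}
    (hν : StrictMono ν) : ∀ᵐ ω ∂P, ∀ H O : Finset ℕ, ∃ C : ℝ, ∀ K : ℕ,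
      |(((range K).filter fun k => ∀ h ∈ H, (Odd (cf ℤ f (D ω) (ν k + h)) ↔ h ∈ O)).card : ℝ) -
        K / 2 ^ H.card| ≤ C * ((K : ℝ) + 1) ^ (4 / 5 : ℝ) := by
  classical
  have hf' : PowerSeries.coeff 0 (PowerSeries.map (Int.castRingHom (ZMod 2)) f) = 1 := by
    rw [PowerSeries.coeff_map]
    obtain ⟨c, hc⟩ := hf
    rw [hc]
    simp only [eq_intCast]
    push_cast
    have h2 : (2 : ZMod 2) = 0 := rfl
    rw [h2]; ring
  filter_upwards [products hDm hDi hθ0 hθ hδ (cf_good hf') (cf_dep _) hν] with ω hω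
  intro H O
  have hodd : ∀ n : ℕ, Odd (cf ℤ f (D ω) n) ↔ Odd (cf ℤ f (D ω) n).natAbs := fun n =>
    (Int.natAbs_odd).symm
  simp only [hodd]
  refine pattern (a := fun n => (cf ℤ f (D ω) n).natAbs) (fun H hH => ?_) H O
  obtain ⟨C, hC⟩ := hω H hH
  refine ⟨C, fun K => ?_⟩
  have hcast : ∀ n : ℕ, (((cf ℤ f (D ω) n).natAbs : ℕ) : ZMod 2) =
      cf (ZMod 2) (PowerSeries.map (Int.castRingHom (ZMod 2)) f) (D ω) n := by
    intro n
    rw [← cf_cast]
    rcases Int.natAbs_eq (cf ℤ f (D ω) n) with h | h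
    · conv_rhs => rw [h]
      rw [Int.cast_natCast]
    · conv_rhs => rw [h]
      rw [Int.cast_neg, Int.cast_natCast, CharTwo.neg_eq]
  simp only [hcast]
  exact hC K

end main

end Pool.Agent.X149.PP
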