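import Mathlib
import Pool.Agent.X149.PP.Alg

set_option autoImplicit false

namespace Pool.Agent.X149.PP

open Finset

lemma E_add (δ : ℕ → ℝ) (A : Finset ℕ) (φ ψ : Finset ℕ → ℝ) :
    E δ A (fun S => φ S + ψ S) = E δ A φ + E δ A ψ := by
  unfold E
  rw [← sum_add_distrib]
  exact sum_congr rfl fun S _ => by ring

lemma E_sum {ι : Type} (δ : ℕ → ℝ) (A : Finset ℕ) (s : Finset ι) (φ : ι → Finset ℕ → ℝ) :
    E δ A (fun S => ∑ i ∈ s, φ i S) = ∑ i ∈ s, E δ A (φ i) := by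
  unfold E
  simp only [mul_sum]
  rw [sum_comm]

lemma E_empty (δ : ℕ → ℝ) (φ : Finset ℕ → ℝ) : E δ ∅ φ = φ ∅ := by
  unfold E; simp

lemma E_const (δ : ℕ → ℝ) (A : Finset ℕ) (c : ℝ) : E δ A (fun _ => c) = c := by
  have h := E_union_inv δ (A := ∅) (V := A) (disjoint_empty_left _) (φ := fun _ => c)
    (fun _ _ _ => rfl)
  rw [empty_union] at h
  rw [h, E_empty]

lemma E_union (δ : ℕ → ℝ) {A V : Finset ℕ} (hAV : Disjoint A V) (φ : Finset ℕ → ℝ) :
    E δ (A ∪ V) φ = E δ A (fun S => E δ V (fun T => φ (S ∪ T))) := by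
  induction V using Finset.induction_on generalizing φ with
  | empty => simp [E_empty]
  | insert a V ha ih =>
    rw [disjoint_insert_right] at hAV
    have h1 : a ∉ A ∪ V := by
      rw [mem_union, not_or]; exact ⟨hAV.1, ha⟩
    rw [union_insert, E_insert δ h1, ih hAV.2, ih hAV.2, ← E_const_mul, ← E_const_mul, ← E_add]
    refine E_congr δ fun S _ => ?_
    rw [E_insert δ ha]
    simp only [union_insert]

lemma E_prod (δ : ℕ → ℝ) (V : Finset ℕ) (χ : ℕ → ℝ) :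
    E δ V (fun T => ∏ m ∈ T, χ m) = ∏ m ∈ V, (δ m * χ m + (1 - δ m)) := by
  unfold E
  rw [prod_add]
  refine sum_congr rfl fun T _ => ?_
  rw [prod_mul_distrib]; ring

lemma prod_diff (V : Finset ℕ) (x y : ℕ → ℝ) (hx : ∀ m ∈ V, |x m| ≤ 1)
    (hy : ∀ m ∈ V, |y m| ≤ 1) :
    |∏ m ∈ V, x m - ∏ m ∈ V, y m| ≤ ∑ m ∈ V, |x m - y m| := by
  induction V using Finset.induction_on with
  | empty => simp
  | insert a V ha ih =>
    rw [prod_insert ha, prod_insert ha, sum_insert ha]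
    have h1 := ih (fun m hm => hx m (mem_insert_of_mem hm)) (fun m hm => hy m (mem_insert_of_mem hm))
    have h2 : |∏ m ∈ V, y m| ≤ 1 := by
      rw [abs_prod]
      exact prod_le_one (fun m _ => abs_nonneg _) fun m hm => hy m (mem_insert_of_mem hm)
    have h3 : x a * ∏ m ∈ V, x m - y a * ∏ m ∈ V, y m =
        x a * (∏ m ∈ V, x m - ∏ m ∈ V, y m) + (x a - y a) * ∏ m ∈ V, y m := by ring
    rw [h3]
    refine (abs_add_le _ _).trans ?_
    rw [abs_mul, abs_mul]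
    have h4 := hx a (mem_insert_self _ _)
    have h5 : |x a| * |∏ m ∈ V, x m - ∏ m ∈ V, y m| ≤ 1 * ∑ m ∈ V, |x m - y m| :=
      mul_le_mul h4 h1 (abs_nonneg _) (by norm_num)
    have h6 : |x a - y a| * |∏ m ∈ V, y m| ≤ |x a - y a| * 1 :=
      mul_le_mul_of_nonneg_left h2 (abs_nonneg _)
    linarith

/-- The second moment of sums of random signs. -/
lemma second (δ : ℕ → ℝ) (V J : Finset ℕ) (hδ : ∀ m ∈ V, 0 ≤ δ m ∧ δ m ≤ 1 / 2)
    (χ : ℕ → ℕ → ℝ) (hχ : ∀ l m, χ l m = 1 ∨ χ l m = -1) (σ : ℕ → ℝ) (hσ : ∀ l, |σ l| ≤ 1)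
    {D c : ℝ} (hD : ∀ m ∈ V, δ m ≤ D) (hc0 : 0 ≤ c)
    (hc : ∀ m ∈ V, ∑ l ∈ J, (1 - χ l m) / 2 ≤ c) :
    E δ V (fun T => (∑ l ∈ J, σ l * (∏ m ∈ T, χ l m -
      ∏ m ∈ V, (δ m * χ l m + (1 - δ m)))) ^ 2) ≤ 4 * V.card * D * c ^ 2 := by
  set β : ℕ → ℝ := fun l => ∏ m ∈ V, (δ m * χ l m + (1 - δ m)) with hβ
  have hβE : ∀ l, E δ V (fun T => ∏ m ∈ T, χ l m) = β l := fun l => E_prod δ V (χ l)
  have hpair : ∀ l l', E δ V (fun T => (∏ m ∈ T, χ l m) * ∏ m ∈ T, χ l' m) =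
      ∏ m ∈ V, (δ m * (χ l m * χ l' m) + (1 - δ m)) := by
    intro l l'
    simp only [← prod_mul_distrib]
    exact E_prod δ V fun m => χ l m * χ l' m
  have hexp : E δ V (fun T => (∑ l ∈ J, σ l * (∏ m ∈ T, χ l m - β l)) ^ 2) =
      ∑ l ∈ J, ∑ l' ∈ J, σ l * σ l' *
        (∏ m ∈ V, (δ m * (χ l m * χ l' m) + (1 - δ m)) - β l * β l') := by
    have h1 : ∀ T : Finset ℕ, (∑ l ∈ J, σ l * (∏ m ∈ T, χ l m - β l)) ^ 2 =
        ∑ l ∈ J, ∑ l' ∈ J, (σ l * σ l' * ((∏ m ∈ T, χ l m) * ∏ m ∈ T, χ l' m) +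
          ((-(σ l * σ l' * β l')) * (∏ m ∈ T, χ l m) +
          ((-(σ l * σ l' * β l)) * (∏ m ∈ T, χ l' m) + σ l * σ l' * (β l * β l')))) := by
      intro T
      rw [sq, sum_mul_sum]
      exact sum_congr rfl fun l _ => sum_congr rfl fun l' _ => by ring
    simp only [h1]
    rw [E_sum]
    refine sum_congr rfl fun l _ => ?_
    rw [E_sum]
    refine sum_congr rfl fun l' _ => ?_
    rw [E_add, E_add, E_add, E_const_mul, E_const_mul, E_const_mul, E_const, hpair, hβE, hβE]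
    ring
  rw [hexp]
  have hterm : ∀ l l', σ l * σ l' *
      (∏ m ∈ V, (δ m * (χ l m * χ l' m) + (1 - δ m)) - β l * β l') ≤
      ∑ m ∈ V, 4 * D * (((1 - χ l m) / 2) * ((1 - χ l' m) / 2)) := by
    intro l l'
    have h1 : |∏ m ∈ V, (δ m * (χ l m * χ l' m) + (1 - δ m)) - β l * β l'| ≤
        ∑ m ∈ V, |(δ m * (χ l m * χ l' m) + (1 - δ m)) -
          (δ m * χ l m + (1 - δ m)) * (δ m * χ l' m + (1 - δ m))| := by
      simp only [hβ]
      rw [← prod_mul_distrib]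
      refine prod_diff V _ _ (fun m hm => ?_) (fun m hm => ?_)
      · have h2 := hδ m hm
        rw [abs_le]
        rcases hχ l m with h | h <;> rcases hχ l' m with h' | h' <;> rw [h, h'] <;>
          constructor <;> nlinarith
      · have h2 := hδ m hm
        rw [abs_le]
        rcases hχ l m with h | h <;> rcases hχ l' m with h' | h' <;> rw [h, h'] <;>
          constructor <;> nlinarith
    have h2 : ∀ m ∈ V, |(δ m * (χ l m * χ l' m) + (1 - δ m)) -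
          (δ m * χ l m + (1 - δ m)) * (δ m * χ l' m + (1 - δ m))| ≤
        4 * D * (((1 - χ l m) / 2) * ((1 - χ l' m) / 2)) := by
      intro m hm
      have h3 := hδ m hm
      have h4 := hD m hm
      rcases hχ l m with h | h <;> rcases hχ l' m with h' | h' <;> rw [h, h']
      · rw [show (δ m * (1 * 1) + (1 - δ m)) - (δ m * 1 + (1 - δ m)) * (δ m * 1 + (1 - δ m)) = 0
          by ring, abs_zero]
        norm_num
      · rw [show (δ m * (1 * -1) + (1 - δ m)) - (δ m * 1 + (1 - δ m)) * (δ m * -1 + (1 - δ m)) = 0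
          by ring, abs_zero]
        norm_num
      · rw [show (δ m * (-1 * 1) + (1 - δ m)) - (δ m * -1 + (1 - δ m)) * (δ m * 1 + (1 - δ m)) = 0
          by ring, abs_zero]
        norm_num
      · rw [show (δ m * (-1 * -1) + (1 - δ m)) -
          (δ m * -1 + (1 - δ m)) * (δ m * -1 + (1 - δ m)) = 4 * δ m * (1 - δ m) by ring,
          abs_of_nonneg (by nlinarith)]
        norm_num
        nlinarith
    have h3 : |σ l * σ l'| ≤ 1 := by
      rw [abs_mul]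
      exact mul_le_one₀ (hσ l) (abs_nonneg _) (hσ l')
    calc σ l * σ l' * (∏ m ∈ V, (δ m * (χ l m * χ l' m) + (1 - δ m)) - β l * β l')
        ≤ |σ l * σ l'| * |∏ m ∈ V, (δ m * (χ l m * χ l' m) + (1 - δ m)) - β l * β l'| := by
          rw [← abs_mul]; exact le_abs_self _
      _ ≤ 1 * |∏ m ∈ V, (δ m * (χ l m * χ l' m) + (1 - δ m)) - β l * β l'| :=
          mul_le_mul_of_nonneg_right h3 (abs_nonneg _)
      _ ≤ _ := by rw [one_mul]; exact h1.trans (sum_le_sum h2)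
  refine (sum_le_sum fun l _ => sum_le_sum fun l' _ => hterm l l').trans ?_
  have hsw : ∑ l ∈ J, ∑ l' ∈ J, ∑ m ∈ V, 4 * D * (((1 - χ l m) / 2) * ((1 - χ l' m) / 2)) =
      ∑ m ∈ V, 4 * D * (∑ l ∈ J, (1 - χ l m) / 2) ^ 2 := by
    have h1 : ∀ l, ∑ l' ∈ J, ∑ m ∈ V, 4 * D * (((1 - χ l m) / 2) * ((1 - χ l' m) / 2)) =
        ∑ m ∈ V, ∑ l' ∈ J, 4 * D * (((1 - χ l m) / 2) * ((1 - χ l' m) / 2)) := fun l => sum_comm
    simp only [h1]
    rw [sum_comm]
    refine sum_congr rfl fun m _ => ?_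
    rw [sq, sum_mul_sum, mul_sum]
    exact sum_congr rfl fun l _ => by rw [mul_sum]
  rw [hsw]
  have hfin : ∀ m ∈ V, 4 * D * (∑ l ∈ J, (1 - χ l m) / 2) ^ 2 ≤ 4 * D * c ^ 2 := by
    intro m hm
    have h1 : 0 ≤ ∑ l ∈ J, (1 - χ l m) / 2 := sum_nonneg fun l _ => by
      rcases hχ l m with h | h <;> rw [h] <;> norm_num
    have h2 := pow_le_pow_left₀ h1 (hc m hm) 2
    have h3 : 0 ≤ D := (hδ m hm).1.trans (hD m hm)
    nlinarith
  refine (sum_le_sum hfin).trans (le_of_eq ?_)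
  rw [sum_const, nsmul_eq_mul]
  ring

end Pool.Agent.X149.PP
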