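import Mathlib
import Pool.Agent.X149.PP.Fub

set_option autoImplicit false

namespace Pool.Agent.X149.PP

open Finset

lemma Good.union_gt {b : Set ℕ → ℕ → ZMod 2} (hb : Good b) (S T : Finset ℕ) {j : ℕ}
    (hT : ∀ m ∈ T, j < m) : b ((S ∪ T : Finset ℕ) : Set ℕ) j = b (S : Set ℕ) j := by
  induction T using Finset.induction_on with
  | empty => simp
  | insert a T ha ih =>
    rw [union_insert, coe_insert, hb.ins_gt (hT a (mem_insert_self _ _)),
      ih fun m hm => hT m (mem_insert_of_mem hm)]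

/-- The sign of the effect of `m` on the term `l`. -/
noncomputable def chi (b : Set ℕ → ℕ → ZMod 2) (S : Finset ℕ) (l m : ℕ) : ℝ :=
  if m ≤ l then sg (b (S : Set ℕ) (l - m)) else 1

lemma sg_cases (x : ZMod 2) : sg x = 1 ∨ sg x = -1 := by
  unfold sg; split_ifs <;> simp

lemma chi_cases (b : Set ℕ → ℕ → ZMod 2) (S : Finset ℕ) (l m : ℕ) :
    chi b S l m = 1 ∨ chi b S l m = -1 := by
  unfold chi; split_ifs
  · exact sg_cases _
  · exact Or.inl rfl

lemma Good.sg_union {b : Set ℕ → ℕ → ZMod 2} (hb : Good b) {k l : ℕ} (hl : l < 2 * (k + 1))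
    {S T : Finset ℕ} (hS : S ⊆ Icc 1 k) (hT : ∀ m ∈ T, k < m) :
    sg (b ((S ∪ T : Finset ℕ) : Set ℕ) l) = sg (b (S : Set ℕ) l) * ∏ m ∈ T, chi b S l m := by
  induction T using Finset.induction_on with
  | empty => simp
  | insert a T ha ih =>
    have ha' := hT a (mem_insert_self _ _)
    have hT' : ∀ m ∈ T, k < m := fun m hm => hT m (mem_insert_of_mem hm)
    have hnot : a ∉ ((S ∪ T : Finset ℕ) : Set ℕ) := by
      rw [mem_coe, mem_union, not_or]
      refine ⟨fun h => ?_, ha⟩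
      have := hS h
      rw [mem_Icc] at this
      omega
    have h : sg (if a ≤ l then b ((S ∪ T : Finset ℕ) : Set ℕ) (l - a) else 0) = chi b S l a := by
      unfold chi
      split_ifs with h
      · rw [hb.union_gt S T fun m hm => ?_]
        have := hT' m hm
        omega
      · simp [sg]
    rw [union_insert, coe_insert, hb.ins _ a l (by omega) hnot (by omega), sg_add, ih hT', h,
      prod_insert ha]
    ring

/-- The number of odd terms in the fourth quarter. -/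
def X (b : Set ℕ → ℕ → ZMod 2) (W : ℕ) (S : Finset ℕ) : ℕ :=
  ((Ioc (3 * W) (4 * W)).filter fun l => b (S : Set ℕ) l ≠ 0).card

lemma X_le (b : Set ℕ → ℕ → ZMod 2) (W : ℕ) (S : Finset ℕ) : X b W S ≤ cnt b (4 * W) S := by
  unfold X cnt
  refine card_le_card fun l hl => ?_
  rw [mem_filter, mem_Ioc] at hl
  rw [mem_filter, mem_range]
  exact ⟨by omega, hl.2⟩

lemma X_eq (b : Set ℕ → ℕ → ZMod 2) (W : ℕ) (S : Finset ℕ) :
    (X b W S : ℝ) = ∑ l ∈ Ioc (3 * W) (4 * W), (1 - sg (b (S : Set ℕ) l)) / 2 := by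
  unfold X
  rw [card_filter, Nat.cast_sum]
  refine sum_congr rfl fun l _ => ?_
  unfold sg
  by_cases h : b (S : Set ℕ) l = 0 <;> simp [h] <;> norm_num

lemma pow_bound {d : ℝ} (hd0 : 0 ≤ d) (hd1 : d ≤ 1 / 2) (c : ℕ) {t ρ : ℝ} (ht0 : 0 ≤ t)
    (ht : t ≤ c) (hρ : 1 ≤ ρ) (htd : t * d ≤ ρ) : d * t / (2 * ρ) ≤ 1 - (1 - 2 * d) ^ c := by
  have h1 : 1 + (c : ℝ) * (2 * d) ≤ (1 + 2 * d) ^ c := one_add_mul_le_pow (by linarith) c
  have h2 : (1 - 2 * d) ^ c * (1 + 2 * d) ^ c ≤ 1 := by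
    rw [← mul_pow]
    refine pow_le_one₀ ?_ ?_
    · exact mul_nonneg (by linarith) (by linarith)
    · nlinarith
  have h3 : 0 ≤ (1 - 2 * d) ^ c := pow_nonneg (by linarith) c
  have hc : t * d ≤ c * d := mul_le_mul_of_nonneg_right ht hd0
  have htd0 : 0 ≤ t * d := mul_nonneg ht0 hd0
  -- (1-2d)^c (1 + 2 t d) ≤ 1
  have h4 : (1 - 2 * d) ^ c * (1 + 2 * (t * d)) ≤ 1 := by
    refine le_trans (mul_le_mul_of_nonneg_left ?_ h3) h2
    linarith
  rw [div_le_iff₀ (by linarith)]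
  set x := (1 - 2 * d) ^ c
  have hx1 : x ≤ 1 := by nlinarith
  -- 1 - x ≥ 2 t d x, so (1-x)(1+2td) ≥ 2td
  have h5 : 2 * (t * d) ≤ (1 - x) * (1 + 2 * (t * d)) := by nlinarith
  have h6 : (1 - x) * (1 + 2 * (t * d)) ≤ (1 - x) * (4 * ρ) :=
    mul_le_mul_of_nonneg_left (by linarith) (by linarith)
  nlinarith

/-- The conditional second moment. -/
theorem cond {b : Set ℕ → ℕ → ZMod 2} (hb : Good b) {δ : ℕ → ℝ} {W : ℕ} {d A ρ t : ℝ}
    {S : Finset ℕ} (hS : S ⊆ Icc 1 (2 * W)) (h1 : t ≤ cnt b W S) (h2 : (cnt b (2 * W) S : ℝ) ≤ ρ * t)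
    (hδ : ∀ m ∈ Ioc (2 * W) (4 * W), d ≤ δ m ∧ δ m ≤ A * d ∧ δ m ≤ 1 / 2) (hd : 0 < d)
    (hρ : 1 ≤ ρ) (ht : 0 < t) (htd : t * d ≤ ρ) (hW : 8 * ρ ^ 2 ≤ W * d) :
    E δ (Ioc (2 * W) (4 * W)) (fun T => if (X b W (S ∪ T) : ℝ) < ρ * t then 1 else 0) ≤
      128 * A * ρ ^ 4 / (W * d) := by
  have hW0 : (0 : ℝ) < W := by
    by_contra hcon
    have h3 : (W : ℝ) * d ≤ 0 := mul_nonpos_of_nonpos_of_nonneg (by linarith) hd.le
    nlinarith
  have hWn : 0 < W := by exact_mod_cast hW0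
  set V := Ioc (2 * W) (4 * W) with hV
  set J := Ioc (3 * W) (4 * W) with hJ
  have hd2 : d ≤ 1 / 2 := by
    have := hδ (4 * W) (by rw [hV, mem_Ioc]; omega)
    linarith
  have hδ' : ∀ m ∈ V, 0 ≤ δ m ∧ δ m ≤ 1 / 2 := fun m hm => by
    have := hδ m hm; exact ⟨by linarith, this.2.2⟩
  set σ : ℕ → ℝ := fun l => sg (b (S : Set ℕ) l) with hσ
  have hσ1 : ∀ l, |σ l| ≤ 1 := fun l => (sg_abs _).le
  set β : ℕ → ℝ := fun l => ∏ m ∈ V, (δ m * chi b S l m + (1 - δ m)) with hβ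
  -- the variance
  have hcount : ∀ m ∈ V, ∑ l ∈ J, (1 - chi b S l m) / 2 ≤ (cnt b (2 * W) S : ℝ) := by
    intro m hm
    rw [hV, mem_Ioc] at hm
    have h3 : ∑ l ∈ J, (1 - chi b S l m) / 2 =
        ((J.filter fun l => m ≤ l ∧ b (S : Set ℕ) (l - m) ≠ 0).card : ℝ) := by
      rw [card_filter, Nat.cast_sum]
      refine sum_congr rfl fun l _ => ?_
      unfold chi sg
      by_cases h4 : m ≤ l <;> by_cases h5 : b (S : Set ℕ) (l - m) = 0 <;> simp [h4, h5] <;> norm_num
    rw [h3]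
    unfold cnt
    have h4 : (J.filter fun l => m ≤ l ∧ b (S : Set ℕ) (l - m) ≠ 0).card ≤
        ((range (2 * W + 1)).filter fun j => b (S : Set ℕ) j ≠ 0).card := by
      refine card_le_card_of_injOn (fun l => l - m) ?_ ?_
      · intro l hl
        simp only [coe_filter, Set.mem_ofPred_eq, hJ, mem_Ioc, mem_range] at hl ⊢
        exact ⟨by omega, hl.2.2⟩
      · intro l hl l' hl' hll
        simp only [coe_filter, Set.mem_ofPred_eq] at hl hl'
        simp only at hll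
        omega
    exact_mod_cast h4
  have hvar := second δ V J hδ' (chi b S) (chi_cases b S) σ hσ1 (D := A * d)
    (c := cnt b (2 * W) S) (fun m hm => (hδ m hm).2.1) (Nat.cast_nonneg _) hcount
  have hVcard : (V.card : ℝ) = 2 * W := by
    rw [hV, Nat.card_Ioc, show 4 * W - 2 * W = 2 * W by omega]
    push_cast; ring
  -- the mean
  have hβle : ∀ l ∈ J, β l ≤ (1 - 2 * d) ^ cnt b W S := by
    intro l hl
    rw [hJ, mem_Ioc] at hl
    have h3 : β l ≤ ∏ m ∈ V, (if (m ≤ l ∧ b (S : Set ℕ) (l - m) ≠ 0) then 1 - 2 * d else 1) := by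
      rw [hβ]
      refine prod_le_prod (fun m hm => ?_) fun m hm => ?_
      · have := hδ' m hm
        rcases chi_cases b S l m with h | h <;> rw [h] <;> nlinarith
      · have h4 := hδ m hm
        unfold chi sg
        by_cases h5 : m ≤ l <;> by_cases h6 : b (S : Set ℕ) (l - m) = 0 <;> simp [h5, h6]
        linarith
    refine h3.trans ?_
    rw [prod_ite, prod_const, prod_const_one, mul_one]
    refine pow_le_pow_of_le_one (by linarith) (by linarith) ?_
    unfold cnt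
    refine card_le_card_of_injOn (fun j => l - j) ?_ ?_
    · intro j hj
      simp only [coe_filter, Set.mem_ofPred_eq, hV, mem_Ioc, mem_range] at hj ⊢
      refine ⟨by omega, by omega, ?_⟩
      rw [show l - (l - j) = j by omega]
      exact hj.2
    · intro j hj j' hj' hjj
      simp only [coe_filter, Set.mem_ofPred_eq, mem_range] at hj hj'
      simp only at hjj
      omega
  have hβ0 : ∀ l, 0 ≤ β l := fun l => prod_nonneg fun m hm => by
    have := hδ' m hm
    rcases chi_cases b S l m with h | h <;> rw [h] <;> nlinarith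
  set q := W * d * t / (4 * ρ) with hq
  have hρ0 : 0 < ρ := by linarith
  have hq0 : 0 < q := by rw [hq]; positivity
  have hmean : q ≤ ∑ l ∈ J, (1 - σ l * β l) / 2 := by
    have h3 := pow_bound hd.le hd2 (cnt b W S) ht.le h1 hρ htd
    have h4 : ∀ l ∈ J, d * t / (4 * ρ) ≤ (1 - σ l * β l) / 2 := by
      intro l hl
      have h5 : σ l * β l ≤ β l := by
        have := (abs_le.1 (hσ1 l)).2
        nlinarith [hβ0 l]
      have h6 := hβle l hl
      have h7 : d * t / (4 * ρ) = (d * t / (2 * ρ)) / 2 := by ring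
      rw [h7]
      linarith
    have h5 := card_nsmul_le_sum J _ _ h4
    have h6 : (J.card : ℝ) = W := by
      rw [hJ, Nat.card_Ioc, show 4 * W - 3 * W = W by omega]
    rw [nsmul_eq_mul, h6] at h5
    refine le_trans (le_of_eq ?_) h5
    rw [hq]; ring
  have hq2 : 2 * (ρ * t) ≤ q := by
    rw [hq, le_div_iff₀ (by linarith)]
    nlinarith
  -- the comparison
  set Z : Finset ℕ → ℝ := fun T => ∑ l ∈ J, σ l * (∏ m ∈ T, chi b S l m - β l) with hZ
  have hind : ∀ T ⊆ V, (if (X b W (S ∪ T) : ℝ) < ρ * t then (1 : ℝ) else 0) ≤ (1 / q ^ 2) * Z T ^ 2 := by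
    intro T hT
    split_ifs with h
    · have hX : (X b W (S ∪ T) : ℝ) = ∑ l ∈ J, (1 - σ l * ∏ m ∈ T, chi b S l m) / 2 := by
        rw [X_eq]
        refine sum_congr rfl fun l hl => ?_
        rw [mem_Ioc] at hl
        rw [hb.sg_union (k := 2 * W) (by omega) hS fun m hm => by
          have := hT hm
          rw [hV, mem_Ioc] at this
          exact this.1]
      have hdiff : Z T = 2 * (∑ l ∈ J, (1 - σ l * β l) / 2 - X b W (S ∪ T)) := by
        rw [hX, ← sum_sub_distrib, mul_sum]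
        exact sum_congr rfl fun l _ => by ring
      have h3 : q ≤ Z T := by rw [hdiff]; linarith
      have h4 : q ^ 2 ≤ Z T ^ 2 := pow_le_pow_left₀ hq0.le h3 2
      rw [one_div, ← div_eq_inv_mul, le_div_iff₀ (by positivity), one_mul]
      exact h4
    · positivity
  refine (E_mono (fun m hm => ⟨(hδ' m hm).1, by linarith [(hδ' m hm).2]⟩) hind).trans ?_
  rw [E_const_mul]
  have h3 : (4 : ℝ) * V.card * (A * d) * (cnt b (2 * W) S : ℝ) ^ 2 ≤
      8 * W * (A * d) * (ρ * t) ^ 2 := by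
    rw [hVcard]
    have h4 : (cnt b (2 * W) S : ℝ) ^ 2 ≤ (ρ * t) ^ 2 := pow_le_pow_left₀ (Nat.cast_nonneg _) h2 2
    have h5 : 0 ≤ A * d := by
      have := hδ (4 * W) (by rw [hV, mem_Ioc]; omega)
      linarith
    have h6 : 0 ≤ 8 * W * (A * d) := by positivity
    nlinarith
  have h4 : E δ V (fun T => Z T ^ 2) ≤ 8 * W * (A * d) * (ρ * t) ^ 2 := hvar.trans h3
  refine (mul_le_mul_of_nonneg_left h4 (by positivity)).trans (le_of_eq ?_)
  rw [hq]
  field_simp
  ring

end Pool.Agent.X149.PP
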