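import Mathlib
import Pool.Agent.X149.PP.Cond

set_option autoImplicit false

namespace Pool.Agent.X149.PP

open Finset

lemma Good.cnt_union {b : Set ℕ → ℕ → ZMod 2} (hb : Good b) {l : ℕ} (S : Finset ℕ) {T : Finset ℕ}
    (hT : ∀ m ∈ T, l < m) : cnt b l (S ∪ T) = cnt b l S := by
  unfold cnt
  congr 1
  refine filter_congr fun j hj => ?_
  rw [mem_range] at hj
  rw [hb.union_gt S T fun m hm => by have := hT m hm; omega]

lemma Good.cnt_insert {b : Set ℕ → ℕ → ZMod 2} (hb : Good b) {l m : ℕ} (S : Finset ℕ)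
    (hm : l < m) : cnt b l (insert m S) = cnt b l S := by
  unfold cnt
  congr 1
  refine filter_congr fun j hj => ?_
  rw [mem_range] at hj
  rw [coe_insert, hb.ins_gt (by omega)]

lemma cnt_mono (b : Set ℕ → ℕ → ZMod 2) (S : Finset ℕ) {k l : ℕ} (h : k ≤ l) :
    cnt b k S ≤ cnt b l S := by
  unfold cnt
  refine card_le_card fun j hj => ?_
  rw [mem_filter, mem_range] at hj ⊢
  exact ⟨by omega, hj.2⟩

lemma Good.one_le_cnt {b : Set ℕ → ℕ → ZMod 2} (hb : Good b) (l : ℕ) (S : Finset ℕ) :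
    1 ≤ cnt b l S := by
  unfold cnt
  rw [Nat.one_le_iff_ne_zero, Ne, card_eq_zero, ← Ne, ← nonempty_iff_ne_empty]
  exact ⟨0, by rw [mem_filter, mem_range, hb.zero]; exact ⟨by omega, by decide⟩⟩

/-- The probability that there are few odd terms. -/
noncomputable def few (b : Set ℕ → ℕ → ZMod 2) (δ : ℕ → ℝ) (W : ℕ) (t : ℝ) : ℝ :=
  E δ (Icc 1 W) fun S => if (cnt b W S : ℝ) < t then 1 else 0

lemma step {b : Set ℕ → ℕ → ZMod 2} (hb : Good b) {δ : ℕ → ℝ} {W : ℕ} {d A ρ t : ℝ}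
    (hδ1 : ∀ m ∈ Icc 1 (4 * W), 0 ≤ δ m ∧ δ m ≤ 1)
    (hδ : ∀ m ∈ Ioc (2 * W) (4 * W), d ≤ δ m ∧ δ m ≤ A * d ∧ δ m ≤ 1 / 2) (hd : 0 < d)
    (hρ : 1 ≤ ρ) (ht : 0 < t) (htd : t * d ≤ ρ) (hW : 8 * ρ ^ 2 ≤ W * d) :
    few b δ (4 * W) (ρ * t) ≤ few b δ W t + 128 * A * ρ ^ 4 / (W * d) := by
  classical
  have hW0 : (0 : ℝ) < W := by
    by_contra hcon
    have h3 : (W : ℝ) * d ≤ 0 := mul_nonpos_of_nonpos_of_nonneg (by linarith) hd.le
    nlinarith
  have hWn : 0 < W := by exact_mod_cast hW0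
  have hA : 0 ≤ A := by
    have h1 := hδ (4 * W) (by rw [mem_Ioc]; omega)
    by_contra hcon
    push Not at hcon
    nlinarith
  set η := 128 * A * ρ ^ 4 / (W * d) with hη
  have hη0 : 0 ≤ η := by rw [hη]; positivity
  set φ₁ : Finset ℕ → ℝ := fun S => if (cnt b W S : ℝ) < t then 1 else 0 with hφ₁
  set φ₂ : Finset ℕ → ℝ := fun S => if ((t ≤ cnt b W S ∧ (cnt b (2 * W) S : ℝ) ≤ ρ * t) ∧
    (X b W S : ℝ) < ρ * t) then 1 else 0 with hφ₂
  have hle : few b δ (4 * W) (ρ * t) ≤ E δ (Icc 1 (4 * W)) φ₁ + E δ (Icc 1 (4 * W)) φ₂ := by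
    rw [← E_add]
    unfold few
    refine E_mono hδ1 fun S _ => ?_
    by_cases h1 : (cnt b (4 * W) S : ℝ) < ρ * t
    · rw [if_pos h1]
      by_cases h2 : (cnt b W S : ℝ) < t
      · simp only [hφ₁, hφ₂]
        rw [if_pos h2]
        have : (0 : ℝ) ≤ if ((t ≤ cnt b W S ∧ (cnt b (2 * W) S : ℝ) ≤ ρ * t) ∧
          (X b W S : ℝ) < ρ * t) then 1 else 0 := by split_ifs <;> norm_num
        linarith
      · simp only [hφ₁, hφ₂]
        rw [if_neg h2, if_pos]
        · norm_num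
        · push Not at h2
          have h3 : (cnt b (2 * W) S : ℝ) ≤ cnt b (4 * W) S := by
            exact_mod_cast cnt_mono b S (by omega)
          have h4 : (X b W S : ℝ) ≤ cnt b (4 * W) S := by exact_mod_cast X_le b W S
          exact ⟨⟨h2, by linarith⟩, by linarith⟩
    · rw [if_neg h1]
      simp only [hφ₁, hφ₂]
      split_ifs <;> norm_num
  have h1 : E δ (Icc 1 (4 * W)) φ₁ = few b δ W t := by
    have hun : Icc 1 (4 * W) = Icc 1 W ∪ Ioc W (4 * W) := by
      ext x; simp only [mem_Icc, mem_union, mem_Ioc]; omega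
    have hdis : Disjoint (Icc 1 W) (Ioc W (4 * W)) := by
      rw [disjoint_left]; intro x; simp only [mem_Icc, mem_Ioc]; omega
    rw [hun, E_union_inv δ hdis]
    · rfl
    · intro m hm S
      rw [mem_Ioc] at hm
      simp only [hφ₁]
      rw [hb.cnt_insert S hm.1]
  have h2 : E δ (Icc 1 (4 * W)) φ₂ ≤ η := by
    have hun : Icc 1 (4 * W) = Icc 1 (2 * W) ∪ Ioc (2 * W) (4 * W) := by
      ext x; simp only [mem_Icc, mem_union, mem_Ioc]; omega
    have hdis : Disjoint (Icc 1 (2 * W)) (Ioc (2 * W) (4 * W)) := by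
      rw [disjoint_left]; intro x; simp only [mem_Icc, mem_Ioc]; omega
    rw [hun, E_union δ hdis, ← E_const δ (Icc 1 (2 * W)) η]
    refine E_mono (fun m hm => hδ1 m (by rw [mem_Icc] at hm ⊢; omega)) fun S hS => ?_
    have hcn : ∀ T ⊆ Ioc (2 * W) (4 * W), ∀ l ≤ 2 * W, cnt b l (S ∪ T) = cnt b l S := by
      intro T hT l hl
      refine hb.cnt_union S fun m hm => ?_
      have := hT hm
      rw [mem_Ioc] at this
      omega
    by_cases hG : t ≤ cnt b W S ∧ (cnt b (2 * W) S : ℝ) ≤ ρ * t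
    · have h3 := cond hb hS hG.1 hG.2 hδ hd hρ ht htd hW
      refine le_trans (le_of_eq ?_) h3
      refine E_congr δ fun T hT => ?_
      simp only [hφ₂]
      rw [hcn T hT W (by omega), hcn T hT (2 * W) le_rfl]
      by_cases hX : (X b W (S ∪ T) : ℝ) < ρ * t
      · rw [if_pos hX, if_pos ⟨hG, hX⟩]
      · rw [if_neg hX, if_neg fun h => hX h.2]
    · refine le_trans (le_of_eq ?_) hη0
      rw [← E_const δ (Ioc (2 * W) (4 * W)) 0]
      refine E_congr δ fun T hT => ?_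
      simp only [hφ₂]
      rw [hcn T hT W (by omega), hcn T hT (2 * W) le_rfl, if_neg fun h => hG h.1]
  rw [h1] at hle
  linarith

lemma iter {b : Set ℕ → ℕ → ZMod 2} (hb : Good b) {δ : ℕ → ℝ} {W I : ℕ} {d A ρ : ℝ}
    (hδ1 : ∀ m ∈ Icc 1 (4 ^ I * W), 0 ≤ δ m ∧ δ m ≤ 1 / 2)
    (hδ : ∀ m ∈ Ioc (2 * W) (4 ^ I * W), d ≤ δ m ∧ δ m ≤ A * d) (hd : 0 < d) (hA : 0 ≤ A)
    (hρ : 1 ≤ ρ) (hI : ∀ i < I, ρ ^ i * d ≤ ρ) (hW : 8 * ρ ^ 2 ≤ W * d) :
    few b δ (4 ^ I * W) (ρ ^ I) ≤ I * (128 * A * ρ ^ 4 / (W * d)) := by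
  have hW0 : (0 : ℝ) < W := by
    by_contra hcon
    have h3 : (W : ℝ) * d ≤ 0 := mul_nonpos_of_nonpos_of_nonneg (by linarith) hd.le
    nlinarith
  have key : ∀ i ≤ I, few b δ (4 ^ i * W) (ρ ^ i) ≤ i * (128 * A * ρ ^ 4 / (W * d)) := by
    intro i
    induction i with
    | zero =>
      intro _
      simp only [pow_zero, one_mul, Nat.cast_zero, zero_mul]
      refine le_of_eq ?_
      unfold few
      refine (E_congr δ fun S _ => ?_).trans (E_const δ (Icc 1 W) 0)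
      have h1 := hb.one_le_cnt W S
      have h2 : (1 : ℝ) ≤ cnt b W S := by exact_mod_cast h1
      rw [if_neg (by linarith)]
    | succ i ih =>
      intro hi
      have hpow : 4 ^ (i + 1) * W ≤ 4 ^ I * W := Nat.mul_le_mul_right _ (Nat.pow_le_pow_right (by norm_num) hi)
      have hW1 : (W : ℝ) ≤ ((4 ^ i * W : ℕ) : ℝ) := by
        have : W ≤ 4 ^ i * W := Nat.le_mul_of_pos_left _ (by positivity)
        exact_mod_cast this
      have hWn : 0 < W := by exact_mod_cast hW0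
      have hWi : W ≤ 4 ^ i * W := Nat.le_mul_of_pos_left _ (by positivity)
      have h4 : 4 ^ (i + 1) * W = 4 * (4 ^ i * W) := by ring
      have hst := step hb (δ := δ) (W := 4 ^ i * W) (d := d) (A := A) (ρ := ρ) (t := ρ ^ i)
        (fun m hm => by
          have := hδ1 m (by rw [mem_Icc] at hm ⊢; omega)
          exact ⟨this.1, by linarith⟩)
        (fun m hm => by
          rw [mem_Ioc] at hm
          have h5 := hδ m (by rw [mem_Ioc]; omega)
          have h6 := hδ1 m (by rw [mem_Icc]; omega)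
          exact ⟨h5.1, h5.2, h6.2⟩) hd hρ (by positivity) (hI i (by omega))
        (hW.trans (mul_le_mul_of_nonneg_right hW1 hd.le))
      rw [h4, pow_succ ρ i, mul_comm (ρ ^ i) ρ]
      have h7 : 128 * A * ρ ^ 4 / (((4 ^ i * W : ℕ) : ℝ) * d) ≤ 128 * A * ρ ^ 4 / (W * d) :=
        div_le_div_of_nonneg_left (by positivity) (by positivity)
          (mul_le_mul_of_nonneg_right hW1 hd.le)
      have h8 := ih (by omega)
      push_cast
      push_cast at hst h7
      linarith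
  exact key I le_rfl

/-- The bias of one term, from the number of odd terms. -/
theorem bias1 {b : Set ℕ → ℕ → ZMod 2} (hb : Good b) {δ : ℕ → ℝ} {d : ℝ} (hd : 0 ≤ d) (n : ℕ)
    (hn : 1 ≤ n) (hδ : ∀ m ∈ Icc 1 n, d ≤ δ m ∧ δ m ≤ 1 / 2) :
    |E δ (Icc 1 n) (fun S => sg (b (S : Set ℕ) n))| ≤
      E δ (Icc 1 (n - n / 2 - 1)) (fun S => (1 - 2 * d) ^ cnt b (n - n / 2 - 1) S) := by
  set k := n / 2 with hk
  set l := n - k - 1 with hl
  have hd2 : d ≤ 1 / 2 := by
    have := hδ 1 (by rw [mem_Icc]; omega)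
    linarith
  have hun : Icc 1 n = Icc 1 k ∪ Ioc k n := by
    ext x; simp only [mem_Icc, mem_union, mem_Ioc]; omega
  have hδk : ∀ m ∈ Icc 1 k, 0 ≤ δ m ∧ δ m ≤ 1 := fun m hm => by
    have := hδ m (by rw [mem_Icc] at hm ⊢; omega)
    exact ⟨by linarith, by linarith⟩
  have h1 := bias_aux hb δ (k := k) (n := n) (by omega) (Ioc k n) (fun m hm => mem_Ioc.1 hm)
    (fun _ => 1) (fun _ _ _ => rfl)
  simp only [mul_one, one_mul] at h1
  rw [hun, h1]
  have hr0 : (0 : ℝ) ≤ 1 - 2 * d := by linarith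
  have h2 : ∀ S ⊆ Icc 1 k, |sg (b (S : Set ℕ) n) *
      ∏ m ∈ Ioc k n, (1 - 2 * δ m * od (b (S : Set ℕ) (n - m)))| ≤ (1 - 2 * d) ^ cnt b l S := by
    intro S _
    rw [abs_mul, sg_abs, one_mul, abs_prod]
    have h3 : ∏ m ∈ Ioc k n, |1 - 2 * δ m * od (b (S : Set ℕ) (n - m))| ≤
        ∏ m ∈ Ioc k n, (if b (S : Set ℕ) (n - m) ≠ 0 then 1 - 2 * d else 1) := by
      refine prod_le_prod (fun m _ => abs_nonneg _) fun m hm => ?_
      have hm' := hδ m (by rw [mem_Ioc] at hm; rw [mem_Icc]; omega)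
      unfold od
      by_cases h : b (S : Set ℕ) (n - m) = 0
      · simp [h]
      · rw [if_neg h, if_pos h, mul_one, abs_of_nonneg (by linarith)]
        linarith
    refine h3.trans ?_
    rw [prod_ite, prod_const, prod_const_one, mul_one]
    refine le_of_eq ?_
    congr 1
    unfold cnt
    refine card_nbij' (fun m => n - m) (fun j => n - j) ?_ ?_ ?_ ?_
    · intro m hm
      simp only [coe_filter, mem_Ioc, Set.mem_ofPred_eq, mem_range] at hm ⊢
      exact ⟨by omega, hm.2⟩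
    · intro j hj
      simp only [coe_filter, mem_Ioc, Set.mem_ofPred_eq, mem_range] at hj ⊢
      refine ⟨by omega, ?_⟩
      rw [show n - (n - j) = j by omega]
      exact hj.2
    · intro m hm
      simp only [coe_filter, mem_Ioc, Set.mem_ofPred_eq] at hm
      beta_reduce
      omega
    · intro j hj
      simp only [coe_filter, mem_range, Set.mem_ofPred_eq] at hj
      beta_reduce
      omega
  refine (E_abs hδk h2).trans (le_of_eq ?_)
  have hun2 : Icc 1 k = Icc 1 l ∪ Ioc l k := by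
    ext x; simp only [mem_Icc, mem_union, mem_Ioc]; omega
  have hdis2 : Disjoint (Icc 1 l) (Ioc l k) := by
    rw [disjoint_left]; intro x; simp only [mem_Icc, mem_Ioc]; omega
  rw [hun2, E_union_inv δ hdis2]
  intro m hm S
  rw [mem_Ioc] at hm
  beta_reduce
  rw [hb.cnt_insert S hm.1]

/-- The bias from the number of odd terms at a smaller scale. -/
lemma bias2 {b : Set ℕ → ℕ → ZMod 2} (hb : Good b) {δ : ℕ → ℝ} {d : ℝ} (hd : 0 ≤ d) (n : ℕ)
    (hn : 1 ≤ n) (hδ : ∀ m ∈ Icc 1 n, d ≤ δ m ∧ δ m ≤ 1 / 2) {W : ℕ} (hW : W ≤ n - n / 2 - 1)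
    (t : ℝ) : |E δ (Icc 1 n) (fun S => sg (b (S : Set ℕ) n))| ≤
      few b δ W t + Real.exp (-(2 * d * t)) := by
  have hd2 : d ≤ 1 / 2 := by
    have := hδ 1 (by rw [mem_Icc]; omega)
    linarith
  refine (bias1 hb hd n hn hδ).trans ?_
  set l := n - n / 2 - 1 with hl
  have hδl : ∀ m ∈ Icc 1 l, 0 ≤ δ m ∧ δ m ≤ 1 := fun m hm => by
    have := hδ m (by rw [mem_Icc] at hm ⊢; omega)
    exact ⟨by linarith, by linarith⟩
  have h1 : ∀ S ⊆ Icc 1 l, (1 - 2 * d) ^ cnt b l S ≤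
      (if (cnt b W S : ℝ) < t then 1 else 0) + Real.exp (-(2 * d * t)) := by
    intro S _
    split_ifs with h
    · have h2 : (1 - 2 * d) ^ cnt b l S ≤ 1 := pow_le_one₀ (by linarith) (by linarith)
      linarith [Real.exp_pos (-(2 * d * t))]
    · push Not at h
      rw [zero_add]
      have h2 : t ≤ cnt b l S := h.trans (by exact_mod_cast cnt_mono b S hW)
      have h3 : 1 - 2 * d ≤ Real.exp (-(2 * d)) := by
        have := Real.add_one_le_exp (-(2 * d))
        linarith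
      calc (1 - 2 * d) ^ cnt b l S ≤ Real.exp (-(2 * d)) ^ cnt b l S :=
            pow_le_pow_left₀ (by linarith) h3 _
        _ = Real.exp (cnt b l S * (-(2 * d))) := by rw [Real.exp_nat_mul]
        _ ≤ _ := by
          rw [Real.exp_le_exp]
          nlinarith
  refine (E_mono hδl h1).trans (le_of_eq ?_)
  rw [E_add, E_const]
  congr 1
  have hun : Icc 1 l = Icc 1 W ∪ Ioc W l := by
    ext x; simp only [mem_Icc, mem_union, mem_Ioc]; omega
  have hdis : Disjoint (Icc 1 W) (Ioc W l) := by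
    rw [disjoint_left]; intro x; simp only [mem_Icc, mem_Ioc]; omega
  rw [hun, E_union_inv δ hdis]
  · rfl
  · intro m hm S
    rw [mem_Ioc] at hm
    beta_reduce
    rw [hb.cnt_insert S hm.1]

end Pool.Agent.X149.PP
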