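import Mathlib
import Pool.Agent.X149.PP.Iter

set_option autoImplicit false

namespace Pool.Agent.X149.PP

open Finset

lemma E_le_one {b : Set ℕ → ℕ → ZMod 2} {δ : ℕ → ℝ} (n : ℕ)
    (hδ : ∀ m ∈ Icc 1 n, 0 ≤ δ m ∧ δ m ≤ 1) :
    |E δ (Icc 1 n) (fun S => sg (b (S : Set ℕ) n))| ≤ 1 := by
  have h := E_abs hδ (φ := fun S => sg (b (S : Set ℕ) n)) (ψ := fun _ => 1)
    fun S _ => (sg_abs _).le
  rwa [E_const] at h

/-- Power decay of the bias for the exact probabilities. -/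
theorem decay2 {θ : ℝ} (hθ0 : 0 ≤ θ) (hθ : θ < 1) : ∃ κ : ℝ, 0 < κ ∧ κ ≤ 1 / 8 ∧ ∃ C : ℝ, 0 < C ∧
    ∀ b : Set ℕ → ℕ → ZMod 2, Good b → ∀ δ : ℕ → ℝ,
      (∀ m : ℕ, 1 ≤ m → δ m = (m : ℝ) ^ (-θ) / 2) → ∀ n : ℕ, 1 ≤ n →
      |E δ (Icc 1 n) (fun S => sg (b (S : Set ℕ) n))| ≤ C * (n : ℝ) ^ (-κ) := by
  set κ : ℝ := (1 - θ) / 8 with hκ
  have hκ0 : 0 < κ := by rw [hκ]; linarith
  have hκ1 : κ ≤ 1 / 8 := by rw [hκ]; linarith
  set I : ℕ := ⌈θ / κ⌉₊ + 1 with hI
  set Q : ℕ := 4 ^ (I + 1) with hQ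
  have hQ1 : (1 : ℝ) ≤ Q := by
    have : 1 ≤ Q := Nat.one_le_pow _ _ (by norm_num)
    exact_mod_cast this
  have hQ0 : (0 : ℝ) < Q := by linarith
  refine ⟨κ, hκ0, hκ1, 512 * I * Q ^ 2 + 32 * Q + 1, by positivity, ?_⟩
  intro b hb δ hδ n hn
  have hn1 : (1 : ℝ) ≤ n := by exact_mod_cast hn
  have hn0 : (0 : ℝ) < n := by linarith
  have hnκ0 : 0 < (n : ℝ) ^ (-κ) := by positivity
  set ρ : ℝ := (n : ℝ) ^ κ with hρ
  have hρ1 : 1 ≤ ρ := Real.one_le_rpow hn1 hκ0.le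
  have hρ0 : 0 < ρ := by linarith
  have hinv : (n : ℝ) ^ (-κ) = 1 / ρ := by rw [Real.rpow_neg hn0.le, one_div]
  set d : ℝ := (n : ℝ) ^ (-θ) / 2 with hd
  have hd0 : 0 < d := by positivity
  have hδb : ∀ m ∈ Icc 1 n, d ≤ δ m ∧ δ m ≤ 1 / 2 := by
    intro m hm
    rw [mem_Icc] at hm
    rw [hδ m hm.1]
    have h1 : (1 : ℝ) ≤ m := by exact_mod_cast hm.1
    have h2 : (n : ℝ) ^ (-θ) ≤ (m : ℝ) ^ (-θ) :=
      Real.rpow_le_rpow_of_nonpos (by linarith) (by exact_mod_cast hm.2) (by linarith)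
    have h3 : (m : ℝ) ^ (-θ) ≤ 1 := Real.rpow_le_one_of_one_le_of_nonpos h1 (by linarith)
    constructor
    · rw [hd]; linarith
    · linarith
  have htriv : |E δ (Icc 1 n) (fun S => sg (b (S : Set ℕ) n))| ≤ 1 :=
    E_le_one n fun m hm => ⟨hd0.le.trans (hδb m hm).1, by linarith [(hδb m hm).2]⟩
  have hI0 : (0 : ℝ) ≤ I := Nat.cast_nonneg _
  set W : ℕ := n / Q with hW
  rcases Nat.eq_zero_or_pos W with hW0 | hW0
  · -- small n
    have h1 : n < Q := by
      rcases Nat.div_eq_zero_iff.1 (hW ▸ hW0 : n / Q = 0) with h | h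
      · have : 0 < Q := by positivity
        omega
      · exact h
    have h2 : (n : ℝ) ≤ Q := by exact_mod_cast h1.le
    have h3 : ρ ≤ n := by
      rw [hρ]
      calc (n : ℝ) ^ κ ≤ (n : ℝ) ^ (1 : ℝ) := Real.rpow_le_rpow_of_exponent_le hn1 (by linarith)
        _ = n := Real.rpow_one _
    refine htriv.trans ?_
    rw [hinv, mul_one_div, le_div_iff₀ hρ0]
    nlinarith [mul_nonneg hI0 (sq_nonneg (Q : ℝ))]
  · have hW1 : (1 : ℝ) ≤ W := by exact_mod_cast hW0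
    have hnW : (n : ℝ) ≤ 2 * W * Q := by
      have h1 : n < (W + 1) * Q := by
        rw [hW]
        have := Nat.lt_mul_div_succ n (show 0 < Q by positivity)
        linarith [this, mul_comm Q (n / Q + 1)]
      have h2 : (n : ℝ) ≤ (W + 1) * Q := by exact_mod_cast h1.le
      nlinarith
    have hpow8 : (n : ℝ) * (n : ℝ) ^ (-θ) = ρ ^ 8 := by
      rw [hρ, ← Real.rpow_natCast, ← Real.rpow_mul hn0.le]
      nth_rw 1 [← Real.rpow_one (n : ℝ)]
      rw [← Real.rpow_add hn0]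
      congr 1
      rw [hκ]; push_cast; ring
    have hWd : ρ ^ 8 ≤ 4 * Q * (W * d) := by
      rw [← hpow8, hd]
      have h1 : 0 < (n : ℝ) ^ (-θ) := by positivity
      nlinarith
    by_cases hcase : 8 * ρ ^ 2 ≤ W * d
    · -- the main case
      have hQ4 : 4 ^ I * W ≤ n / 4 := by
        have h1 : 4 * (4 ^ I * W) ≤ n := by
          have h2 : W * Q ≤ n := by rw [hW]; exact Nat.div_mul_le_self n Q
          calc 4 * (4 ^ I * W) = W * Q := by rw [hQ, pow_succ]; ring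
            _ ≤ n := h2
        omega
      have hn4 : 4 ≤ n := by
        have h1 : 1 ≤ 4 ^ I * W := Nat.one_le_iff_ne_zero.2 (by positivity)
        omega
      have hWl : 4 ^ I * W ≤ n - n / 2 - 1 := by omega
      have hρI : ρ ^ I = (n : ℝ) ^ (κ * I) := by
        rw [hρ, ← Real.rpow_natCast, ← Real.rpow_mul hn0.le]
      have hceil1 : θ / κ ≤ ⌈θ / κ⌉₊ := Nat.le_ceil _
      have hceil2 : (⌈θ / κ⌉₊ : ℝ) < θ / κ + 1 := Nat.ceil_lt_add_one (by positivity)
      have hIr : (I : ℝ) = ⌈θ / κ⌉₊ + 1 := by rw [hI]; push_cast; ring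
      have hθκ : θ / κ * κ = θ := div_mul_cancel₀ θ hκ0.ne'
      have hfew := iter hb (δ := δ) (W := W) (I := I) (d := d) (A := Q) (ρ := ρ)
        (fun m hm => by
          rw [mem_Icc] at hm
          have := hδb m (by rw [mem_Icc]; omega)
          exact ⟨by linarith, this.2⟩)
        (fun m hm => by
          rw [mem_Ioc] at hm
          have h1 := hδb m (by rw [mem_Icc]; omega)
          refine ⟨h1.1, ?_⟩
          rw [hδ m (by omega), hd]
          have hm0 : (0 : ℝ) < m := by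
            have : 0 < m := by omega
            exact_mod_cast this
          have h2 : (n : ℝ) / Q ≤ m := by
            rw [div_le_iff₀ hQ0]
            have h3 : (2 : ℝ) * W ≤ m := by exact_mod_cast hm.1.le
            nlinarith
          have h3 : (m : ℝ) ^ (-θ) ≤ ((n : ℝ) / Q) ^ (-θ) :=
            Real.rpow_le_rpow_of_nonpos (by positivity) h2 (by linarith)
          have h4 : ((n : ℝ) / Q) ^ (-θ) = (n : ℝ) ^ (-θ) * (Q : ℝ) ^ θ := by
            rw [Real.div_rpow hn0.le hQ0.le, Real.rpow_neg hQ0.le, div_inv_eq_mul]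
          have h5 : (Q : ℝ) ^ θ ≤ Q := by
            calc (Q : ℝ) ^ θ ≤ (Q : ℝ) ^ (1 : ℝ) := Real.rpow_le_rpow_of_exponent_le hQ1 hθ.le
              _ = Q := Real.rpow_one _
          have h6 : (n : ℝ) ^ (-θ) * (Q : ℝ) ^ θ ≤ (n : ℝ) ^ (-θ) * Q :=
            mul_le_mul_of_nonneg_left h5 (by positivity)
          have h7 : (m : ℝ) ^ (-θ) ≤ (n : ℝ) ^ (-θ) * Q := by
            rw [h4] at h3; exact h3.trans h6
          linarith)
        hd0 hQ0.le hρ1
        (fun i hi => by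
          have h1 : (i : ℝ) ≤ ⌈θ / κ⌉₊ := by
            have : i ≤ ⌈θ / κ⌉₊ := by omega
            exact_mod_cast this
          have h2 : κ * i - θ ≤ κ := by nlinarith
          have h3 : ρ ^ i * (n : ℝ) ^ (-θ) = (n : ℝ) ^ (κ * i - θ) := by
            rw [hρ, ← Real.rpow_natCast, ← Real.rpow_mul hn0.le, ← Real.rpow_add hn0]
            congr 1
          have h4 : (n : ℝ) ^ (κ * i - θ) ≤ ρ := by
            rw [hρ]; exact Real.rpow_le_rpow_of_exponent_le hn1 h2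
          rw [hd]
          have h5 : 0 < (n : ℝ) ^ (κ * i - θ) := by positivity
          have h6 : ρ ^ i * ((n : ℝ) ^ (-θ) / 2) = (n : ℝ) ^ (κ * i - θ) / 2 := by
            rw [← h3]; ring
          rw [h6]; linarith)
        hcase
      have h1 := bias2 hb hd0.le n hn hδb hWl (ρ ^ I)
      have h2 : ρ ≤ 2 * d * ρ ^ I := by
        have h3 : 2 * d * ρ ^ I = (n : ℝ) ^ (κ * I - θ) := by
          rw [hd, hρI, show 2 * ((n : ℝ) ^ (-θ) / 2) * (n : ℝ) ^ (κ * I) =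
            (n : ℝ) ^ (κ * I) * (n : ℝ) ^ (-θ) by ring, ← Real.rpow_add hn0]
          congr 1
        rw [h3, hρ]
        refine Real.rpow_le_rpow_of_exponent_le hn1 ?_
        rw [hIr]
        nlinarith
      have h3 : Real.exp (-(2 * d * ρ ^ I)) ≤ 1 / ρ := by
        have h4 : Real.exp (-(2 * d * ρ ^ I)) ≤ Real.exp (-ρ) := Real.exp_le_exp.2 (by linarith)
        refine h4.trans ?_
        rw [Real.exp_neg, ← one_div]
        refine one_div_le_one_div_of_le hρ0 ?_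
        have := Real.add_one_le_exp ρ
        linarith
      have h4 : 128 * (Q : ℝ) * ρ ^ 4 / (W * d) ≤ 512 * Q ^ 2 * (1 / ρ) := by
        have hWd0 : 0 < W * d := by positivity
        rw [div_le_iff₀ hWd0, mul_one_div, div_mul_eq_mul_div, le_div_iff₀ hρ0]
        have h5 : ρ ^ 5 ≤ ρ ^ 8 := pow_le_pow_right₀ hρ1 (by norm_num)
        nlinarith
      rw [hinv]
      have h5 : (I : ℝ) * (128 * Q * ρ ^ 4 / (W * d)) ≤ I * (512 * Q ^ 2 * (1 / ρ)) :=
        mul_le_mul_of_nonneg_left h4 hI0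
      have h6 : 0 ≤ 32 * (Q : ℝ) * (1 / ρ) := by positivity
      nlinarith
    · push Not at hcase
      refine htriv.trans ?_
      rw [hinv, mul_one_div, le_div_iff₀ hρ0, one_mul]
      have h1 : ρ ^ 8 < 32 * Q * ρ ^ 2 := by nlinarith
      have h2 : ρ ^ 6 < 32 * Q := by
        have h3 : ρ ^ 8 = ρ ^ 6 * ρ ^ 2 := by ring
        rw [h3] at h1
        exact lt_of_mul_lt_mul_right h1 (by positivity)
      have h3 : ρ ≤ ρ ^ 6 := le_self_pow₀ hρ1 (by norm_num)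
      nlinarith [mul_nonneg hI0 (sq_nonneg (Q : ℝ))]

end Pool.Agent.X149.PP
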