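import Mathlib
import Pool.Agent.X149.PP.Asym

set_option autoImplicit false

namespace Pool.Agent.X149.PP

open Finset

lemma E_mix {δ v d : ℕ → ℝ} (A : Finset ℕ)
    (h : ∀ m ∈ A, δ m = v m * (1 - d m) + (1 - v m) * d m) (φ : Finset ℕ → ℝ) :
    E δ A φ = E v A (fun V => E d A (fun N => φ (symmDiff V N))) := by
  induction A using Finset.induction_on generalizing φ with
  | empty => simp [E_empty]
  | insert a A ha ih =>
    have ih' := ih fun m hm => h m (mem_insert_of_mem hm)
    rw [E_insert δ ha, ih', ih', E_insert v ha]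
    have s1 : ∀ V ⊆ A, ∀ N ⊆ A, symmDiff V (insert a N) = insert a (symmDiff V N) := by
      intro V hV N hN
      have h1 : a ∉ V := fun h => ha (hV h)
      have h2 : a ∉ N := fun h => ha (hN h)
      ext x
      simp only [mem_symmDiff, mem_insert]
      by_cases hx : x = a
      · subst hx; simp [h1]
      · simp [hx]
    have s2 : ∀ V ⊆ A, ∀ N ⊆ A, symmDiff (insert a V) N = insert a (symmDiff V N) := by
      intro V hV N hN
      rw [symmDiff_comm, s1 N hN V hV, symmDiff_comm]
    have s3 : ∀ V ⊆ A, ∀ N ⊆ A, symmDiff (insert a V) (insert a N) = symmDiff V N := by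
      intro V hV N hN
      have h1 : a ∉ V := fun h => ha (hV h)
      have h2 : a ∉ N := fun h => ha (hN h)
      ext x
      simp only [mem_symmDiff, mem_insert]
      by_cases hx : x = a
      · subst hx; simp [h1, h2]
      · simp [hx]
    have e1 : E v A (fun V => E d (insert a A) (fun N => φ (symmDiff V N))) =
        (1 - d a) * E v A (fun V => E d A (fun N => φ (symmDiff V N))) +
        d a * E v A (fun V => E d A (fun N => φ (insert a (symmDiff V N)))) := by
      rw [← E_const_mul, ← E_const_mul, ← E_add]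
      refine E_congr v fun V hV => ?_
      rw [E_insert d ha]
      congr 2
      exact E_congr d fun N hN => by rw [s1 V hV N hN]
    have e2 : E v A (fun V => E d (insert a A) (fun N => φ (symmDiff (insert a V) N))) =
        (1 - d a) * E v A (fun V => E d A (fun N => φ (insert a (symmDiff V N)))) +
        d a * E v A (fun V => E d A (fun N => φ (symmDiff V N))) := by
      rw [← E_const_mul, ← E_const_mul, ← E_add]
      refine E_congr v fun V hV => ?_
      rw [E_insert d ha]
      congr 2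
      · exact E_congr d fun N hN => by rw [s2 V hV N hN]
      · exact E_congr d fun N hN => by rw [s3 V hV N hN]
    rw [e1, e2, h a (mem_insert_self _ _)]
    ring

lemma Good.mix {b : Set ℕ → ℕ → ZMod 2} (hb : Good b) (V : Set ℕ) :
    Good fun D n => b (symmDiff V D) n := by
  constructor
  · intro D
    exact hb.zero _
  · intro D m n hm hmD hn
    beta_reduce
    by_cases hV : m ∈ V
    · set Y : Set ℕ := symmDiff V (insert m D) with hY
      have h1 : symmDiff V D = insert m Y := by
        ext x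
        simp only [hY, Set.mem_symmDiff, Set.mem_insert_iff]
        by_cases hx : x = m
        · subst hx; simp [hV, hmD]
        · simp [hx]
      have h2 : m ∉ Y := by
        simp only [hY, Set.mem_symmDiff, Set.mem_insert_iff]
        simp [hV]
      rw [h1, hb.ins Y m n hm h2 hn]
      by_cases hmn : m ≤ n
      · rw [if_pos hmn, if_pos hmn, hb.ins_gt (by omega), add_assoc, CharTwo.add_self_eq_zero,
          add_zero]
      · rw [if_neg hmn, if_neg hmn, add_zero, add_zero]
    · have h1 : symmDiff V (insert m D) = insert m (symmDiff V D) := by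
        ext x
        simp only [Set.mem_symmDiff, Set.mem_insert_iff]
        by_cases hx : x = m
        · subst hx; simp [hV]
        · simp [hx]
      have h2 : m ∉ symmDiff V D := by
        simp only [Set.mem_symmDiff]
        simp [hV, hmD]
      rw [h1, hb.ins _ m n hm h2 hn]

/-- Power decay of the bias in general. -/
theorem decay3 {θ : ℝ} (hθ0 : 0 ≤ θ) (hθ : θ < 1) : ∃ κ : ℝ, 0 < κ ∧ κ ≤ 1 / 8 ∧ ∃ C : ℝ, 0 < C ∧
    ∀ b : Set ℕ → ℕ → ZMod 2, Good b → ∀ δ : ℕ → ℝ,
      (∀ m : ℕ, 1 ≤ m → (m : ℝ) ^ (-θ) / 2 ≤ δ m ∧ δ m ≤ 1 / 2) → ∀ n : ℕ, 1 ≤ n →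
      |E δ (Icc 1 n) (fun S => sg (b (S : Set ℕ) n))| ≤ C * (n : ℝ) ^ (-κ) := by
  obtain ⟨κ, hκ0, hκ1, C, hC, hdec⟩ := decay2 hθ0 hθ
  refine ⟨κ, hκ0, hκ1, C, hC, fun b hb δ hδ n hn => ?_⟩
  set d : ℕ → ℝ := fun m => (m : ℝ) ^ (-θ) / 2 with hd
  set v : ℕ → ℝ := fun m => (δ m - d m) / (1 - 2 * d m) with hv
  have hd2 : ∀ m ∈ Icc 1 n, 0 < d m ∧ d m ≤ 1 / 2 := by
    intro m hm
    rw [mem_Icc] at hm
    have h1 : (1 : ℝ) ≤ m := by exact_mod_cast hm.1
    have h3 : (m : ℝ) ^ (-θ) ≤ 1 := Real.rpow_le_one_of_one_le_of_nonpos h1 (by linarith)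
    have h4 : 0 < (m : ℝ) ^ (-θ) := by positivity
    simp only [hd]
    constructor <;> linarith
  have hmix : ∀ m ∈ Icc 1 n, δ m = v m * (1 - d m) + (1 - v m) * d m := by
    intro m hm
    have h1 := hd2 m hm
    have h2 := hδ m (mem_Icc.1 hm).1
    rcases eq_or_lt_of_le h1.2 with h3 | h3
    · have h4 : δ m = 1 / 2 := le_antisymm h2.2 (by rw [← h3]; exact h2.1)
      rw [h4, h3]; ring
    · have h4 : (1 : ℝ) - 2 * d m ≠ 0 := by
        have : 0 < 1 - 2 * d m := by linarith
        exact this.ne'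
      have h5 : v m * (1 - 2 * d m) = δ m - d m := by
        simp only [hv]; exact div_mul_cancel₀ _ h4
      linarith
  have hv2 : ∀ m ∈ Icc 1 n, 0 ≤ v m ∧ v m ≤ 1 := by
    intro m hm
    have h1 := hd2 m hm
    have h2 := hδ m (mem_Icc.1 hm).1
    have h2' : d m ≤ δ m := h2.1
    have h3 : 0 ≤ 1 - 2 * d m := by linarith
    refine ⟨div_nonneg (by linarith) h3, div_le_one_of_le₀ (by linarith) h3⟩
  rw [E_mix (Icc 1 n) hmix, ← E_const v (Icc 1 n) (C * (n : ℝ) ^ (-κ))]
  refine E_abs hv2 fun V _ => ?_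
  have h1 := hdec _ (hb.mix (V : Set ℕ)) d (fun m _ => rfl) n hn
  simp only [coe_symmDiff]
  exact h1

end Pool.Agent.X149.PP
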