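import Mathlib
import Pool.Agent.X149.PP.Prob
import Pool.Agent.X149.PP.Mix

set_option autoImplicit false

namespace Pool.Agent.X149.PP

open Finset MeasureTheory ProbabilityTheory Filter
open scoped ENNReal

variable {Ω : Type*} [MeasurableSpace Ω] {P : Measure Ω} [IsProbabilityMeasure P]
  {D : Ω → Set ℕ} (hDm : ∀ m, MeasurableSet {ω | m ∈ D ω})

include hDm in
lemma meansq2 {κ C : ℝ} (hκ0 : 0 < κ) (hκ1 : κ ≤ 1) (hC : 0 < C)
    (hbias : ∀ b : Set ℕ → ℕ → ZMod 2, Good b → Dep b → ∀ n : ℕ, 1 ≤ n →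
      |∫ ω, sg (b (D ω) n) ∂P| ≤ C * (n : ℝ) ^ (-κ))
    {b : Set ℕ → ℕ → ZMod 2} (hb : Good b) (hdep : Dep b) {ν : ℕ → ℕ}
    (hν : StrictMono ν) : ∀ K : ℕ, ∫ ω, SS b D ν K ω ^ 2 ∂P ≤
      (1 + 2 * C) * K * ((K : ℝ) + 1) ^ (1 - κ) := by
  intro K
  have hsm : ∀ n, Measurable fun ω => sg (b (D ω) n) := fun n => sg_meas hDm hdep n
  have hSm : ∀ K, Measurable fun ω => SS b D ν K ω := fun K => by
    unfold SS; exact Finset.measurable_fun_sum _ fun k _ => hsm _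
  induction K with
  | zero =>
    simp [SS]
  | succ K ih =>
    have h1 : ∀ ω, SS b D ν (K + 1) ω ^ 2 = SS b D ν K ω ^ 2 +
        2 * (∑ k ∈ range K, sg (b (D ω) (ν k)) * sg (b (D ω) (ν K))) + 1 := by
      intro ω
      rw [SS_succ]
      have h2 : sg (b (D ω) (ν K)) ^ 2 = 1 := by
        rw [← sq_abs, sg_abs]; norm_num
      rw [← sum_mul]
      change (SS b D ν K ω + _) ^ 2 = _ + 2 * (SS b D ν K ω * _) + 1
      nlinarith
    have hi1 : Integrable (fun ω => SS b D ν K ω ^ 2) P := by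
      refine Integrable.of_bound ((hSm K).pow_const 2).aestronglyMeasurable ((K : ℝ) ^ 2)
        (Eventually.of_forall fun ω => ?_)
      rw [Real.norm_eq_abs, abs_pow]
      exact pow_le_pow_left₀ (abs_nonneg _) (SS_abs _ _ _ _ _) 2
    have hi2 : ∀ k, Integrable (fun ω => sg (b (D ω) (ν k)) * sg (b (D ω) (ν K))) P := by
      intro k
      refine Integrable.of_bound ((hsm _).mul (hsm _)).aestronglyMeasurable 1
        (Eventually.of_forall fun ω => ?_)
      rw [Real.norm_eq_abs, abs_mul, sg_abs, sg_abs, one_mul]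
    have hpair : ∀ k ∈ range K, ∫ ω, sg (b (D ω) (ν k)) * sg (b (D ω) (ν K)) ∂P ≤
        C * (ν K : ℝ) ^ (-κ) := by
      intro k hk
      rw [mem_range] at hk
      have hlt := hν hk
      have hg := hb.shift (T := {0, ν K - ν k}) (by simp)
      have hd := hdep.shift {0, ν K - ν k}
      have h3 : ∀ ω, sg (b (D ω) (ν k)) * sg (b (D ω) (ν K)) =
          sg (shift b {0, ν K - ν k} (D ω) (ν K)) := by
        intro ω
        unfold shift
        rw [sum_pair (by omega), if_pos (by omega), if_pos (by omega), sg_add, Nat.sub_zero,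
          show ν K - (ν K - ν k) = ν k by omega, mul_comm]
      simp only [h3]
      exact (le_abs_self _).trans (hbias _ hg hd (ν K) (by omega))
    simp only [h1]
    rw [integral_add _ (integrable_const _), integral_add hi1 _, integral_const_mul,
      integral_finsetSum _ fun k _ => hi2 k]
    · have h4 : ∑ k ∈ range K, ∫ ω, sg (b (D ω) (ν k)) * sg (b (D ω) (ν K)) ∂P ≤
          C * ((K : ℝ) + 1) ^ (1 - κ) := by
        refine (sum_le_sum hpair).trans ?_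
        rw [sum_const, card_range, nsmul_eq_mul]
        rcases Nat.eq_zero_or_pos K with h | h
        · subst h
          simp only [Nat.cast_zero, zero_mul]
          positivity
        · have hK : K ≤ ν K := hν.id_le K
          have hK0 : (0 : ℝ) < K := by exact_mod_cast h
          have h6 : (K : ℝ) ≤ (ν K : ℝ) := by exact_mod_cast hK
          have h7 : (ν K : ℝ) ^ (-κ) ≤ (K : ℝ) ^ (-κ) :=
            Real.rpow_le_rpow_of_nonpos hK0 h6 (by linarith)
          have h8 : (K : ℝ) * (K : ℝ) ^ (-κ) = (K : ℝ) ^ (1 - κ) := by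
            nth_rw 1 [← Real.rpow_one (K : ℝ)]
            rw [← Real.rpow_add hK0]
            congr 1
          have h9 : (K : ℝ) ^ (1 - κ) ≤ ((K : ℝ) + 1) ^ (1 - κ) :=
            Real.rpow_le_rpow hK0.le (by linarith) (by linarith)
          calc (K : ℝ) * (C * (ν K : ℝ) ^ (-κ)) = C * (K * (ν K : ℝ) ^ (-κ)) := by ring
            _ ≤ C * (K * (K : ℝ) ^ (-κ)) := by
              exact mul_le_mul_of_nonneg_left (mul_le_mul_of_nonneg_left h7 hK0.le) hC.le
            _ ≤ _ := by rw [h8]; exact mul_le_mul_of_nonneg_left h9 hC.le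
      simp only [integral_const, probReal_univ, smul_eq_mul, one_mul]
      push_cast
      have hK1 : (1 : ℝ) ≤ ((K : ℝ) + 1) ^ (1 - κ) :=
        Real.one_le_rpow (by linarith [(Nat.cast_nonneg K : (0 : ℝ) ≤ K)]) (by linarith)
      have hK2 : ((K : ℝ) + 1) ^ (1 - κ) ≤ ((K : ℝ) + 1 + 1) ^ (1 - κ) :=
        Real.rpow_le_rpow (by positivity) (by linarith) (by linarith)
      have hK3 : (0 : ℝ) ≤ K := Nat.cast_nonneg K
      calc ∫ ω, SS b D ν K ω ^ 2 ∂P +
            2 * ∑ k ∈ range K, ∫ ω, sg (b (D ω) (ν k)) * sg (b (D ω) (ν K)) ∂P + 1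
          ≤ (1 + 2 * C) * K * ((K : ℝ) + 1) ^ (1 - κ) + 2 * (C * ((K : ℝ) + 1) ^ (1 - κ)) +
            ((K : ℝ) + 1) ^ (1 - κ) := by linarith
        _ = (1 + 2 * C) * (K + 1) * ((K : ℝ) + 1) ^ (1 - κ) := by ring
        _ ≤ _ := mul_le_mul_of_nonneg_left hK2 (by positivity)
    · exact (integrable_finsetSum _ fun k _ => hi2 k).const_mul 2
    · exact hi1.add ((integrable_finsetSum _ fun k _ => hi2 k).const_mul 2)

/-- Between consecutive powers. -/
lemma exists_pow_le {p : ℕ} (hp : 1 ≤ p) (K : ℕ) : ∃ k : ℕ, k ^ p ≤ K ∧ K < (k + 1) ^ p := by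
  classical
  set k := Nat.findGreatest (fun k => k ^ p ≤ K) K with hk
  have h1 : k ^ p ≤ K := Nat.findGreatest_spec (P := fun k => k ^ p ≤ K) (Nat.zero_le K) (by
    rw [zero_pow (by omega)]; exact Nat.zero_le K)
  refine ⟨k, h1, ?_⟩
  rcases Nat.lt_or_ge K (k + 1) with h | h
  · exact h.trans_le (Nat.le_self_pow (by omega) (k + 1))
  · by_contra hcon
    push Not at hcon
    exact Nat.findGreatest_is_greatest (P := fun k => k ^ p ≤ K) (Nat.lt_succ_self k) h hcon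

include hDm in
theorem almost_sure2 {κ C : ℝ} (hκ0 : 0 < κ) (hκ1 : κ ≤ 1 / 8) (hC : 0 < C)
    (hbias : ∀ b : Set ℕ → ℕ → ZMod 2, Good b → Dep b → ∀ n : ℕ, 1 ≤ n →
      |∫ ω, sg (b (D ω) n) ∂P| ≤ C * (n : ℝ) ^ (-κ))
    {b : Set ℕ → ℕ → ZMod 2} (hb : Good b) (hdep : Dep b) {ν : ℕ → ℕ}
    (hν : StrictMono ν) : ∀ᵐ ω ∂P, ∃ C : ℝ, ∀ K : ℕ,
      |SS b D ν K ω| ≤ C * ((K : ℝ) + 1) ^ (1 - κ / 8) := by
  have hms := meansq2 hDm hκ0 (by linarith) hC hbias hb hdep hν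
  have hsm : ∀ n, Measurable fun ω => sg (b (D ω) n) := fun n => sg_meas hDm hdep n
  have hSm : ∀ K, Measurable fun ω => SS b D ν K ω := fun K => by
    unfold SS; exact Finset.measurable_fun_sum _ fun k _ => hsm _
  have hi1 : ∀ K, Integrable (fun ω => SS b D ν K ω ^ 2) P := by
    intro K
    refine Integrable.of_bound ((hSm K).pow_const 2).aestronglyMeasurable ((K : ℝ) ^ 2)
      (Eventually.of_forall fun ω => ?_)
    rw [Real.norm_eq_abs, abs_pow]
    exact pow_le_pow_left₀ (abs_nonneg _) (SS_abs _ _ _ _ _) 2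
  set p : ℕ := ⌈4 / κ⌉₊ with hp
  have hpκ : 4 ≤ p * κ := by
    have h1 := Nat.le_ceil (4 / κ)
    rw [← hp, div_le_iff₀ hκ0] at h1
    exact h1
  have hpκ2 : p * κ ≤ 8 := by
    have h1 := Nat.ceil_lt_add_one (show 0 ≤ 4 / κ by positivity)
    rw [← hp] at h1
    have h2 : (p : ℝ) * κ < (4 / κ + 1) * κ := mul_lt_mul_of_pos_right h1 hκ0
    have h3 : (4 / κ + 1) * κ = 4 + κ := by field_simp
    linarith
  have hp1 : 1 ≤ p := by
    rcases Nat.eq_zero_or_pos p with h | h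
    · rw [h] at hpκ; norm_num at hpκ
    · exact h
  have hpr : (1 : ℝ) ≤ p := by exact_mod_cast hp1
  set s : ℝ := p * (2 - κ / 4) with hs
  set g : Ω → ℝ≥0∞ := fun ω => ∑' k : ℕ,
    ENNReal.ofReal (SS b D ν (k ^ p) ω ^ 2 * ((k : ℝ) + 1) ^ (-s)) with hg
  have hgm : Measurable g := Measurable.ennreal_tsum fun k =>
    (((hSm (k ^ p)).pow_const 2).mul_const _).ennreal_ofReal
  have hgint : ∫⁻ ω, g ω ∂P < ∞ := by
    rw [hg, lintegral_tsum fun k =>
      (((hSm (k ^ p)).pow_const 2).mul_const _).ennreal_ofReal.aemeasurable]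
    have h1 : ∀ k : ℕ, ∫⁻ ω, ENNReal.ofReal (SS b D ν (k ^ p) ω ^ 2 * ((k : ℝ) + 1) ^ (-s)) ∂P ≤
        ENNReal.ofReal ((1 + 2 * C) * ((k : ℝ) + 1) ^ (-(3 : ℝ))) := by
      intro k
      have hk0 : (0 : ℝ) < (k : ℝ) + 1 := by positivity
      have hk1 : (1 : ℝ) ≤ (k : ℝ) + 1 := by
        linarith [(Nat.cast_nonneg k : (0 : ℝ) ≤ k)]
      rw [← ofReal_integral_eq_lintegral_ofReal ((hi1 (k ^ p)).mul_const _)
        (Eventually.of_forall fun ω => by positivity)]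
      refine ENNReal.ofReal_le_ofReal ?_
      rw [integral_mul_const]
      have h2 := hms (k ^ p)
      push_cast at h2
      have h3 : (k : ℝ) ^ p ≤ ((k : ℝ) + 1) ^ p :=
        pow_le_pow_left₀ (Nat.cast_nonneg _) (by linarith) p
      have h4 : (k : ℝ) ^ p + 1 ≤ ((k : ℝ) + 1) ^ p := by
        have h5 : k ^ p + 1 ≤ (k + 1) ^ p := by
          have : k ^ p < (k + 1) ^ p := Nat.pow_lt_pow_left (Nat.lt_succ_self k) (by omega)
          omega
        exact_mod_cast h5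
      have h5 : (k : ℝ) ^ p * ((k : ℝ) ^ p + 1) ^ (1 - κ) ≤ ((k : ℝ) + 1) ^ ((p : ℝ) * (2 - κ)) := by
        calc (k : ℝ) ^ p * ((k : ℝ) ^ p + 1) ^ (1 - κ)
            ≤ ((k : ℝ) + 1) ^ p * (((k : ℝ) + 1) ^ p) ^ (1 - κ) := by
              refine mul_le_mul h3 (Real.rpow_le_rpow (by positivity) h4 (by linarith))
                (by positivity) (by positivity)
          _ = ((k : ℝ) + 1) ^ ((p : ℝ) * (2 - κ)) := by
              rw [← Real.rpow_natCast, ← Real.rpow_mul hk0.le, ← Real.rpow_add hk0]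
              congr 1
              ring
      have h6 : ((k : ℝ) + 1) ^ ((p : ℝ) * (2 - κ)) * ((k : ℝ) + 1) ^ (-s) ≤
          ((k : ℝ) + 1) ^ (-(3 : ℝ)) := by
        rw [← Real.rpow_add hk0]
        refine Real.rpow_le_rpow_of_exponent_le hk1 ?_
        rw [hs]
        nlinarith
      calc (∫ ω, SS b D ν (k ^ p) ω ^ 2 ∂P) * ((k : ℝ) + 1) ^ (-s)
          ≤ ((1 + 2 * C) * (k : ℝ) ^ p * ((k : ℝ) ^ p + 1) ^ (1 - κ)) * ((k : ℝ) + 1) ^ (-s) :=
            mul_le_mul_of_nonneg_right h2 (by positivity)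
        _ = (1 + 2 * C) * ((k : ℝ) ^ p * ((k : ℝ) ^ p + 1) ^ (1 - κ)) * ((k : ℝ) + 1) ^ (-s) := by
            ring
        _ ≤ (1 + 2 * C) * ((k : ℝ) + 1) ^ ((p : ℝ) * (2 - κ)) * ((k : ℝ) + 1) ^ (-s) :=
            mul_le_mul_of_nonneg_right (mul_le_mul_of_nonneg_left h5 (by positivity))
              (by positivity)
        _ = (1 + 2 * C) * (((k : ℝ) + 1) ^ ((p : ℝ) * (2 - κ)) * ((k : ℝ) + 1) ^ (-s)) := by ring
        _ ≤ _ := mul_le_mul_of_nonneg_left h6 (by positivity)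
    refine lt_of_le_of_lt (ENNReal.tsum_le_tsum h1) ?_
    have h2 : Summable fun k : ℕ => (1 + 2 * C) * ((k : ℝ) + 1) ^ (-(3 : ℝ)) := by
      refine Summable.mul_left _ ?_
      have h3 : Summable fun k : ℕ => ((k : ℝ)) ^ (-(3 : ℝ)) :=
        Real.summable_nat_rpow.2 (by norm_num)
      refine ((summable_nat_add_iff 1).2 h3).congr fun k => ?_
      push_cast
      rfl
    exact lt_top_iff_ne_top.2 h2.tsum_ofReal_ne_top
  filter_upwards [ae_lt_top hgm hgint.ne] with ω hω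
  set G : ℝ := (g ω).toReal with hG
  have hG0 : 0 ≤ G := ENNReal.toReal_nonneg
  refine ⟨(Real.sqrt G + p) * 2 ^ p, fun K => ?_⟩
  obtain ⟨k, hk1, hk2⟩ := exists_pow_le hp1 K
  have hk0 : (0 : ℝ) < (k : ℝ) + 1 := by positivity
  have hk1' : (1 : ℝ) ≤ (k : ℝ) + 1 := by linarith [(Nat.cast_nonneg k : (0 : ℝ) ≤ k)]
  set Y : ℝ := ((k : ℝ) + 1) ^ p with hY
  have hY0 : 0 < Y := by positivity
  have hY1 : 1 ≤ Y := one_le_pow₀ hk1'
  have hYr : Y = ((k : ℝ) + 1) ^ (p : ℝ) := by rw [hY, Real.rpow_natCast]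
  obtain ⟨L, hL⟩ := Nat.exists_eq_add_of_le hk1
  have h3 := SS_diff b D ν (k ^ p) L ω
  rw [← hL] at h3
  have h4 : SS b D ν (k ^ p) ω ^ 2 ≤ G * ((k : ℝ) + 1) ^ s := by
    have h5 : ENNReal.ofReal (SS b D ν (k ^ p) ω ^ 2 * ((k : ℝ) + 1) ^ (-s)) ≤ g ω :=
      ENNReal.le_tsum k
    have h6 := ENNReal.toReal_mono hω.ne h5
    rw [ENNReal.toReal_ofReal (by positivity)] at h6
    have h7 : ((k : ℝ) + 1) ^ (-s) * ((k : ℝ) + 1) ^ s = 1 := by
      rw [← Real.rpow_add hk0]; simp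
    calc SS b D ν (k ^ p) ω ^ 2 = (SS b D ν (k ^ p) ω ^ 2 * ((k : ℝ) + 1) ^ (-s)) *
          ((k : ℝ) + 1) ^ s := by rw [mul_assoc, h7, mul_one]
      _ ≤ _ := mul_le_mul_of_nonneg_right h6 (by positivity)
  have h5 : |SS b D ν (k ^ p) ω| ≤ Real.sqrt G * Y ^ (1 - κ / 8) := by
    refine abs_le_of_sq_le_sq ?_ (by positivity)
    refine h4.trans (le_of_eq ?_)
    rw [mul_pow, Real.sq_sqrt hG0, hYr, ← Real.rpow_natCast, ← Real.rpow_mul hk0.le,
      ← Real.rpow_mul hk0.le]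
    congr 2
    rw [hs]; push_cast; ring
  have h6 : (L : ℝ) ≤ p * Y ^ (1 - κ / 8) := by
    have h7 : (L : ℝ) ≤ Y - (k : ℝ) ^ p := by
      have h8 : k ^ p + L ≤ (k + 1) ^ p := by omega
      have h9 : (k : ℝ) ^ p + L ≤ ((k : ℝ) + 1) ^ p := by exact_mod_cast h8
      rw [hY]; linarith
    have h8 : Y - (k : ℝ) ^ p ≤ p * (Y / ((k : ℝ) + 1)) := by
      have h9 : 1 + (p : ℝ) * (-(1 / ((k : ℝ) + 1))) ≤ (1 + -(1 / ((k : ℝ) + 1))) ^ p := by
        refine one_add_mul_le_pow ?_ p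
        have : 1 / ((k : ℝ) + 1) ≤ 1 := by rw [div_le_one hk0]; exact hk1'
        linarith
      have h10 : (1 + -(1 / ((k : ℝ) + 1))) = (k : ℝ) / ((k : ℝ) + 1) := by field_simp; ring
      rw [h10, div_pow] at h9
      have h11 : (k : ℝ) ^ p = (k : ℝ) ^ p / ((k : ℝ) + 1) ^ p * Y := by
        rw [hY]; field_simp
      have h12 : (1 + (p : ℝ) * (-(1 / ((k : ℝ) + 1)))) * Y ≤ (k : ℝ) ^ p := by
        rw [h11]; exact mul_le_mul_of_nonneg_right h9 hY0.le
      have h13 : (1 + (p : ℝ) * (-(1 / ((k : ℝ) + 1)))) * Y = Y - p * (Y / ((k : ℝ) + 1)) := by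
        field_simp; ring
      linarith
    have h9 : Y / ((k : ℝ) + 1) ≤ Y ^ (1 - κ / 8) := by
      have h10 : Y / ((k : ℝ) + 1) = ((k : ℝ) + 1) ^ ((p : ℝ) - 1) := by
        rw [hYr, Real.rpow_sub hk0, Real.rpow_one]
      rw [h10, hYr, ← Real.rpow_mul hk0.le]
      refine Real.rpow_le_rpow_of_exponent_le hk1' ?_
      nlinarith
    have h10 : (p : ℝ) * (Y / ((k : ℝ) + 1)) ≤ p * Y ^ (1 - κ / 8) :=
      mul_le_mul_of_nonneg_left h9 (by positivity)
    linarith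
  have h7 : Y ^ (1 - κ / 8) ≤ 2 ^ p * ((K : ℝ) + 1) ^ (1 - κ / 8) := by
    have h8 : Y ≤ 2 ^ p * ((K : ℝ) + 1) := by
      rcases Nat.eq_zero_or_pos k with h | h
      · subst h
        rw [hY]
        simp only [Nat.cast_zero, zero_add, one_pow]
        have h9 : (1 : ℝ) ≤ 2 ^ p := one_le_pow₀ (by norm_num)
        have h10 : (0 : ℝ) ≤ K := Nat.cast_nonneg K
        nlinarith
      · have h9 : (k : ℝ) + 1 ≤ 2 * k := by
          have : (1 : ℝ) ≤ k := by exact_mod_cast h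
          linarith
        have h10 : Y ≤ (2 * (k : ℝ)) ^ p := pow_le_pow_left₀ hk0.le h9 p
        have h11 : (k : ℝ) ^ p ≤ K := by exact_mod_cast hk1
        rw [mul_pow] at h10
        have h12 : (2 : ℝ) ^ p * (k : ℝ) ^ p ≤ 2 ^ p * ((K : ℝ) + 1) :=
          mul_le_mul_of_nonneg_left (by linarith) (by positivity)
        linarith
    calc Y ^ (1 - κ / 8) ≤ (2 ^ p * ((K : ℝ) + 1)) ^ (1 - κ / 8) :=
          Real.rpow_le_rpow hY0.le h8 (by linarith)
      _ = ((2 : ℝ) ^ p) ^ (1 - κ / 8) * ((K : ℝ) + 1) ^ (1 - κ / 8) :=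
          Real.mul_rpow (by positivity) (by positivity)
      _ ≤ 2 ^ p * ((K : ℝ) + 1) ^ (1 - κ / 8) := by
          refine mul_le_mul_of_nonneg_right ?_ (by positivity)
          calc ((2 : ℝ) ^ p) ^ (1 - κ / 8) ≤ ((2 : ℝ) ^ p) ^ (1 : ℝ) :=
                Real.rpow_le_rpow_of_exponent_le (one_le_pow₀ (by norm_num)) (by linarith)
            _ = 2 ^ p := Real.rpow_one _
  calc |SS b D ν K ω| ≤ |SS b D ν (k ^ p) ω| + L := h3
    _ ≤ Real.sqrt G * Y ^ (1 - κ / 8) + p * Y ^ (1 - κ / 8) := add_le_add h5 h6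
    _ = (Real.sqrt G + p) * Y ^ (1 - κ / 8) := by ring
    _ ≤ (Real.sqrt G + p) * (2 ^ p * ((K : ℝ) + 1) ^ (1 - κ / 8)) :=
        mul_le_mul_of_nonneg_left h7 (by positivity)
    _ = _ := by ring

end Pool.Agent.X149.PP
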