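import Mathlib
import Pool.Agent.X149.PP.Part
import Pool.Agent.X149.PP.Ser
import Pool.Agent.X149.PP.Sure

set_option autoImplicit false

namespace Pool.Agent.X149.PP

open Finset MeasureTheory ProbabilityTheory Filter
open scoped ENNReal

universe u

/-- The hypotheses on the random set. -/
structure RandomSet {Ω : Type u} [MeasurableSpace Ω] (P : Measure Ω) (D : Ω → Set ℕ) (θ : ℝ) :
    Prop where
  meas : ∀ m, MeasurableSet {ω | m ∈ D ω}
  indep : iIndepSet (fun m => {ω | m ∈ D ω}) P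
  prob : ∀ m : ℕ, 1 ≤ m → (m : ℝ) ^ (-θ) / 2 ≤ P.real {ω | m ∈ D ω} ∧
    P.real {ω | m ∈ D ω} ≤ 1 / 2

/-- The exponent in the error term. -/
theorem exists_alpha {θ : ℝ} (hθ0 : 0 ≤ θ) (hθ : θ < 1) : ∃ α : ℝ, 0 < α ∧ α < 1 ∧
    ∀ (Ω : Type u) [MeasurableSpace Ω] (P : Measure Ω) [IsProbabilityMeasure P]
      (D : Ω → Set ℕ), RandomSet P D θ → ∀ b : Set ℕ → ℕ → ZMod 2, Good b → Dep b →
      ∀ ν : ℕ → ℕ, StrictMono ν → ∀ᵐ ω ∂P, ∃ C : ℝ, ∀ K : ℕ,
        |SS b D ν K ω| ≤ C * ((K : ℝ) + 1) ^ α := by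
  obtain ⟨κ, hκ0, hκ1, C, hC, hdec⟩ := decay3 hθ0 hθ
  refine ⟨1 - κ / 8, by linarith, by linarith, ?_⟩
  intro Ω _ P _ D hD b hb hdep ν hν
  refine almost_sure2 hD.meas hκ0 hκ1 hC ?_ hb hdep hν
  intro b hb hdep n hn
  rw [integral_sg hD.meas hD.indep hdep n]
  exact hdec b hb _ hD.prob n hn

/-- All products of signs at shifted positions cancel. -/
theorem products2 {θ α : ℝ} {Ω : Type u} [MeasurableSpace Ω] {P : Measure Ω}
    [IsProbabilityMeasure P] {D : Ω → Set ℕ} (_ : RandomSet P D θ)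
    (hα : ∀ b : Set ℕ → ℕ → ZMod 2, Good b → Dep b →
      ∀ ν : ℕ → ℕ, StrictMono ν → ∀ᵐ ω ∂P, ∃ C : ℝ, ∀ K : ℕ,
        |SS b D ν K ω| ≤ C * ((K : ℝ) + 1) ^ α)
    {b : Set ℕ → ℕ → ZMod 2} (hb : Good b) (hdep : Dep b) {ν : ℕ → ℕ}
    (hν : StrictMono ν) : ∀ᵐ ω ∂P, ∀ H : Finset ℕ, H.Nonempty → ∃ C : ℝ, ∀ K : ℕ,
      |∑ k ∈ range K, ∏ h ∈ H, sg (b (D ω) (ν k + h))| ≤ C * ((K : ℝ) + 1) ^ α := by
  rw [ae_all_iff]
  intro H
  by_cases hH : H.Nonempty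
  · have hg := hb.shift (T := H.image fun h => H.max' hH - h) (by
      rw [mem_image]
      exact ⟨H.max' hH, H.max'_mem hH, by omega⟩)
    have hd := hdep.shift (H.image fun h => H.max' hH - h)
    have hν' : StrictMono fun k => ν k + H.max' hH := fun i j hij => by
      have := hν hij
      simp only
      omega
    filter_upwards [hα _ hg hd _ hν'] with ω hω
    intro _
    obtain ⟨C, hC⟩ := hω
    refine ⟨C, fun K => ?_⟩
    have h1 := hC K
    unfold SS at h1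
    simp only [shift_eq b hH] at h1
    exact h1
  · exact Eventually.of_forall fun ω h => absurd h hH

/-- From products of signs to patterns. -/
lemma pattern2 {α : ℝ} {a : ℕ → ℕ} {ν : ℕ → ℕ} (h : ∀ H : Finset ℕ, H.Nonempty → ∃ C : ℝ, ∀ K : ℕ,
      |∑ k ∈ range K, ∏ h ∈ H, sg ((a (ν k + h) : ℕ) : ZMod 2)| ≤ C * ((K : ℝ) + 1) ^ α)
    (H O : Finset ℕ) : ∃ C : ℝ, ∀ K : ℕ,
      |(((range K).filter fun k => ∀ h ∈ H, (Odd (a (ν k + h)) ↔ h ∈ O)).card : ℝ) -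
        K / 2 ^ H.card| ≤ C * ((K : ℝ) + 1) ^ α := by
  classical
  choose! C hC using h
  set s : ℕ → ℝ := fun h => if h ∈ O then -1 else 1 with hs
  have hcount : ∀ K : ℕ, (((range K).filter fun k => ∀ h ∈ H, (Odd (a (ν k + h)) ↔ h ∈ O)).card : ℝ) =
      (1 / 2 ^ H.card) * ∑ T ∈ H.powerset, (∏ h ∈ T, s h) *
        ∑ k ∈ range K, ∏ h ∈ T, sg ((a (ν k + h) : ℕ) : ZMod 2) := by
    intro K
    rw [card_filter, Nat.cast_sum]
    have h1 : ∀ k, (((if ∀ h ∈ H, (Odd (a (ν k + h)) ↔ h ∈ O) then 1 else 0 : ℕ)) : ℝ) =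
        ∏ h ∈ H, ((1 + s h * sg ((a (ν k + h) : ℕ) : ZMod 2)) / 2) := by
      intro k
      have h2 : ∀ h, (1 + s h * sg ((a (ν k + h) : ℕ) : ZMod 2)) / 2 =
          if (Odd (a (ν k + h)) ↔ h ∈ O) then 1 else 0 := by
        intro h
        rw [sg_cast]
        simp only [hs]
        by_cases h3 : h ∈ O <;> by_cases h4 : Odd (a (ν k + h)) <;> simp [h3, h4]
      simp only [h2]
      by_cases h3 : ∀ h ∈ H, (Odd (a (ν k + h)) ↔ h ∈ O)
      · rw [if_pos h3, prod_congr rfl fun h hh => if_pos (h3 h hh)]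
        simp
      · rw [if_neg h3]
        push Not at h3
        obtain ⟨h, hh, hne⟩ := h3
        symm
        rw [Nat.cast_zero]
        refine prod_eq_zero hh (if_neg ?_)
        intro hiff
        rcases hne with ⟨h5, h6⟩ | ⟨h5, h6⟩
        · exact h6 (hiff.1 h5)
        · exact h5 (hiff.2 h6)
    simp only [h1]
    have h2 : ∀ k, ∏ h ∈ H, ((1 + s h * sg ((a (ν k + h) : ℕ) : ZMod 2)) / 2) =
        (1 / 2 ^ H.card) * ∑ T ∈ H.powerset, (∏ h ∈ T, s h) *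
          ∏ h ∈ T, sg ((a (ν k + h) : ℕ) : ZMod 2) := by
      intro k
      rw [prod_div_distrib, prod_const, prod_one_add]
      simp only [prod_mul_distrib]
      ring
    simp only [h2]
    rw [← mul_sum, sum_comm]
    congr 1
    refine sum_congr rfl fun T _ => ?_
    rw [mul_sum]
  refine ⟨∑ T ∈ H.powerset, |C T|, fun K => ?_⟩
  rw [hcount K, ← sum_erase_add _ _ (empty_mem_powerset H)]
  simp only [prod_empty, sum_const, card_range, nsmul_eq_mul, mul_one, one_mul]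
  have h1 : 1 / 2 ^ H.card * (∑ T ∈ H.powerset.erase ∅, (∏ h ∈ T, s h) *
      ∑ k ∈ range K, ∏ h ∈ T, sg ((a (ν k + h) : ℕ) : ZMod 2) + K) - K / 2 ^ H.card =
      1 / 2 ^ H.card * ∑ T ∈ H.powerset.erase ∅, (∏ h ∈ T, s h) *
      ∑ k ∈ range K, ∏ h ∈ T, sg ((a (ν k + h) : ℕ) : ZMod 2) := by ring
  rw [h1, abs_mul]
  have h2 : |(1 : ℝ) / 2 ^ H.card| ≤ 1 := by
    rw [abs_of_nonneg (by positivity), div_le_one (by positivity)]
    exact one_le_pow₀ (by norm_num)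
  have h3 : |∑ T ∈ H.powerset.erase ∅, (∏ h ∈ T, s h) *
      ∑ k ∈ range K, ∏ h ∈ T, sg ((a (ν k + h) : ℕ) : ZMod 2)| ≤
      (∑ T ∈ H.powerset, |C T|) * ((K : ℝ) + 1) ^ α := by
    refine (abs_sum_le_sum_abs _ _).trans ?_
    rw [sum_mul]
    refine (sum_le_sum fun T hT => ?_).trans
      (sum_le_sum_of_subset_of_nonneg (erase_subset _ _) fun T _ _ => by positivity)
    rw [mem_erase] at hT
    rw [abs_mul, abs_prod]
    have h4 : ∏ h ∈ T, |s h| = 1 := prod_eq_one fun h _ => by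
      simp only [hs]; split_ifs <;> simp
    rw [h4, one_mul]
    refine (hC T (nonempty_iff_ne_empty.2 hT.1) K).trans ?_
    exact mul_le_mul_of_nonneg_right (le_abs_self _) (by positivity)
  calc |(1 : ℝ) / 2 ^ H.card| * |∑ T ∈ H.powerset.erase ∅, (∏ h ∈ T, s h) *
      ∑ k ∈ range K, ∏ h ∈ T, sg ((a (ν k + h) : ℕ) : ZMod 2)|
      ≤ 1 * ((∑ T ∈ H.powerset, |C T|) * ((K : ℝ) + 1) ^ α) :=
        mul_le_mul h2 h3 (abs_nonneg _) (by norm_num)
    _ = _ := one_mul _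


theorem main_t2 {θ : ℝ} (hθ0 : 0 ≤ θ) (hθ : θ < 1) : ∃ α : ℝ, 0 < α ∧ α < 1 ∧
    ∀ (Ω : Type u) [MeasurableSpace Ω] (P : Measure Ω) [IsProbabilityMeasure P]
      (D : Ω → Set ℕ), RandomSet P D θ → ∀ ν : ℕ → ℕ, StrictMono ν →
      (∀ᵐ ω ∂P, ∀ t : ℕ, Odd t → ∀ H O : Finset ℕ, ∃ C : ℝ, ∀ K : ℕ,
        |(((range K).filter fun k => ∀ h ∈ H, (Odd (pt t (D ω) (ν k + h)) ↔ h ∈ O)).card : ℝ) -
          K / 2 ^ H.card| ≤ C * ((K : ℝ) + 1) ^ α) ∧
      ∀ f : PowerSeries ℤ, Odd (PowerSeries.coeff 0 f) →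
        (∀ᵐ ω ∂P, ∀ H O : Finset ℕ, ∃ C : ℝ, ∀ K : ℕ,
        |(((range K).filter fun k => ∀ h ∈ H, (Odd (cf ℤ f (D ω) (ν k + h)) ↔ h ∈ O)).card : ℝ) -
          K / 2 ^ H.card| ≤ C * ((K : ℝ) + 1) ^ α) := by
  obtain ⟨α, hα0, hα1, hα⟩ := exists_alpha.{u} hθ0 hθ
  refine ⟨α, hα0, hα1, fun Ω _ P _ D hD ν hν => ⟨?_, fun f hf => ?_⟩⟩
  · rw [ae_all_iff]
    intro t
    by_cases ht : Odd t
    · filter_upwards [products2 hD (hα Ω P D hD) (bt_good ht) (bt_dep t) hν] with ω hω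
      intro _ H O
      refine pattern2 (a := fun n => pt t (D ω) n) (fun H hH => ?_) H O
      obtain ⟨C, hC⟩ := hω H hH
      refine ⟨C, fun K => ?_⟩
      simp only [pt_cast]
      exact hC K
    · exact Eventually.of_forall fun ω h => absurd h ht
  · classical
    have hf' : PowerSeries.coeff 0 (PowerSeries.map (Int.castRingHom (ZMod 2)) f) = 1 := by
      rw [PowerSeries.coeff_map]
      obtain ⟨c, hc⟩ := hf
      rw [hc]
      simp only [eq_intCast]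
      push_cast
      have h2 : (2 : ZMod 2) = 0 := rfl
      rw [h2]; ring
    filter_upwards [products2 hD (hα Ω P D hD) (cf_good hf') (cf_dep _) hν] with ω hω
    intro H O
    have hodd : ∀ n : ℕ, Odd (cf ℤ f (D ω) n) ↔ Odd (cf ℤ f (D ω) n).natAbs := fun n =>
      (Int.natAbs_odd).symm
    simp only [hodd]
    refine pattern2 (a := fun n => (cf ℤ f (D ω) n).natAbs) (fun H hH => ?_) H O
    obtain ⟨C, hC⟩ := hω H hH
    refine ⟨C, fun K => ?_⟩
    have hcast : ∀ n : ℕ, (((cf ℤ f (D ω) n).natAbs : ℕ) : ZMod 2) =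
        cf (ZMod 2) (PowerSeries.map (Int.castRingHom (ZMod 2)) f) (D ω) n := by
      intro n
      rw [← cf_cast]
      rcases Int.natAbs_eq (cf ℤ f (D ω) n) with h | h
      · conv_rhs => rw [h]
        rw [Int.cast_natCast]
      · conv_rhs => rw [h]
        rw [Int.cast_neg, Int.cast_natCast, CharTwo.neg_eq]
    simp only [hcast]
    exact hC K

end Pool.Agent.X149.PP
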