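import Mathlib
import Pool.Agent.X149.PP.Main2

set_option autoImplicit false

namespace Pool.Agent.X149.PP

open Finset MeasureTheory ProbabilityTheory Filter
open scoped ENNReal

universe u

lemma Dep.mix {b : Set ℕ → ℕ → ZMod 2} (hb : Dep b) (V : Set ℕ) :
    Dep fun D n => b (symmDiff V D) n := by
  intro D D' n h
  refine hb _ _ n fun m h1 h2 => ?_
  have := h m h1 h2
  simp only [Set.mem_symmDiff]
  tauto

/-- Patterns of parities, with an error exponent `α`. -/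
def Pat (α : ℝ) (a : ℕ → ℤ) (ν : ℕ → ℕ) : Prop :=
  ∀ H O : Finset ℕ, ∃ C : ℝ, ∀ K : ℕ,
    |(Nat.card {k : ℕ // k < K ∧ ∀ h ∈ H, (Odd (a (ν k + h)) ↔ h ∈ O)} : ℝ) -
      (K : ℝ) / 2 ^ H.card| ≤ C * ((K : ℝ) + 1) ^ α

lemma Pat.of {α : ℝ} {a : ℕ → ℤ} {ν : ℕ → ℕ} (h : ∀ H : Finset ℕ, H.Nonempty → ∃ C : ℝ, ∀ K : ℕ,
      |∑ k ∈ range K, ∏ h ∈ H, sg ((a (ν k + h) : ℤ) : ZMod 2)| ≤ C * ((K : ℝ) + 1) ^ α) :
    Pat α a ν := by
  classical
  intro H O
  have h1 : ∀ n : ℕ, (((a n).natAbs : ℕ) : ZMod 2) = ((a n : ℤ) : ZMod 2) := by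
    intro n
    rcases Int.natAbs_eq (a n) with h | h
    · conv_rhs => rw [h]
      rw [Int.cast_natCast]
    · conv_rhs => rw [h]
      rw [Int.cast_neg, Int.cast_natCast, CharTwo.neg_eq]
  obtain ⟨C, hC⟩ := pattern2 (a := fun n => (a n).natAbs) (ν := ν) (fun H hH => by
    obtain ⟨C, hC⟩ := h H hH
    refine ⟨C, fun K => ?_⟩
    simp only [h1]
    exact hC K) H O
  refine ⟨C, fun K => ?_⟩
  have h2 : Nat.card {k : ℕ // k < K ∧ ∀ h ∈ H, (Odd (a (ν k + h)) ↔ h ∈ O)} =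
      ((range K).filter fun k => ∀ h ∈ H, (Odd (a (ν k + h)).natAbs ↔ h ∈ O)).card := by
    refine Nat.subtype_card _ fun k => ?_
    rw [mem_filter, mem_range]
    simp only [Int.natAbs_odd]
  rw [h2]
  exact hC K

theorem main_t3 {θ : ℝ} (hθ0 : 0 ≤ θ) (hθ : θ < 1) : ∃ α : ℝ, 0 < α ∧ α < 1 ∧
    ∀ (Ω : Type u) [MeasurableSpace Ω] (P : Measure Ω) [IsProbabilityMeasure P]
      (D : Ω → Set ℕ), RandomSet P D θ → ∀ ν : ℕ → ℕ, StrictMono ν →
      (∀ᵐ ω ∂P, ∀ D' : Set ℕ, (symmDiff D' (D ω)).Finite → ∀ t : ℕ, Odd t →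
        Pat α (fun n => (pt t D' n : ℤ)) ν) ∧
      ∀ f : PowerSeries ℤ, Odd (PowerSeries.coeff 0 f) →
        (∀ᵐ ω ∂P, ∀ D' : Set ℕ, (symmDiff D' (D ω)).Finite → Pat α (cf ℤ f D') ν) := by
  obtain ⟨α, hα0, hα1, hα⟩ := exists_alpha.{u} hθ0 hθ
  have hset : ∀ (D' D₀ : Set ℕ) (h : (symmDiff D' D₀).Finite),
      D' = symmDiff (h.toFinset : Set ℕ) D₀ := by
    intro D' D₀ h
    rw [h.coe_toFinset, symmDiff_symmDiff_cancel_right]
  refine ⟨α, hα0, hα1, fun Ω _ P _ D hD ν hν => ⟨?_, fun f hf => ?_⟩⟩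
  · have h1 : ∀ᵐ ω ∂P, ∀ F : Finset ℕ, ∀ t : ℕ, Odd t →
        Pat α (fun n => (pt t (symmDiff (F : Set ℕ) (D ω)) n : ℤ)) ν := by
      rw [ae_all_iff]
      intro F
      rw [ae_all_iff]
      intro t
      by_cases ht : Odd t
      · filter_upwards [products2 hD (hα Ω P D hD) ((bt_good ht).mix (F : Set ℕ))
          ((bt_dep t).mix (F : Set ℕ)) hν] with ω hω
        intro _
        refine Pat.of fun H hH => ?_
        obtain ⟨C, hC⟩ := hω H hH
        refine ⟨C, fun K => ?_⟩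
        simp only [Int.cast_natCast, pt_cast]
        exact hC K
      · exact Eventually.of_forall fun ω h => absurd h ht
    filter_upwards [h1] with ω hω
    intro D' hfin t ht
    have h2 := hω hfin.toFinset t ht
    rwa [← hset D' (D ω) hfin] at h2
  · have hf' : PowerSeries.coeff 0 (PowerSeries.map (Int.castRingHom (ZMod 2)) f) = 1 := by
      rw [PowerSeries.coeff_map]
      obtain ⟨c, hc⟩ := hf
      rw [hc]
      simp only [eq_intCast]
      push_cast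
      have h2 : (2 : ZMod 2) = 0 := rfl
      rw [h2]; ring
    have h1 : ∀ᵐ ω ∂P, ∀ F : Finset ℕ,
        Pat α (cf ℤ f (symmDiff (F : Set ℕ) (D ω))) ν := by
      rw [ae_all_iff]
      intro F
      filter_upwards [products2 hD (hα Ω P D hD) ((cf_good hf').mix (F : Set ℕ))
        ((cf_dep _).mix (F : Set ℕ)) hν] with ω hω
      refine Pat.of fun H hH => ?_
      obtain ⟨C, hC⟩ := hω H hH
      refine ⟨C, fun K => ?_⟩
      simp only [cf_cast]
      exact hC K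
    filter_upwards [h1] with ω hω
    intro D' hfin
    have h2 := hω hfin.toFinset
    rwa [← hset D' (D ω) hfin] at h2

end Pool.Agent.X149.PP
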